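import Pool.Agent.NUF.UVec

/-!
# The ring operator (rows on a circle)

`topF`, `botF` = the caps of the loop gas with a weight; `ringF w c d X` = the line `c` crosses all rows of
the list `X` and is closed up through the line `d`.  It acts on the functions on the non-crossing states of
the list (non-crossing on the circle is the same).
-/

set_option autoImplicit false

namespace Pool.Agent.NUG

open _root_.Pool.Agent.EXL _root_.Pool.Agent.EXL.Pat _root_.Pool.Agent.EXL.HS HexObs Filter Topology
open _root_.Pool.Agent.NUF

variable {α K : Type*} [DecidableEq α] [CommRing K]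

/-- The top cap with the weight `κ` of an arc. -/
def topF (κ : K) (i j : α) (F : Pat α → K) : Pat α → K := fun p =>
  if p i = i then (if p j = j then F p else 0)
  else if p j = j then 0
  else if p i = j then 0
  else κ * F (cut i j p)

/-- The bottom cap with the weight `κ` of an arc. -/
def botF (κ : K) (i j : α) (F : Pat α → K) : Pat α → K := fun p =>
  if p i = i then (if p j = j then F p + κ * F (cup i j p) else 0) else 0

theorem topF_one (i j : α) (F : Pat α → K) : topF 1 i j F = glue i j F := by
  funext p
  simp only [topF, glue, one_mul]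

theorem botF_one (i j : α) (F : Pat α → K) : botF 1 i j F = EXL.U i j F := by
  funext p
  simp only [botF, EXL.U, one_mul]

theorem lin_topF (κ : K) (i j : α) : Lin (topF κ i j) := by
  intro a b F G; funext p; simp only [topF]; split_ifs <;> ring

theorem lin_botF (κ : K) (i j : α) : Lin (botF κ i j) := by
  intro a b F G; funext p; simp only [botF]; split_ifs <;> ring

/-- **The ring.** -/
def ringF (w : α → Wt K) (c d : α) (X : List α) (F : Pat α → K) : Pat α → K :=
  EXL.U c d (M w c X (glue c d F))

/-- The double column with arbitrary weights. -/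
def dblF (κb κt : K) (wj wi : α → Wt K) (i j : α) (X : List α) (F : Pat α → K) : Pat α → K :=
  botF κb i j (M wj j X (M wi i X (topF κt i j F)))

theorem lin_ringF (w : α → Wt K) (c d : α) (X : List α) : Lin (ringF w c d X) :=
  (lin_U c d).comp ((lin_M w c X).comp (lin_glue c d))

theorem lin_dblF (κb κt : K) (wj wi : α → Wt K) (i j : α) (X : List α) :
    Lin (dblF κb κt wj wi i j X) :=
  (lin_botF κb i j).comp ((lin_M wj j X).comp ((lin_M wi i X).comp (lin_topF κt i j)))

/-! ### Planarity -/

/-- The cap creates planar states from planar states. -/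
theorem pres_ax_bot (κ : K) {L1 L2 : List α} {i j : α} (hn : (L1 ++ i :: j :: L2).Nodup) :
    Pres (AX (L1 ++ L2)) (AX (L1 ++ i :: j :: L2)) (botF κ i j) := by
  intro F G h p hp
  unfold botF
  have hi : i ∉ L1 ++ L2 := by
    intro h'
    rw [List.nodup_append] at hn
    rw [List.mem_append] at h'
    rcases h' with h' | h'
    · exact hn.2.2 i h' i (by simp) rfl
    · exact (List.nodup_cons.1 hn.2.1).1 (by simp [h'])
  have hj : j ∉ L1 ++ L2 := by
    intro h'
    rw [List.nodup_append] at hn
    rw [List.mem_append] at h'
    rcases h' with h' | h'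
    · exact hn.2.2 j h' j (by simp) rfl
    · exact (List.nodup_cons.1 (List.nodup_cons.1 hn.2.1).2).1 h'
  have hij : i ≠ j := by
    intro e
    rw [List.nodup_append] at hn
    exact (List.nodup_cons.1 hn.2.1).1 (by simp [e])
  have h1 : p i = i := ax_out hp hi
  have h2 : p j = j := ax_out hp hj
  have hp1 : AX (L1 ++ j :: L2) p := ax_insert hj hp
  have hi1 : i ∉ L1 ++ j :: L2 := by
    intro h'
    rw [List.mem_append, List.mem_cons] at h'
    rcases h' with h' | h' | h'
    · exact hi (List.mem_append.2 (Or.inl h'))
    · exact hij h'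
    · exact hi (List.mem_append.2 (Or.inr h'))
  have hp2 : AX (L1 ++ i :: j :: L2) p := ax_insert hi1 hp1
  have hp3 : AX (L1 ++ i :: j :: L2) (cup i j p) := by
    have hadj := adj_next L1 L2 i j hn
    exact hp2.cup (ax_injOn _) (by simp) (by simp) (hadj.clr hp2)
  rw [if_pos h1, if_pos h2, if_pos h1, if_pos h2, h p hp2, h _ hp3]

/-- The cap joins two neighbouring lines. -/
theorem pres_ax_top (κ : K) {L1 L2 : List α} {i j : α} (hn : (L1 ++ i :: j :: L2).Nodup) :
    Pres (AX (L1 ++ i :: j :: L2)) (AX (L1 ++ L2)) (topF κ i j) := by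
  intro F G h p hp
  have hij : i ≠ j := by
    intro e
    rw [List.nodup_append] at hn
    exact (List.nodup_cons.1 hn.2.1).1 (by simp [e])
  have key : ∀ q, AX (L1 ++ i :: j :: L2) q → q i = i → q j = j → F q = G q := by
    intro q hq h1 h2
    apply h
    have h3 := ax_remove hq h1
    exact ax_remove h3 h2
  unfold topF
  by_cases h1 : p i = i
  · by_cases h2 : p j = j
    · simp only [if_pos h1, if_pos h2]
      exact key p hp h1 h2
    · simp only [if_pos h1, if_neg h2]
  · by_cases h2 : p j = j
    · simp only [if_neg h1, if_pos h2]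
    · by_cases h3 : p i = j
      · simp only [if_neg h1, if_neg h2, if_pos h3]
      · simp only [if_neg h1, if_neg h2, if_neg h3]
        have hadj := adj_next L1 L2 i j hn
        have hcut := hp.cut (ax_injOn _) (show i ∈ {x | x ∈ L1 ++ i :: j :: L2} by simp)
          (show j ∈ {x | x ∈ L1 ++ i :: j :: L2} by simp) (hadj.clr hp)
        rw [key _ hcut (cut_left hij h1 h2 h3) (cut_right hij h1 h2 h3)]

/-- The double column acts on functions of planar states. -/
theorem pres_dblF (κb κt : K) (wj wi : α → Wt K) {i j : α} {X : List α} (hn : X.Nodup) (hij : i ≠ j)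
    (hi : i ∉ X) (hj : j ∉ X) : Pres (AX X) (AX X) (dblF κb κt wj wi i j X) := by
  have h1 := pres_ax_bot κb (L1 := []) (L2 := X) (i := i) (j := j) (by
    simp only [List.nil_append, List.nodup_cons, List.mem_cons, not_or]
    exact ⟨⟨hij, hi⟩, hj, hn⟩)
  have h2 := pres_ax_M wj X (c := j) (L1 := [i]) (L2 := []) (by
    simp only [List.append_nil, List.cons_append, List.nil_append, List.nodup_cons, List.mem_cons,
      not_or]
    exact ⟨⟨hij, hi⟩, hj, hn⟩)
  have h3 := pres_ax_M wi X (c := i) (L1 := []) (L2 := [j]) (by
    rw [List.nil_append, List.nodup_cons, List.nodup_append, List.mem_append, List.mem_singleton,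
      not_or]
    refine ⟨⟨hi, hij⟩, hn, List.nodup_singleton _, ?_⟩
    intro a ha b hb e
    rw [List.mem_singleton] at hb
    subst e
    exact hj (hb ▸ ha))
  have h4 := pres_ax_top κt (L1 := X) (L2 := []) (i := i) (j := j) (by
    rw [List.nodup_append]
    refine ⟨hn, ?_, ?_⟩
    · simp [hij]
    · intro a ha b hb e
      rw [List.mem_cons, List.mem_singleton] at hb
      subst e
      rcases hb with rfl | rfl
      · exact hi ha
      · exact hj ha)
  simp only [List.nil_append, List.append_nil, List.cons_append] at h1 h2 h3 h4
  exact h1.comp (h2.comp (h3.comp h4))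

/-! ### The rotation of the circle -/

/-- **Rotation**: the lowest line becomes the highest one. -/
theorem ax_rot {L : List α} {d : α} {p : Pat α} (hn : (d :: L).Nodup) :
    AX (d :: L) p ↔ AX (L ++ [d]) p := by
  have hd : d ∉ L := (List.nodup_cons.1 hn).1
  have i1 : ∀ x ∈ L, (d :: L).idxOf x = L.idxOf x + 1 := by
    intro x hx
    apply idx_cons_ne
    rintro rfl
    exact hd hx
  have i2 : (d :: L).idxOf d = 0 := idx_cons_self d L
  have i3 : ∀ x ∈ L, (L ++ [d]).idxOf x = L.idxOf x := fun x hx => idx_left hx _
  have i4 : (L ++ [d]).idxOf d = L.length := by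
    rw [idx_right hd, idx_cons_self, Nat.add_zero]
  have i5 : ∀ x ∈ L, L.idxOf x < L.length := fun x hx => List.idxOf_lt_length_of_mem hx
  constructor
  · intro h
    refine ⟨fun x hx => h.out x fun h' => hx (by
      simp only [List.mem_append, List.mem_singleton, Set.mem_ofPred_eq, List.mem_cons] at h' ⊢
      tauto), ?_⟩
    intro a b hab hba
    by_cases ha : p a = a
    · rw [ha] at hba
      exact absurd hab (lt_asymm hba)
    have hout : ∀ x, p x ≠ x → x ≠ d → x ∈ L := by
      intro x hx hxd
      have : x ∈ d :: L := h.occ hx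
      rw [List.mem_cons] at this
      exact this.resolve_left hxd
    have hpa : p (p a) ≠ p a := by rw [p.inv]; exact fun e => ha e.symm
    by_cases hb : p b = b
    · simp only [hb]
      exact ⟨hab, hba⟩
    have hpb : p (p b) ≠ p b := by rw [p.inv]; exact fun e => hb e.symm
    -- `a` is not `d`
    have had : a ≠ d := by
      rintro rfl
      have hb1 : b ≠ a := by
        rintro rfl
        exact lt_irrefl _ hab
      have hbL := hout b hb hb1
      simp only [i4, i3 b hbL] at hab
      have := i5 b hbL
      omega
    have haL := hout a ha had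
    have hbd : b ≠ d := by
      rintro rfl
      by_cases e : p a = b
      · simp only [e] at hba
        exact lt_irrefl _ hba
      · have := hout (p a) hpa e
        simp only [i4, i3 _ this] at hba
        have := i5 _ this
        omega
    have hbL := hout b hb hbd
    by_cases e : p a = d
    · -- the arc of `d`
      have hpd : p d = a := by rw [← e, p.inv]
      have hpbd : p b ≠ d := by
        intro e'
        apply had
        have : b = a := by rw [← hpd, ← e', p.inv]
        subst this
        exact absurd hab (lt_irrefl _)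
      have hpbL := hout (p b) hpb hpbd
      simp only [i3 a haL, i3 b hbL, Nat.cast_lt] at hab
      simp only [e, i4, i3 a haL, i3 _ hpbL, Nat.cast_lt]
      refine ⟨?_, i5 _ hpbL⟩
      by_contra hlt
      have hne : L.idxOf (p b) ≠ L.idxOf a := by
        intro e2
        have e3 := (List.idxOf_inj hpbL).1 e2
        have : b = d := by rw [← e, ← e3, p.inv]
        exact hbd this
      have h1 := h.nc d (p b) (by simp only [i2, i1 _ hpbL]; push_cast; omega) (by
        simp only [hpd, i1 _ hpbL, i1 a haL]
        push_cast
        omega)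
      rw [p.inv, hpd] at h1
      simp only [i1 b hbL, i1 a haL] at h1
      push_cast at h1
      omega
    · have hpaL := hout (p a) hpa e
      simp only [i3 a haL, i3 b hbL, Nat.cast_lt] at hab
      simp only [i3 _ hpaL, i3 b hbL, Nat.cast_lt] at hba
      have h1 := h.nc a b (by simp only [i1 a haL, i1 b hbL]; push_cast; omega) (by
        simp only [i1 _ hpaL, i1 b hbL]; push_cast; omega)
      have hpbd : p b ≠ d := by
        intro e'
        rw [e'] at h1
        simp only [i2, i1 a haL] at h1
        push_cast at h1
        omega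
      have hpbL := hout (p b) hpb hpbd
      simp only [i1 a haL, i1 _ hpbL, i1 _ hpaL] at h1
      simp only [i3 a haL, i3 _ hpbL, i3 _ hpaL]
      push_cast at h1 ⊢
      omega
  · intro h
    refine ⟨fun x hx => h.out x fun h' => hx (by
      simp only [List.mem_append, List.mem_singleton, Set.mem_ofPred_eq, List.mem_cons] at h' ⊢
      tauto), ?_⟩
    intro a b hab hba
    by_cases ha : p a = a
    · rw [ha] at hba
      exact absurd hab (lt_asymm hba)
    have hout : ∀ x, p x ≠ x → x ≠ d → x ∈ L := by
      intro x hx hxd
      have : x ∈ L ++ [d] := h.occ hx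
      rw [List.mem_append, List.mem_singleton] at this
      exact this.resolve_right hxd
    have hpa : p (p a) ≠ p a := by rw [p.inv]; exact fun e => ha e.symm
    by_cases hb : p b = b
    · simp only [hb]
      exact ⟨hab, hba⟩
    have hpb : p (p b) ≠ p b := by rw [p.inv]; exact fun e => hb e.symm
    have hpad : p a ≠ d := by
      intro e
      simp only [e, i2] at hba
      by_cases hbd : b = d
      · subst hbd
        simp only [i2] at hba
        exact lt_irrefl _ hba
      · simp only [i1 b (hout b hb hbd)] at hba
        push_cast at hba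
        omega
    have hpaL := hout (p a) hpa hpad
    have hbd : b ≠ d := by
      rintro rfl
      by_cases e : a = b
      · subst e
        exact lt_irrefl _ hab
      · simp only [i2, i1 a (hout a ha e)] at hab
        push_cast at hab
        omega
    have hbL := hout b hb hbd
    by_cases e : a = d
    · subst e
      have hpbd : p b ≠ a := by
        intro e'
        have : b = p a := by rw [← e', p.inv]
        rw [this] at hba
        exact lt_irrefl _ hba
      have hpbL := hout (p b) hpb hpbd
      simp only [i1 _ hpaL, i1 b hbL] at hba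
      simp only [i2, i1 _ hpbL, i1 _ hpaL]
      push_cast at hba ⊢
      refine ⟨by omega, ?_⟩
      by_contra hlt
      have hne : L.idxOf (p b) ≠ L.idxOf (p a) := by
        intro e2
        have e3 := p.inj ((List.idxOf_inj hpbL).1 e2)
        exact hbd e3
      have h1 := h.nc (p a) (p b) (by simp only [i3 _ hpaL, i3 _ hpbL]; push_cast; omega) (by
        simp only [p.inv, i4, i3 _ hpbL, Nat.cast_lt]
        exact i5 _ hpbL)
      rw [p.inv, p.inv] at h1
      simp only [i3 b hbL, i3 _ hpaL] at h1
      push_cast at h1
      omega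
    · have haL := hout a ha e
      simp only [i1 a haL, i1 b hbL] at hab
      simp only [i1 _ hpaL, i1 b hbL] at hba
      push_cast at hab hba
      have h1 := h.nc a b (by simp only [i3 a haL, i3 b hbL]; push_cast; omega) (by
        simp only [i3 _ hpaL, i3 b hbL]; push_cast; omega)
      have hpbd : p b ≠ d := by
        intro e'
        rw [e'] at h1
        simp only [i4, i3 _ hpaL, Nat.cast_lt] at h1
        have := i5 _ hpaL
        omega
      have hpbL := hout (p b) hpb hpbd
      simp only [i3 a haL, i3 _ hpbL, i3 _ hpaL] at h1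
      simp only [i1 a haL, i1 _ hpbL, i1 _ hpaL]
      push_cast at h1 ⊢
      omega

/-- **The ring acts on functions of planar states.** -/
theorem pres_ringF (w : α → Wt K) {c d : α} {X : List α} (hn : X.Nodup) (hcd : c ≠ d)
    (hc : c ∉ X) (hd : d ∉ X) : Pres (AX X) (AX X) (ringF w c d X) := by
  have h1 := pres_ax_bot (1 : K) (L1 := []) (L2 := X) (i := d) (j := c) (by
    simp only [List.nil_append, List.nodup_cons, List.mem_cons, not_or]
    exact ⟨⟨hcd.symm, hd⟩, hc, hn⟩)
  have h2 := pres_ax_M w X (c := c) (L1 := [d]) (L2 := []) (by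
    simp only [List.append_nil, List.cons_append, List.nil_append, List.nodup_cons, List.mem_cons,
      not_or]
    exact ⟨⟨hcd.symm, hd⟩, hc, hn⟩)
  have h4 := pres_ax_top (1 : K) (L1 := X) (L2 := []) (i := c) (j := d) (by
    rw [List.nodup_append]
    refine ⟨hn, ?_, ?_⟩
    · simp [hcd]
    · intro a ha b hb e
      rw [List.mem_cons, List.mem_singleton] at hb
      subst e
      rcases hb with rfl | rfl
      · exact hc ha
      · exact hd ha)
  simp only [List.nil_append, List.append_nil, List.cons_append] at h1 h2 h4
  have hn' : (d :: (X ++ [c])).Nodup := by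
    rw [List.nodup_cons, List.nodup_append]
    refine ⟨?_, hn, List.nodup_singleton _, ?_⟩
    · rw [List.mem_append, List.mem_singleton]
      rintro (h | h)
      · exact hd h
      · exact hcd h.symm
    · intro a ha b hb e
      rw [List.mem_singleton] at hb
      subst e
      exact hc (hb ▸ ha)
  have h3 : Pres (K := K) (AX (d :: (X ++ [c]))) (AX X) (topF 1 c d) := by
    refine h4.mono (fun p hp => ?_) fun p hp => hp
    have := (ax_rot hn').1 hp
    simpa using this
  have h5 := h1.comp (h2.comp h3)
  intro F G h p hp
  have h6 := h5 F G h p hp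
  simp only [topF_one, botF_one] at h6
  have hU : ∀ H : Pat α → K, EXL.U d c H = EXL.U c d H := by
    intro H
    funext q
    simp only [EXL.U]
    by_cases e1 : q c = c <;> by_cases e2 : q d = d <;> simp [e1, e2, cup_comm]
  unfold ringF
  rw [← hU, ← hU]
  exact h6

/-! ### The empty state -/

theorem botF_ind (κ : K) {i j : α} (hij : i ≠ j) :
    botF κ i j (HS.ind Pat.empty) = HS.ind Pat.empty := by
  funext p
  unfold botF
  by_cases h1 : p i = i
  · by_cases h2 : p j = j
    · have h3 : (HS.ind Pat.empty : Pat α → K) (cup i j p) = 0 := by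
        apply ind_empty_ne (x := i)
        rw [pcup_apply h1 h2, if_pos rfl]
        exact hij.symm
      rw [if_pos h1, if_pos h2, h3, mul_zero, add_zero]
    · rw [if_pos h1, if_neg h2, ind_empty_ne h2]
  · rw [if_neg h1, ind_empty_ne h1]

theorem topF_ind (κ : K) {i j : α} (hij : i ≠ j) :
    topF κ i j (HS.ind Pat.empty) = HS.ind Pat.empty := by
  funext p
  unfold topF
  by_cases h1 : p i = i
  · by_cases h2 : p j = j
    · rw [if_pos h1, if_pos h2]
    · rw [if_pos h1, if_neg h2, ind_empty_ne h2]
  · by_cases h2 : p j = j
    · rw [if_neg h1, if_pos h2, ind_empty_ne h1]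
    · by_cases h3 : p i = j
      · rw [if_neg h1, if_neg h2, if_pos h3, ind_empty_ne h1]
      · have hpi : p i ≠ p j := fun e => hij (p.inj e)
        have h5 : cut i j p (p i) = p j := by
          rw [pcut_apply hij h1 h2 h3, if_neg h1, if_neg h3, if_pos rfl]
        have h6 : (HS.ind Pat.empty : Pat α → K) (cut i j p) = 0 := by
          apply ind_empty_ne (x := p i)
          rw [h5]
          exact hpi.symm
        rw [if_neg h1, if_neg h2, if_neg h3, h6, mul_zero, ind_empty_ne h1]

theorem ringF_ind (w : α → Wt K) {c d : α} {X : List α} (hcd : c ≠ d) (hc : c ∉ X) :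
    ringF w c d X (HS.ind Pat.empty) = HS.ind Pat.empty := by
  unfold ringF
  rw [← topF_one, topF_ind _ hcd, M_fix_ind w hc, ← botF_one, botF_ind _ hcd]

theorem dblF_ind (κb κt : K) (wj wi : α → Wt K) {i j : α} {X : List α} (hij : i ≠ j) (hi : i ∉ X)
    (hj : j ∉ X) : dblF κb κt wj wi i j X (HS.ind Pat.empty) = HS.ind Pat.empty := by
  unfold dblF
  rw [topF_ind _ hij, M_fix_ind wi hi, M_fix_ind wj hj, botF_ind _ hij]

/-! ### The hexagonal ring -/

/-- **The ring of the honeycomb lattice**, real weights. -/
noncomputable def ringH (c d : α) (X : List α) : (Pat α → ℝ) → (Pat α → ℝ) :=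
  ringF (fun _ => hexW xc) c d X

/-- The same with complex values. -/
noncomputable def ringC (c d : α) (X : List α) : (Pat α → ℂ) → (Pat α → ℂ) :=
  ringF (fun _ => hexW (xc : ℂ)) c d X

theorem glue_nn (i j : α) {F : Pat α → ℝ} (hF : ∀ p, 0 ≤ F p) (p : Pat α) : 0 ≤ glue i j F p := by
  simp only [glue]
  split_ifs
  · exact hF p
  · exact le_rfl
  · exact le_rfl
  · exact le_rfl
  · exact hF _

theorem U_nn (i j : α) {F : Pat α → ℝ} (hF : ∀ p, 0 ≤ F p) (p : Pat α) : 0 ≤ EXL.U i j F p := by
  simp only [EXL.U]
  split_ifs
  · exact add_nonneg (hF _) (hF _)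
  · exact le_rfl
  · exact le_rfl

theorem ringH_pos (c d : α) (X : List α) : PosOp (ringH c d X) := fun _ hF p =>
  U_nn c d (M_nn (fun _ => hexW_nn xc_pos.le) c X (glue_nn c d hF)) p

theorem ringC_ofReal (c d : α) (X : List α) (F : Pat α → ℝ) :
    ringC c d X (fun p => (F p : ℂ)) = fun p => ((ringH c d X F p : ℝ) : ℂ) := by
  have h1 : glue c d (fun p => (F p : ℂ)) = fun p => ((glue c d F p : ℝ) : ℂ) := by
    funext p
    simp only [glue]
    split_ifs <;> simp
  have h2 := M_map Complex.ofRealHom (fun _ => hexW xc) c X (glue c d F)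
  rw [hexW_map] at h2
  have h3 : M (fun _ => hexW (xc : ℂ)) c X (fun p => ((glue c d F p : ℝ) : ℂ)) =
      fun p => ((M (fun _ => hexW xc) c X (glue c d F) p : ℝ) : ℂ) := h2
  unfold ringC ringH ringF
  rw [h1, h3]
  funext p
  simp only [EXL.U]
  split_ifs <;> simp

theorem lin_ringH (c d : α) (X : List α) : Lin (ringH c d X) := lin_ringF _ c d X

theorem lin_ringC (c d : α) (X : List α) : Lin (ringC c d X) := lin_ringF _ c d X

/-- Injectivity over the complex numbers from the real one. -/
theorem injN_ringC {c d : α} {X : List α} (h : InjN (AX X) (ringH c d X)) :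
    InjN (AX X) (ringC c d X) := by
  intro G h0 h1 p
  have hsplit := cx_split (lin_ringC c d X) (ringC_ofReal c d X) G
  have key : ∀ q, q ≠ Pat.empty → AX X q → ringH c d X (fun q => (G q).re) q = (G q).re ∧
      ringH c d X (fun q => (G q).im) q = (G q).im := by
    intro q hq hA
    have h2 := h1 q hq hA
    rw [hsplit] at h2
    constructor
    · have := congrArg Complex.re h2
      simpa using this
    · have := congrArg Complex.im h2
      simpa using this
  apply Complex.ext
  · exact h (fun q => (G q).re) (fun q hq => by rw [h0 q hq]; rfl)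
      (fun q hq hA => (key q hq hA).1) p
  · exact h (fun q => (G q).im) (fun q hq => by rw [h0 q hq]; rfl)
      (fun q hq hA => (key q hq hA).2) p

end Pool.Agent.NUG
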