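import Pool.Agent.NUG.Ring
import Pool.Agent.UNI.Moves4

/-!
# The ring operator is irreducible (chain G, G3a)

All weights of the rhombi satisfy `v, u1, u2 > 0`, `w1, w2 ≥ 0`.  Any two nonempty planar states of the
rows are connected by a power of the ring operator.
-/

set_option autoImplicit false

namespace Pool.Agent.NUG

open _root_.Pool.Agent.EXL _root_.Pool.Agent.EXL.Pat _root_.Pool.Agent.EXL.HS HexObs
open _root_.Pool.Agent.NUF
open _root_.Pool.Agent.UNI.Mv (WP)

variable {α : Type*} [DecidableEq α]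

section basic

variable {w : α → Wt ℝ} {c d a b : α} {X L : List α} {p q s : Pat α}

theorem pos_U : Pos (EXL.U (K := ℝ) c d) := by
  intro F hF s
  simp only [EXL.U]
  split_ifs
  · exact add_nonneg (hF _) (hF _)
  · exact le_rfl
  · exact le_rfl

theorem pos_glue : Pos (glue (K := ℝ) c d) := by
  intro F hF s
  simp only [glue]
  split_ifs
  · exact hF _
  · exact le_rfl
  · exact le_rfl
  · exact le_rfl
  · exact hF _

theorem leads_U_stay (h1 : p c = c) (h2 : p d = d) : Leads (EXL.U (K := ℝ) c d) p p := by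
  refine ⟨1, one_pos, fun F hF => ?_⟩
  simp only [EXL.U, if_pos h1, if_pos h2]
  have := hF (cup c d p)
  linarith

theorem leads_glue_stay (h1 : p c = c) (h2 : p d = d) : Leads (glue (K := ℝ) c d) p p := by
  refine ⟨1, one_pos, fun F hF => ?_⟩
  simp only [glue, if_pos h1, if_pos h2]
  linarith

theorem pos_M (hw : ∀ x, WP (w x)) : ∀ L : List α, Pos (M w c L)
  | [] => fun _ h => h
  | i :: L => by
    have h := (UNI.Mv.pos_R (c := c) (j := i) (hw i)).comp (pos_M hw L)
    exact h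

theorem leads_M_stay (hw : ∀ x, WP (w x)) : ∀ {L : List α},
    (∀ i ∈ L, p c = c ∨ p i = i) → Leads (M w c L) p p
  | [], _ => Leads.id p
  | i :: L, h => by
    have h1 := UNI.Mv.leads_R_stay (c := c) (j := i) (hw i) (h i (by simp))
    exact h1.comp (leads_M_stay hw (L := L) (fun j hj => h j (by simp [hj]))) (pos_M hw L)

theorem pos_ringF (hw : ∀ x, WP (w x)) : Pos (ringF w c d X) := by
  have h : Pos (fun F : Pat α → ℝ => EXL.U c d (M w c X (glue c d F))) :=
    Pos.comp (X := EXL.U c d) pos_U (Pos.comp (X := M w c X) (pos_M hw _) pos_glue)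
  exact h

omit [DecidableEq α] in
theorem split2' [DecidableEq α] (ha : a ∈ X) (hb : b ∈ X) (hn : X.Nodup)
    (h : X.idxOf a < X.idxOf b) : ∃ L1 L2 L3 : List α, X = L1 ++ a :: (L2 ++ b :: L3) ∧
      ∀ k ∈ L2, k ∈ X ∧ X.idxOf a < X.idxOf k ∧ X.idxOf k < X.idxOf b := by
  obtain ⟨L1, L', rfl⟩ := List.append_of_mem ha
  rw [List.nodup_append, List.nodup_cons] at hn
  obtain ⟨n1, ⟨n2, n3⟩, n4⟩ := hn
  have ha1 : a ∉ L1 := fun h' => n4 a h' a (by simp) rfl
  have hia : (L1 ++ a :: L').idxOf a = L1.length := by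
    rw [idx_right ha1, idx_cons_self, Nat.add_zero]
  have hb1 : b ∉ L1 := by
    intro h'
    rw [hia, idx_left h'] at h
    have := List.idxOf_lt_length_of_mem h'
    omega
  have hba : b ≠ a := by
    rintro rfl
    exact lt_irrefl _ h
  have hb2 : b ∈ L' := by
    rw [List.mem_append, List.mem_cons] at hb
    rcases hb with hb | hb | hb
    · exact absurd hb hb1
    · exact absurd hb hba
    · exact hb
  obtain ⟨L2, L3, rfl⟩ := List.append_of_mem hb2
  refine ⟨L1, L2, L3, rfl, fun k hk => ?_⟩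
  have hk' : k ∈ L2 ++ b :: L3 := by simp [hk]
  have hk1 : k ∉ L1 := fun h' => n4 k h' k (by simp [hk]) rfl
  have hka : k ≠ a := by
    rintro rfl
    exact n2 hk'
  have hb3 : b ∉ L2 := by
    intro h'
    rw [List.nodup_append] at n3
    exact n3.2.2 b h' b (by simp) rfl
  have e1 := List.idxOf_lt_length_of_mem hk
  refine ⟨by simp [hk], ?_, ?_⟩
  · rw [hia, idx_right hk1, idx_cons_ne hka]
    omega
  · rw [idx_right hk1, idx_cons_ne hka, idx_right hb1, idx_cons_ne hba, idx_left hk,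
      idx_right hb3, idx_cons_self]
    omega

/-- General two event move between two rows. -/
theorem leads_ring (hw : ∀ x, WP (w x)) (hn : X.Nodup) (ha : a ∈ X) (hb : b ∈ X)
    (hab : X.idxOf a < X.idxOf b) (hpc : p c = c) (hpd : p d = d)
    (h1 : Leads (R (w a) c a) p q)
    (hq : ∀ k ∈ X, X.idxOf a < X.idxOf k → X.idxOf k < X.idxOf b → q k = k)
    (h2 : Leads (R (w b) c b) q s) (hsc : s c = c) (hsd : s d = d) :
    Leads (ringF w c d X) p s := by
  obtain ⟨L1, L2, L3, hL, hm⟩ := split2' ha hb hn hab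
  have a1 : Leads (EXL.U (K := ℝ) c d) p p := leads_U_stay hpc hpd
  have a2 : Leads (M w c L1) p p := leads_M_stay hw (fun _ _ => Or.inl hpc)
  have a3 : Leads (M w c L2) q q := by
    refine leads_M_stay hw (fun k hk => Or.inr ?_)
    obtain ⟨m1, m2, m3⟩ := hm k hk
    exact hq k m1 m2 m3
  have a4 : Leads (M w c L3) s s := leads_M_stay hw (fun _ _ => Or.inl hsc)
  have a5 : Leads (glue (K := ℝ) c d) s s := leads_glue_stay hsc hsd
  have P5 : Pos (glue (K := ℝ) c d) := pos_glue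
  have P4 := (pos_M (c := c) hw L3).comp P5
  have P3 := (UNI.Mv.pos_R (c := c) (j := b) (hw b)).comp P4
  have P2 := (pos_M (c := c) hw L2).comp P3
  have P1 := (UNI.Mv.pos_R (c := c) (j := a) (hw a)).comp P2
  have P0 := (pos_M (c := c) hw L1).comp P1
  have bb := a1.comp (a2.comp (h1.comp (a3.comp (h2.comp (a4.comp a5 P5) P4) P3) P2) P1) P0
  have e : ringF w c d X = fun F => EXL.U c d (M w c L1 (R (w a) c a (M w c L2
      (R (w b) c b (M w c L3 (glue c d F)))))) := by
    funext F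
    unfold ringF
    rw [hL, M_append, M_cons, M_append, M_cons]
  rw [e]
  exact bb

end basic

/-! ### The moves -/

section moves

variable {w : α → Wt ℝ} {c d a b : α} {X : List α} {p : Pat α}

/-- The data: two rows in the order of the list, `c`, `d` not rows and free. -/
structure Rw (c d a b : α) (X : List α) (p : Pat α) : Prop where
  hn : X.Nodup
  ha : a ∈ X
  hb : b ∈ X
  hab : X.idxOf a < X.idxOf b
  hc : c ∉ X
  hd : d ∉ X
  hpc : p c = c
  hpd : p d = d
  hbt : ∀ k ∈ X, X.idxOf a < X.idxOf k → X.idxOf k < X.idxOf b → p k = k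

theorem Rw.ab (h : Rw c d a b X p) : a ≠ b := by
  intro e
  have := h.hab
  rw [e] at this
  exact lt_irrefl _ this

theorem Rw.ca (h : Rw c d a b X p) : c ≠ a := fun e => h.hc (e ▸ h.ha)

theorem Rw.cb (h : Rw c d a b X p) : c ≠ b := fun e => h.hc (e ▸ h.hb)

theorem Rw.da (h : Rw c d a b X p) : d ≠ a := fun e => h.hd (e ▸ h.ha)

theorem Rw.db (h : Rw c d a b X p) : d ≠ b := fun e => h.hd (e ▸ h.hb)

omit [DecidableEq α] in
theorem ne_of_fix {x y : α} (hx : p x = x) (h : y ≠ x) : p y ≠ x := fun e =>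
  h (by rw [← p.inv y, e, hx])

/-- Two occupied rows that are not partners are joined. -/
theorem mv_join (hw : ∀ x, WP (w x)) (h : Rw c d a b X p) (h1 : p a ≠ a) (h2 : p b ≠ b)
    (h3 : p a ≠ b) : Leads (ringF w c d X) p (cut a b p) := by
  have n1 := h.ca
  have n2 := h.cb
  have n3 := h.ab
  have e := cut_swap' h.hpc h1 h2 h3 n1 n2 n3
  have hpc : p a ≠ c := ne_of_fix h.hpc n1.symm
  have hpcj : p b ≠ c := ne_of_fix h.hpc n2.symm
  have e1 : swap c a p c = p a := by
    rw [pswap_apply, Equiv.swap_apply_left, Equiv.swap_apply_of_ne_of_ne hpc h1]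
  have e2 : swap c a p b = p b := swap_out n2.symm n3.symm hpcj (fun e => h3 (by rw [← e, p.inv]))
  have hd : cut a b p d = d := (cut_fix n3 h1 h2 h3 d).2 (Or.inr (Or.inr h.hpd))
  rw [← e]
  refine leads_ring hw h.hn h.ha h.hb h.hab h.hpc h.hpd
    (UNI.Mv.leads_R_swap (hw a) (Or.inl ⟨h.hpc, h1⟩)) ?_
    (UNI.Mv.leads_R_cut (hw b) (by rw [e1]; exact hpc) (by rw [e2]; exact h2)
      (by rw [e1]; exact h3)) ?_ (by rw [e]; exact hd)
  · intro k hk hk1 hk2
    have hk' := h.hbt k hk hk1 hk2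
    have m1 : k ≠ c := fun e => h.hc (e ▸ hk)
    have m2 : k ≠ a := by
      rintro rfl
      exact lt_irrefl _ hk1
    rw [swap_out m1 m2 (by rw [hk']; exact m1) (by rw [hk']; exact m2), hk']
  · exact cut_left n2 (by rw [e1]; exact hpc) (by rw [e2]; exact h2) (by rw [e1]; exact h3)

/-- An arc between two empty rows is created. -/
theorem mv_create (hw : ∀ x, WP (w x)) (h : Rw c d a b X p) (h1 : p a = a) (h2 : p b = b) :
    Leads (ringF w c d X) p (cup a b p) := by
  have n1 := h.ca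
  have n2 := h.cb
  have n3 := h.ab
  have e := swap_cup' h.hpc h1 h2 n1 n2 n3
  have e1 : cup c a p c = a := by rw [pcup_apply h.hpc h1, if_pos rfl]
  have e2 : cup c a p b = b := by
    rw [pcup_apply h.hpc h1, if_neg n2.symm, if_neg n3.symm, h2]
  have hd : cup a b p d = d := by
    rw [pcup_apply h1 h2, if_neg h.da, if_neg h.db, h.hpd]
  have hc : cup a b p c = c := by
    rw [pcup_apply h1 h2, if_neg h.ca, if_neg h.cb, h.hpc]
  rw [← e]
  refine leads_ring hw h.hn h.ha h.hb h.hab h.hpc h.hpd (UNI.Mv.leads_R_cup (hw a) h.hpc h1) ?_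
    (UNI.Mv.leads_R_swap (hw b) (Or.inr ⟨by rw [e1]; exact n1.symm, e2⟩))
    (by rw [e]; exact hc) (by rw [e]; exact hd)
  intro k hk hk1 hk2
  have m1 : k ≠ c := fun e => h.hc (e ▸ hk)
  have m2 : k ≠ a := by
    rintro rfl
    exact lt_irrefl _ hk1
  rw [pcup_apply h.hpc h1, if_neg m1, if_neg m2, h.hbt k hk hk1 hk2]

/-- The strand at the lower row moves to the higher row. -/
theorem mv_up (hw : ∀ x, WP (w x)) (h : Rw c d a b X p) (h1 : p a ≠ a) (h2 : p b = b) :
    Leads (ringF w c d X) p (swap a b p) := by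
  have n1 := h.ca
  have n2 := h.cb
  have n3 := h.ab
  have e := swap_swap' h.hpc h2 n1 n2 n3
  have hpc : p a ≠ c := ne_of_fix h.hpc n1.symm
  have e1 : swap c a p c = p a := by
    rw [pswap_apply, Equiv.swap_apply_left, Equiv.swap_apply_of_ne_of_ne hpc h1]
  have e2 : swap c a p b = b := by
    rw [swap_out n2.symm n3.symm (by rw [h2]; exact n2.symm) (by rw [h2]; exact n3.symm), h2]
  have hd : swap a b p d = d := by
    rw [swap_out h.da h.db (by rw [h.hpd]; exact h.da) (by rw [h.hpd]; exact h.db), h.hpd]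
  have hc : swap a b p c = c := by
    rw [swap_out n1 n2 (by rw [h.hpc]; exact n1) (by rw [h.hpc]; exact n2), h.hpc]
  rw [← e]
  refine leads_ring hw h.hn h.ha h.hb h.hab h.hpc h.hpd
    (UNI.Mv.leads_R_swap (hw a) (Or.inl ⟨h.hpc, h1⟩)) ?_
    (UNI.Mv.leads_R_swap (hw b) (Or.inr ⟨by rw [e1]; exact hpc, e2⟩))
    (by rw [e]; exact hc) (by rw [e]; exact hd)
  intro k hk hk1 hk2
  have hk' := h.hbt k hk hk1 hk2
  have m1 : k ≠ c := fun e => h.hc (e ▸ hk)
  have m2 : k ≠ a := by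
    rintro rfl
    exact lt_irrefl _ hk1
  rw [swap_out m1 m2 (by rw [hk']; exact m1) (by rw [hk']; exact m2), hk']

/-- The strand at the higher row moves to the lower row. -/
theorem mv_down (hw : ∀ x, WP (w x)) (h : Rw c d a b X p) (h1 : p a = a) (h2 : p b ≠ b) :
    Leads (ringF w c d X) p (swap b a p) := by
  have n1 := h.ca
  have n2 := h.cb
  have n3 := h.ab
  have e := cut_cup' h.hpc h1 h2 n2 n1 n3.symm
  have e1 : cup c a p c = a := by rw [pcup_apply h.hpc h1, if_pos rfl]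
  have e2 : cup c a p b = p b := by
    rw [pcup_apply h.hpc h1, if_neg n2.symm, if_neg n3.symm]
  have hd : swap b a p d = d := by
    rw [swap_out h.db h.da (by rw [h.hpd]; exact h.db) (by rw [h.hpd]; exact h.da), h.hpd]
  rw [← e]
  refine leads_ring hw h.hn h.ha h.hb h.hab h.hpc h.hpd (UNI.Mv.leads_R_cup (hw a) h.hpc h1) ?_
    (UNI.Mv.leads_R_cut (hw b) (by rw [e1]; exact n1.symm) (by rw [e2]; exact h2)
      (by rw [e1]; exact n3)) ?_ (by rw [e]; exact hd)
  · intro k hk hk1 hk2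
    have m1 : k ≠ c := fun e => h.hc (e ▸ hk)
    have m2 : k ≠ a := by
      rintro rfl
      exact lt_irrefl _ hk1
    rw [pcup_apply h.hpc h1, if_neg m1, if_neg m2, h.hbt k hk hk1 hk2]
  · exact cut_left n2 (by rw [e1]; exact n1.symm) (by rw [e2]; exact h2) (by rw [e1]; exact n3)

end moves

/-! ### The occupied rows -/

section reach

variable {w : α → Wt ℝ} {c d : α} {X : List α} {p q : Pat α}

/-- the occupied rows -/
def occL (X : List α) (p : Pat α) : Finset α := X.toFinset.filter (fun x => p x ≠ x)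

theorem mem_occL {x : α} : x ∈ occL X p ↔ x ∈ X ∧ p x ≠ x := by
  simp [occL]

/-- The next occupied row. -/
theorem next_row (a : α) (h : ∃ m ∈ occL X p, X.idxOf a < X.idxOf m) :
    ∃ b ∈ occL X p, X.idxOf a < X.idxOf b ∧
      ∀ k ∈ X, X.idxOf a < X.idxOf k → X.idxOf k < X.idxOf b → p k = k := by
  have hne : ((occL X p).filter (fun m => X.idxOf a < X.idxOf m)).Nonempty := by
    obtain ⟨m, h1, h2⟩ := h
    exact ⟨m, Finset.mem_filter.2 ⟨h1, h2⟩⟩
  obtain ⟨b, hb, hmin⟩ := Finset.exists_min_image _ (fun x => X.idxOf x) hne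
  rw [Finset.mem_filter] at hb
  refine ⟨b, hb.1, hb.2, fun k hk h1 h2 => ?_⟩
  by_contra hkk
  have := hmin k (Finset.mem_filter.2 ⟨mem_occL.2 ⟨hk, hkk⟩, h1⟩)
  omega

theorem occL_cut {a b : α} (ha : a ∈ X) (hab : a ≠ b) (h1 : p a ≠ a) (h2 : p b ≠ b)
    (h3 : p a ≠ b) : (occL X (cut a b p)).card < (occL X p).card := by
  apply Finset.card_lt_card
  rw [Finset.ssubset_iff_of_subset]
  · exact ⟨a, mem_occL.2 ⟨ha, h1⟩, fun e => (mem_occL.1 e).2
      ((cut_fix hab h1 h2 h3 _).2 (Or.inl rfl))⟩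
  · intro k hk
    rw [mem_occL] at hk ⊢
    exact ⟨hk.1, fun e => hk.2 ((cut_fix hab h1 h2 h3 _).2 (Or.inr (Or.inr e)))⟩

theorem cut_ne_empty {a b : α} (hab : a ≠ b) (h1 : p a ≠ a) (h2 : p b ≠ b)
    (h3 : p a ≠ b) : cut a b p ≠ Pat.empty := by
  rw [HS.Pat.ne_empty_iff]
  refine ⟨p a, fun e => ?_⟩
  rw [cut_fix hab h1 h2 h3] at e
  rcases e with e | e | e
  · exact h1 e
  · exact h3 e
  · rw [p.inv] at e; exact h1 e.symm

theorem cut_sup {a b : α} (hab : a ≠ b) (h1 : p a ≠ a) (h2 : p b ≠ b)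
    (h3 : p a ≠ b) (hs : ∀ x, x ∉ X → p x = x) : ∀ x, x ∉ X → cut a b p x = x :=
  fun x hx => (cut_fix hab h1 h2 h3 x).2 (Or.inr (Or.inr (hs x hx)))

/-- One arc, or a step to a nonempty state with fewer occupied rows. -/
theorem step_ring (hw : ∀ x, WP (w x)) (hn : X.Nodup) (hc : c ∉ X) (hd : d ∉ X)
    (hs : ∀ x, x ∉ X → p x = x) (hne : p ≠ Pat.empty) :
    (∃ a b, a ∈ X ∧ b ∈ X ∧ X.idxOf a < X.idxOf b ∧ p = cup a b Pat.empty) ∨
    ∃ q, Leads (ringF w c d X) p q ∧ (∀ x, x ∉ X → q x = x) ∧ q ≠ Pat.empty ∧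
      (occL X q).card < (occL X p).card := by
  have hocc : ∀ x, p x ≠ x → x ∈ occL X p := fun x hx =>
    mem_occL.2 ⟨by_contra fun h => hx (hs x h), hx⟩
  have hinj : ∀ {x y : α}, x ∈ X → X.idxOf x = X.idxOf y → x = y := fun hx h =>
    (List.idxOf_inj hx).1 h
  have hS : (occL X p).Nonempty := by
    rw [HS.Pat.ne_empty_iff] at hne
    obtain ⟨x, hx⟩ := hne
    exact ⟨x, hocc x hx⟩
  obtain ⟨a, haS, hamin⟩ := Finset.exists_min_image _ (fun x => X.idxOf x) hS
  obtain ⟨haX, ha⟩ := mem_occL.1 haS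
  have hlt : ∀ m ∈ occL X p, m ≠ a → X.idxOf a < X.idxOf m := by
    intro m hm hma
    refine lt_of_le_of_ne (hamin m hm) fun e => hma (hinj haX e).symm
  have hpa : p (p a) ≠ p a := by rw [p.inv]; exact ha.symm
  obtain ⟨b, hbS, hab, hbt⟩ := next_row a ⟨p a, hocc _ hpa, hlt _ (hocc _ hpa) ha⟩
  obtain ⟨hbX, hb⟩ := mem_occL.1 hbS
  have nab : a ≠ b := by
    intro e
    rw [e] at hab
    exact lt_irrefl _ hab
  by_cases h3 : p a = b
  · have h3' : p b = a := by rw [← h3, p.inv]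
    by_cases hex : ∃ m ∈ occL X p, X.idxOf b < X.idxOf m
    · obtain ⟨m, hmS, hbm, hmt⟩ := next_row b hex
      obtain ⟨hmX, hm⟩ := mem_occL.1 hmS
      have nbm : b ≠ m := by
        intro e
        rw [e] at hbm
        exact lt_irrefl _ hbm
      have nam : a ≠ m := by
        intro e
        rw [← e] at hbm
        exact absurd hab (not_lt.2 hbm.le)
      have h4 : p b ≠ m := by rw [h3']; exact nam
      exact Or.inr ⟨_, mv_join hw ⟨hn, hbX, hmX, hbm, hc, hd, hs c hc, hs d hd, hmt⟩ hb hm h4,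
        cut_sup nbm hb hm h4 hs, cut_ne_empty nbm hb hm h4, occL_cut hbX nbm hb hm h4⟩
    · left
      push Not at hex
      refine ⟨a, b, haX, hbX, hab, ?_⟩
      ext x
      rw [pcup_apply rfl rfl]
      by_cases hxa : x = a
      · rw [if_pos hxa, hxa, h3]
      · by_cases hxb : x = b
        · rw [if_neg hxa, if_pos hxb, hxb, h3']
        · rw [if_neg hxa, if_neg hxb]
          by_contra hx
          have hxS := hocc x hx
          have h5 := hlt x hxS hxa
          have h6 := hex x hxS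
          rcases lt_or_eq_of_le h6 with h7 | h7
          · exact hx (hbt x (mem_occL.1 hxS).1 h5 h7)
          · exact hxb (hinj (mem_occL.1 hxS).1 h7)
  · exact Or.inr ⟨_, mv_join hw ⟨hn, haX, hbX, hab, hc, hd, hs c hc, hs d hd, hbt⟩ ha hb h3,
      cut_sup nab ha hb h3 hs, cut_ne_empty nab ha hb h3, occL_cut haX nab ha hb h3⟩

/-- Every nonempty state leads to a single arc. -/
theorem leads_arc (hw : ∀ x, WP (w x)) (hn : X.Nodup) (hc : c ∉ X) (hd : d ∉ X) :
    ∀ (n : ℕ) (p : Pat α), (occL X p).card ≤ n → (∀ x, x ∉ X → p x = x) → p ≠ Pat.empty →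
    ∃ (m : ℕ) (a b : α), a ∈ X ∧ b ∈ X ∧ X.idxOf a < X.idxOf b ∧
      Leads ((ringF w c d X)^[m]) p (cup a b Pat.empty)
  | n, p, hp, hs, hne => by
    rcases step_ring hw hn hc hd hs hne with ⟨a, b, h1, h2, h3, h4⟩ | ⟨q, h1, h2, h3, h4⟩
    · exact ⟨0, a, b, h1, h2, h3, by rw [h4]; exact Leads.id _⟩
    · match n, hp with
      | 0, hp => omega
      | n + 1, hp =>
        obtain ⟨m, a, b, h5, h6, h7, h8⟩ := leads_arc hw hn hc hd n q (by omega) h2 h3
        exact ⟨m + 1, a, b, h5, h6, h7, Leads.iterate_succ (pos_ringF hw) h1 h8⟩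

/-- One end of a single arc is moved. -/
theorem swap_arc {a b x : α} (hab : a ≠ b) (hxb : x ≠ b) :
    swap a x (cup a b Pat.empty) = cup x b Pat.empty := by
  ext z
  rw [pswap_apply, pcup_apply rfl rfl, pcup_apply rfl rfl, Equiv.swap_apply_def,
    Equiv.swap_apply_def]
  simp only [show ∀ z : α, (Pat.empty : Pat α) z = z from fun _ => rfl]
  grind

/-- The first end of a single arc moves down. -/
theorem arc_down1 (hw : ∀ x, WP (w x)) (hn : X.Nodup) (hc : c ∉ X) (hd : d ∉ X) {a b x : α}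
    (ha : a ∈ X) (hb : b ∈ X) (hx : x ∈ X) (h1 : X.idxOf x < X.idxOf a)
    (h2 : X.idxOf a < X.idxOf b) :
    Leads (ringF w c d X) (cup a b Pat.empty) (cup x b Pat.empty) := by
  have hab : a ≠ b := fun e => by rw [e] at h2; exact lt_irrefl _ h2
  have hxa : x ≠ a := fun e => by rw [e] at h1; exact lt_irrefl _ h1
  have hxb : x ≠ b := fun e => by rw [e] at h1; exact lt_asymm h1 h2
  rw [← swap_arc hab hxb]
  have hv : ∀ z, z ≠ a → z ≠ b → cup a b Pat.empty z = z := fun z h3 h4 => by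
    rw [pcup_apply rfl rfl, if_neg h3, if_neg h4]; rfl
  refine mv_down hw ⟨hn, hx, ha, h1, hc, hd, hv c ?_ ?_, hv d ?_ ?_, fun k hk h3 h4 => hv k ?_ ?_⟩
    (hv x hxa hxb) ?_
  · rintro rfl; exact hc ha
  · rintro rfl; exact hc hb
  · rintro rfl; exact hd ha
  · rintro rfl; exact hd hb
  · rintro rfl; exact lt_irrefl _ h4
  · rintro rfl; exact lt_asymm h2 h4
  · rw [pcup_apply rfl rfl, if_pos rfl]; exact hab.symm

/-- The second end of a single arc moves down. -/
theorem arc_down2 (hw : ∀ x, WP (w x)) (hn : X.Nodup) (hc : c ∉ X) (hd : d ∉ X) {a b x : α}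
    (ha : a ∈ X) (hb : b ∈ X) (hx : x ∈ X) (h1 : X.idxOf a < X.idxOf x)
    (h2 : X.idxOf x < X.idxOf b) :
    Leads (ringF w c d X) (cup a b Pat.empty) (cup a x Pat.empty) := by
  have hxb : x ≠ b := fun e => by rw [e] at h2; exact lt_irrefl _ h2
  have hxa : x ≠ a := fun e => by rw [e] at h1; exact lt_irrefl _ h1
  have hab : a ≠ b := fun e => by rw [e] at h1; exact lt_asymm h1 h2
  have e : cup a x Pat.empty = swap b x (cup a b Pat.empty) := by
    rw [cup_comm a b, swap_arc hab.symm hxa, cup_comm]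
  rw [e]
  have hv : ∀ z, z ≠ a → z ≠ b → cup a b Pat.empty z = z := fun z h3 h4 => by
    rw [pcup_apply rfl rfl, if_neg h3, if_neg h4]; rfl
  refine mv_down hw ⟨hn, hx, hb, h2, hc, hd, hv c ?_ ?_, hv d ?_ ?_, fun k hk h3 h4 => hv k ?_ ?_⟩
    (hv x hxa hxb) ?_
  · rintro rfl; exact hc ha
  · rintro rfl; exact hc hb
  · rintro rfl; exact hd ha
  · rintro rfl; exact hd hb
  · rintro rfl; exact lt_asymm h1 h3
  · rintro rfl; exact lt_irrefl _ h4
  · rw [pcup_apply rfl rfl, if_neg hab.symm, if_pos rfl]; exact hab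

/-- The first end of a single arc moves up. -/
theorem arc_up1 (hw : ∀ x, WP (w x)) (hn : X.Nodup) (hc : c ∉ X) (hd : d ∉ X) {a b x : α}
    (ha : a ∈ X) (hb : b ∈ X) (hx : x ∈ X) (h1 : X.idxOf a < X.idxOf x)
    (h2 : X.idxOf x < X.idxOf b) :
    Leads (ringF w c d X) (cup a b Pat.empty) (cup x b Pat.empty) := by
  have hxb : x ≠ b := fun e => by rw [e] at h2; exact lt_irrefl _ h2
  have hxa : x ≠ a := fun e => by rw [e] at h1; exact lt_irrefl _ h1
  have hab : a ≠ b := fun e => by rw [e] at h1; exact lt_asymm h1 h2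
  rw [← swap_arc hab hxb]
  have hv : ∀ z, z ≠ a → z ≠ b → cup a b Pat.empty z = z := fun z h3 h4 => by
    rw [pcup_apply rfl rfl, if_neg h3, if_neg h4]; rfl
  refine mv_up hw ⟨hn, ha, hx, h1, hc, hd, hv c ?_ ?_, hv d ?_ ?_, fun k hk h3 h4 => hv k ?_ ?_⟩
    ?_ (hv x hxa hxb)
  · rintro rfl; exact hc ha
  · rintro rfl; exact hc hb
  · rintro rfl; exact hd ha
  · rintro rfl; exact hd hb
  · rintro rfl; exact lt_irrefl _ h3
  · rintro rfl; exact lt_asymm h2 h4
  · rw [pcup_apply rfl rfl, if_pos rfl]; exact hab.symm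

/-- The second end of a single arc moves up. -/
theorem arc_up2 (hw : ∀ x, WP (w x)) (hn : X.Nodup) (hc : c ∉ X) (hd : d ∉ X) {a b x : α}
    (ha : a ∈ X) (hb : b ∈ X) (hx : x ∈ X) (h1 : X.idxOf a < X.idxOf b)
    (h2 : X.idxOf b < X.idxOf x) :
    Leads (ringF w c d X) (cup a b Pat.empty) (cup a x Pat.empty) := by
  have hab : a ≠ b := fun e => by rw [e] at h1; exact lt_irrefl _ h1
  have hxb : x ≠ b := fun e => by rw [e] at h2; exact lt_irrefl _ h2
  have hxa : x ≠ a := fun e => by rw [e] at h2; exact lt_asymm h1 h2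
  have e : cup a x Pat.empty = swap b x (cup a b Pat.empty) := by
    rw [cup_comm a b, swap_arc hab.symm hxa, cup_comm]
  rw [e]
  have hv : ∀ z, z ≠ a → z ≠ b → cup a b Pat.empty z = z := fun z h3 h4 => by
    rw [pcup_apply rfl rfl, if_neg h3, if_neg h4]; rfl
  refine mv_up hw ⟨hn, hb, hx, h2, hc, hd, hv c ?_ ?_, hv d ?_ ?_, fun k hk h3 h4 => hv k ?_ ?_⟩
    ?_ (hv x hxa hxb)
  · rintro rfl; exact hc ha
  · rintro rfl; exact hc hb
  · rintro rfl; exact hd ha
  · rintro rfl; exact hd hb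
  · rintro rfl; exact lt_asymm h1 h3
  · rintro rfl; exact lt_irrefl _ h3
  · rw [pcup_apply rfl rfl, if_neg hab.symm, if_pos rfl]; exact hab

variable {x1 x2 : α} {X' : List α}

/-- From a single arc to the arc of the first two rows. -/
theorem arc_to_first (hw : ∀ x, WP (w x)) (hn : (x1 :: x2 :: X').Nodup) (hc : c ∉ x1 :: x2 :: X')
    (hd : d ∉ x1 :: x2 :: X') {a b : α} (ha : a ∈ x1 :: x2 :: X') (hb : b ∈ x1 :: x2 :: X')
    (h : (x1 :: x2 :: X').idxOf a < (x1 :: x2 :: X').idxOf b) :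
    ∃ m : ℕ, Leads ((ringF w c d (x1 :: x2 :: X'))^[m]) (cup a b Pat.empty)
      (cup x1 x2 Pat.empty) := by
  have i1 : (x1 :: x2 :: X').idxOf x1 = 0 := idx_cons_self _ _
  have n21 : x2 ≠ x1 := by
    rintro rfl
    exact (List.nodup_cons.1 hn).1 (by simp)
  have i2 : (x1 :: x2 :: X').idxOf x2 = 1 := by rw [idx_cons_ne n21, idx_cons_self]
  have hP : Pos (ringF w c d (x1 :: x2 :: X')) := pos_ringF hw
  have s1 : ∃ m : ℕ, Leads ((ringF w c d (x1 :: x2 :: X'))^[m]) (cup a b Pat.empty)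
      (cup x1 b Pat.empty) := by
    by_cases e : a = x1
    · exact ⟨0, by rw [e]; exact Leads.id _⟩
    · refine ⟨1, arc_down1 hw hn hc hd ha hb (by simp) ?_ h⟩
      rw [i1]
      by_contra h'
      have : (x1 :: x2 :: X').idxOf a = (x1 :: x2 :: X').idxOf x1 := by rw [i1]; omega
      exact e ((List.idxOf_inj ha).1 this)
  have s2 : ∃ m : ℕ, Leads ((ringF w c d (x1 :: x2 :: X'))^[m]) (cup x1 b Pat.empty)
      (cup x1 x2 Pat.empty) := by
    by_cases e : b = x2
    · exact ⟨0, by rw [e]; exact Leads.id _⟩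
    · refine ⟨1, arc_down2 hw hn hc hd (by simp) hb (by simp) (by rw [i1, i2]; omega) ?_⟩
      rw [i2]
      by_contra h'
      have : (x1 :: x2 :: X').idxOf b = (x1 :: x2 :: X').idxOf x2 := by rw [i2]; omega
      exact e ((List.idxOf_inj hb).1 this)
  obtain ⟨m1, h1⟩ := s1
  obtain ⟨m2, h2⟩ := s2
  exact ⟨m1 + m2, Leads.iterate_add hP h1 h2⟩

/-- From the arc of the first two rows to a single arc. -/
theorem first_to_arc (hw : ∀ x, WP (w x)) (hn : (x1 :: x2 :: X').Nodup) (hc : c ∉ x1 :: x2 :: X')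
    (hd : d ∉ x1 :: x2 :: X') {a b : α} (ha : a ∈ x1 :: x2 :: X') (hb : b ∈ x1 :: x2 :: X')
    (h : (x1 :: x2 :: X').idxOf a < (x1 :: x2 :: X').idxOf b) :
    ∃ m : ℕ, Leads ((ringF w c d (x1 :: x2 :: X'))^[m]) (cup x1 x2 Pat.empty)
      (cup a b Pat.empty) := by
  have i1 : (x1 :: x2 :: X').idxOf x1 = 0 := idx_cons_self _ _
  have n21 : x2 ≠ x1 := by
    rintro rfl
    exact (List.nodup_cons.1 hn).1 (by simp)
  have i2 : (x1 :: x2 :: X').idxOf x2 = 1 := by rw [idx_cons_ne n21, idx_cons_self]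
  have hP : Pos (ringF w c d (x1 :: x2 :: X')) := pos_ringF hw
  have s1 : ∃ m : ℕ, Leads ((ringF w c d (x1 :: x2 :: X'))^[m]) (cup x1 x2 Pat.empty)
      (cup x1 b Pat.empty) := by
    by_cases e : b = x2
    · exact ⟨0, by rw [e]; exact Leads.id _⟩
    · refine ⟨1, arc_up2 hw hn hc hd (by simp) (by simp) hb (by rw [i1, i2]; omega) ?_⟩
      rw [i2]
      by_contra h'
      have : (x1 :: x2 :: X').idxOf b = (x1 :: x2 :: X').idxOf x2 := by rw [i2]; omega
      exact e ((List.idxOf_inj hb).1 this)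
  have s2 : ∃ m : ℕ, Leads ((ringF w c d (x1 :: x2 :: X'))^[m]) (cup x1 b Pat.empty)
      (cup a b Pat.empty) := by
    by_cases e : a = x1
    · exact ⟨0, by rw [e]; exact Leads.id _⟩
    · refine ⟨1, arc_up1 hw hn hc hd (by simp) hb ha ?_ h⟩
      rw [i1]
      by_contra h'
      have : (x1 :: x2 :: X').idxOf a = (x1 :: x2 :: X').idxOf x1 := by rw [i1]; omega
      exact e ((List.idxOf_inj ha).1 this)
  obtain ⟨m1, h1⟩ := s1
  obtain ⟨m2, h2⟩ := s2
  exact ⟨m1 + m2, Leads.iterate_add hP h1 h2⟩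

/-- **Every nonempty state leads to the arc of the first two rows.** -/
theorem leads_to_first (hw : ∀ x, WP (w x)) (hn : (x1 :: x2 :: X').Nodup)
    (hc : c ∉ x1 :: x2 :: X') (hd : d ∉ x1 :: x2 :: X') (hs : ∀ x, x ∉ x1 :: x2 :: X' → p x = x)
    (hne : p ≠ Pat.empty) :
    ∃ m : ℕ, Leads ((ringF w c d (x1 :: x2 :: X'))^[m]) p (cup x1 x2 Pat.empty) := by
  obtain ⟨m1, a, b, h1, h2, h3, h4⟩ := leads_arc hw hn hc hd _ p le_rfl hs hne
  obtain ⟨m2, h5⟩ := arc_to_first hw hn hc hd h1 h2 h3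
  exact ⟨m1 + m2, Leads.iterate_add (pos_ringF hw) h4 h5⟩

/-- **The arc of the first two rows leads to every nonempty planar state.** -/
theorem leads_from_first (hw : ∀ x, WP (w x)) (hn : (x1 :: x2 :: X').Nodup)
    (hc : c ∉ x1 :: x2 :: X') (hd : d ∉ x1 :: x2 :: X') : ∀ (n : ℕ) (q : Pat α),
    (occL (x1 :: x2 :: X') q).card ≤ n → AX (x1 :: x2 :: X') q → q ≠ Pat.empty →
    ∃ m : ℕ, Leads ((ringF w c d (x1 :: x2 :: X'))^[m]) (cup x1 x2 Pat.empty) q := by
  intro n
  induction n with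
  | zero =>
    intro q hq hA hne
    exfalso
    rw [HS.Pat.ne_empty_iff] at hne
    obtain ⟨x, hx⟩ := hne
    have hm : x ∈ occL (x1 :: x2 :: X') q := mem_occL.2 ⟨hA.occ hx, hx⟩
    rw [Finset.card_eq_zero.1 (Nat.le_zero.1 hq)] at hm
    exact absurd hm (Finset.notMem_empty _)
  | succ n ih =>
    intro q hq hA hne
    obtain ⟨x, y, hxy, hlt, hbet⟩ := exists_innermost (ax_injOn _) hA (HS.Pat.ne_empty_iff.1 hne)
    simp only [Nat.cast_lt] at hlt
    have hne' : x ≠ y := fun e => by rw [e] at hlt; exact lt_irrefl _ hlt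
    have hyx : q y = x := by rw [← hxy, q.inv]
    have hx : x ∈ x1 :: x2 :: X' := hA.occ (by rw [hxy]; exact hne'.symm)
    have hy : y ∈ x1 :: x2 :: X' := hA.occ (by rw [hyx]; exact hne')
    set q' := rem x y q hxy with hq'
    have qx : q' x = x := by rw [hq', rem_apply, if_pos rfl]
    have qy : q' y = y := by rw [hq', rem_apply, if_neg hne'.symm, if_pos rfl]
    have qo : ∀ z, q z = z → q' z = z := by
      intro z hz
      rw [hq', rem_apply]
      split_ifs with h2 h3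
      · exact h2.symm
      · exact h3.symm
      · exact hz
    have hcup : cup x y q' = q := cup_rem hxy hne'
    by_cases he : q' = Pat.empty
    · rw [he] at hcup
      rw [← hcup]
      exact first_to_arc hw hn hc hd hx hy hlt
    have hqA : AX (x1 :: x2 :: X') q' := pd_rem hA hxy
    have hcard : (occL (x1 :: x2 :: X') q').card ≤ n := by
      have : (occL (x1 :: x2 :: X') q').card < (occL (x1 :: x2 :: X') q).card := by
        apply Finset.card_lt_card
        rw [Finset.ssubset_iff_of_subset]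
        · exact ⟨x, mem_occL.2 ⟨hx, by rw [hxy]; exact hne'.symm⟩, fun h => (mem_occL.1 h).2 qx⟩
        · intro s hs
          rw [mem_occL] at hs ⊢
          exact ⟨hs.1, fun e => hs.2 (qo s e)⟩
      omega
    obtain ⟨m, hm⟩ := ih q' hcard hqA he
    have key : Leads (ringF w c d (x1 :: x2 :: X')) q' q := by
      have := mv_create hw (c := c) (d := d) (p := q') ⟨hn, hx, hy, hlt, hc, hd, ax_out hqA hc,
        ax_out hqA hd, fun k _ h1 h2 => qo k (hbet k (by exact_mod_cast h1) (by exact_mod_cast h2))⟩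
        qx qy
      rw [hcup] at this
      exact this
    have h1 : Leads ((ringF w c d (x1 :: x2 :: X'))^[1]) q' q := key
    exact ⟨m + 1, Leads.iterate_add (pos_ringF hw) hm h1⟩

omit [DecidableEq α] in
/-- A nonempty planar state needs at least two rows. -/
theorem two_rows (hs : ∀ x, x ∉ X → p x = x) (hne : p ≠ Pat.empty) :
    ∃ x1 x2 X', X = x1 :: x2 :: X' := by
  rw [HS.Pat.ne_empty_iff] at hne
  obtain ⟨x, hx⟩ := hne
  have hx' : p (p x) ≠ p x := by rw [p.inv]; exact hx.symm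
  have h1 : x ∈ X := by_contra fun h => hx (hs x h)
  have h2 : p x ∈ X := by_contra fun h => hx' (hs _ h)
  match X, h1, h2 with
  | [], h1, _ => exact absurd h1 (List.not_mem_nil)
  | [y], h1, h2 =>
    rw [List.mem_singleton] at h1 h2
    exact absurd (h2.trans h1.symm) hx
  | x1 :: x2 :: X', _, _ => exact ⟨x1, x2, X', rfl⟩

/-- **Irreducibility of the ring.** -/
theorem ring_irred (hw : ∀ x, WP (w x)) (hn : X.Nodup) (hc : c ∉ X) (hd : d ∉ X)
    (hp : AX X p) (hpe : p ≠ Pat.empty) (hq : AX X q) (hqe : q ≠ Pat.empty) :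
    ∃ m : ℕ, Leads ((ringF w c d X)^[m]) p q := by
  obtain ⟨x1, x2, X', rfl⟩ := two_rows (fun x hx => ax_out hp hx) hpe
  obtain ⟨m1, h1⟩ := leads_to_first hw hn hc hd (fun x hx => ax_out hp hx) hpe
  obtain ⟨m2, h2⟩ := leads_from_first hw hn hc hd _ q le_rfl hq hqe
  exact ⟨m1 + m2, Leads.iterate_add (pos_ringF hw) h1 h2⟩

omit [DecidableEq α] in
/-- A positive transition weight in terms of the indicator. -/
theorem Leads.ind_pos {T : (Pat α → ℝ) → (Pat α → ℝ)} (h : Leads T p q) : 0 < T (HS.ind q) p := by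
  obtain ⟨w', hw', h1⟩ := h
  have h2 := h1 (HS.ind q) (fun s => by
    by_cases hs : s = q
    · rw [hs, HS.ind_self]; exact zero_le_one
    · rw [HS.ind_ne hs])
  rw [HS.ind_self, mul_one] at h2
  exact lt_of_lt_of_le hw' h2

/-! ### The hexagonal ring -/

theorem hexW_WP {x : ℝ} (hx : 0 < x) : WP (hexW x) := by
  refine ⟨?_, ?_, ?_, ?_, ?_⟩ <;> simp only [hexW] <;> positivity

/-- **Irreducibility of the hexagonal ring.** -/
theorem ringH_irred (hn : X.Nodup) (hc : c ∉ X) (hd : d ∉ X)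
    (hp : AX X p) (hpe : p ≠ Pat.empty) (hq : AX X q) (hqe : q ≠ Pat.empty) :
    ∃ m : ℕ, Leads ((ringH c d X)^[m]) p q :=
  ring_irred (fun _ => hexW_WP xc_pos) hn hc hd hp hpe hq hqe

/-- **Irreducibility of the hexagonal ring, with indicators.** -/
theorem ringH_irred_ind (hn : X.Nodup) (hc : c ∉ X) (hd : d ∉ X)
    (hp : AX X p) (hpe : p ≠ Pat.empty) (hq : AX X q) (hqe : q ≠ Pat.empty) :
    ∃ m : ℕ, 0 < (ringH c d X)^[m] (HS.ind q) p := by
  obtain ⟨m, h⟩ := ringH_irred (c := c) (d := d) hn hc hd hp hpe hq hqe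
  exact ⟨m, Leads.ind_pos h⟩

/-- The arc of two rows is a planar state. -/
theorem ax_arc {a b : α} (hb : b ∈ X) (ha : a ∈ X) : AX X (cup a b Pat.empty) := by
  have h0 : AX X (Pat.empty : Pat α) := ax_empty X
  refine h0.cup (ax_injOn _) ha hb ?_
  intro k hk
  exact absurd rfl hk

theorem arc_ne_empty {a b : α} (hab : a ≠ b) : cup a b (Pat.empty : Pat α) ≠ Pat.empty := by
  rw [HS.Pat.ne_empty_iff]
  exact ⟨a, by rw [pcup_apply rfl rfl, if_pos rfl]; exact hab.symm⟩

end reach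

end Pool.Agent.NUG
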