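import Pool.Agent.NUG.ZVlim

/-!
# The strip partition function dominates the finite labelled strips
-/

set_option autoImplicit false

namespace Pool.Agent.NUG

open _root_.Pool.Agent.NUF _root_.Pool.Agent.NUF.LPat

section pos

variable {Γ ι : Type*} [AddCommGroup Γ] [DecidableEq ι] {ν : Γ → ℂ}

/-- The number is real and nonnegative. -/
def RN (z : ℂ) : Prop := ∃ r : ℝ, 0 ≤ r ∧ z = r

theorem RN.add {a b : ℂ} (ha : RN a) (hb : RN b) : RN (a + b) := by
  obtain ⟨r, h1, rfl⟩ := ha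
  obtain ⟨s, h2, rfl⟩ := hb
  exact ⟨r + s, add_nonneg h1 h2, by push_cast; rfl⟩

theorem RN.mul {a b : ℂ} (ha : RN a) (hb : RN b) : RN (a * b) := by
  obtain ⟨r, h1, rfl⟩ := ha
  obtain ⟨s, h2, rfl⟩ := hb
  exact ⟨r * s, mul_nonneg h1 h2, by push_cast; rfl⟩

theorem RN.zero : RN 0 := ⟨0, le_rfl, by simp⟩

theorem RN.one : RN 1 := ⟨1, zero_le_one, by simp⟩

/-- Nonnegative weights. -/
structure WRN (w : EXL.Wt ℂ) : Prop where
  v : RN w.v
  u1 : RN w.u1
  u2 : RN w.u2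
  w1 : RN w.w1
  w2 : RN w.w2

theorem wrn_hex : WRN (EXL.hexW (HexObs.xc : ℂ)) := by
  have h1 : RN (HexObs.xc : ℂ) := ⟨HexObs.xc, HexObs.xc_pos.le, rfl⟩
  have h2 : RN ((HexObs.xc : ℂ) ^ 2) := by rw [sq]; exact h1.mul h1
  exact ⟨h2, h1, h2, h2, RN.zero⟩

theorem NNC.lR {F : LPat Γ ι → ℂ} (hF : NNC F) (hν : ∀ g, RN (ν g)) {w : EXL.Wt ℂ} (hw : WRN w)
    (i j : ι) : NNC (lR ν w i j F) := by
  intro P
  have hF' : ∀ Q, RN (F Q) := hF
  have hl : RN (lw ν i j P) := by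
    by_cases h : P i = j
    · rw [lw_pos _ _ h]
      exact hν _
    · rw [lw_neg _ _ h]
      exact RN.one
  unfold NUG.lR
  split_ifs
  · exact (hF' _).add (hw.u2.mul (hF' _))
  · exact (hw.v.mul (hF' _)).add (hw.u1.mul (hF' _))
  · exact (hw.v.mul (hF' _)).add (hw.u1.mul (hF' _))
  · exact (hw.w1.mul (hF' _)).add (hl.mul ((hw.u2.mul (hF' _)).add (hw.w2.mul (hF' _))))

theorem NNC.lM {F : LPat Γ ι → ℂ} (hF : NNC F) (hν : ∀ g, RN (ν g)) {w : EXL.Wt ℂ} (hw : WRN w)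
    (c : ι) (X : List ι) : NNC (lM ν w c X F) := by
  induction X with
  | nil => exact hF
  | cons r X ih => exact ih.lR hν hw c r

theorem NNC.lEmp {F : LPat Γ ι → ℂ} (hF : NNC F) (c : ι) : NNC (lEmp c F) := by
  intro P
  unfold NUG.lEmp
  split_ifs
  · exact hF P
  · exact RN.zero

theorem nnc_lCol {F : LPat Γ ι → ℂ} (hF : NNC F) (hν : ∀ g, RN (ν g)) {w : EXL.Wt ℂ} (hw : WRN w)
    (c : ι) (X : List ι) : NNC (lCol ν w c X F) := ((hF.lEmp c).lM hν hw c X).lEmp c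

theorem nnc_lCol_iter {F : LPat Γ ι → ℂ} (hF : NNC F) (hν : ∀ g, RN (ν g)) {w : EXL.Wt ℂ}
    (hw : WRN w) (c : ι) (X : List ι) (n : ℕ) : NNC ((lCol ν w c X)^[n] F) := by
  induction n with
  | zero => exact hF
  | succ n ih =>
    rw [Function.iterate_succ_apply']
    exact nnc_lCol ih hν hw c X

omit [DecidableEq ι] in
/-- A positive functional dominates the value at the empty state. -/
theorem PosC.ge_empty {V : Fnl ι} (hV : PosC V) (h1 : V (EXL.HS.ind EXL.Pat.empty) = 1)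
    {F : EXL.Pat ι → ℝ} (hF : ∀ p, 0 ≤ F p) :
    ∃ r : ℝ, 0 ≤ r ∧ V (fun p => (F p : ℂ)) = (F EXL.Pat.empty : ℂ) + r := by
  classical
  obtain ⟨r, hr, e⟩ := hV (fun p => F p - F EXL.Pat.empty * EXL.HS.ind EXL.Pat.empty p) (by
    intro p
    by_cases h : p = EXL.Pat.empty
    · rw [h, EXL.HS.ind_self, mul_one, sub_self]
    · rw [EXL.HS.ind_ne h, mul_zero, sub_zero]
      exact hF p)
  refine ⟨r, hr, ?_⟩
  have e2 : (fun p => (F p : ℂ)) = (fun p => ((F p - F EXL.Pat.empty * EXL.HS.ind EXL.Pat.empty p : ℝ) : ℂ)) +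
      (F EXL.Pat.empty : ℂ) • (EXL.HS.ind EXL.Pat.empty : EXL.Pat ι → ℂ) := by
    funext p
    rw [Pi.add_apply, Pi.smul_apply, smul_eq_mul]
    by_cases h : p = EXL.Pat.empty
    · rw [h, EXL.HS.ind_self, EXL.HS.ind_self]
      push_cast
      ring
    · rw [EXL.HS.ind_ne h, EXL.HS.ind_ne h]
      push_cast
      ring
  rw [e2, map_add, e, map_smul, h1]
  simp only [smul_eq_mul, mul_one]
  ring

theorem un_empty_empty : ofP Γ (un (EXL.Pat.empty : EXL.Pat ι) EXL.Pat.empty) = LPat.empty := by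
  rw [un_empty]
  rfl

/-- The pairing dominates the value at the empty state. -/
theorem pr_ge_empty {V V' : Fnl ι} (h3 : PosC V) (h4 : PosC V')
    (h1 : V (EXL.HS.ind EXL.Pat.empty) = 1) (h1' : V' (EXL.HS.ind EXL.Pat.empty) = 1)
    {F : LPat Γ ι → ℂ} (hF : NNC F) : ∃ r : ℝ, 0 ≤ r ∧ pr Γ V V' F = F LPat.empty + r := by
  choose f hf0 hf using hF
  have e1 : ∀ p, ∃ r : ℝ, 0 ≤ r ∧ V' (fun q => F (ofP Γ (un p q))) = ((f (ofP Γ (un p EXL.Pat.empty)) + r : ℝ) : ℂ) := by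
    intro p
    obtain ⟨r, hr, e⟩ := h4.ge_empty h1' (F := fun q => f (ofP Γ (un p q))) fun q => hf0 _
    refine ⟨r, hr, ?_⟩
    have : (fun q => F (ofP Γ (un p q))) = fun q => ((f (ofP Γ (un p q)) : ℝ) : ℂ) :=
      funext fun q => hf _
    rw [this, e]
    push_cast
    rfl
  choose g hg0 hg using e1
  obtain ⟨r, hr, e⟩ := h3.ge_empty h1 (F := fun p => f (ofP Γ (un p EXL.Pat.empty)) + g p)
    fun p => add_nonneg (hf0 _) (hg0 _)
  refine ⟨g EXL.Pat.empty + r, add_nonneg (hg0 _) hr, ?_⟩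
  rw [pr_apply, show (fun p => V' fun q => F (ofP Γ (un p q))) =
    fun p => ((f (ofP Γ (un p EXL.Pat.empty)) + g p : ℝ) : ℂ) from funext hg, e, ← un_empty_empty (Γ := Γ) (ι := ι),
    hf]
  push_cast
  ring

end pos

section main

variable {ι : Type*} [DecidableEq ι] {L L1 L2 : List (ι × ι)} {c d e : ι} {n' : ℝ}

/-- The twist on the right halves of the lines of `L`. -/
def chiR (L : List (ι × ι)) : ι → ZMod 2 := fun x => if x ∈ L.map Prod.fst then 1 else 0

/-- The twist can be put on the right halves. -/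
theorem tw_chiR (hG : Gd (L1 ++ L2)) (ν : ZMod 2 → ℂ) :
    Tw (chi L1) (gm ν (L1 ++ L2)) = Tw (chiR L1) (gm ν (L1 ++ L2)) := by
  have h2 : ∀ a : ZMod 2, a + a = 0 := by decide
  have hd := hG.disj
  have e1 : Tw (chi L1 + chiR L1) (gm ν (L1 ++ L2)) = gm ν (L1 ++ L2) := by
    apply tw_gm
    intro t ht
    have c1 : t.1 ∉ L1.map Prod.snd := by
      intro h
      have k1 : t.1 ∈ Sr (L1 ++ L2) := by
        show t.1 ∈ (L1 ++ L2).map Prod.fst
        exact List.mem_map_of_mem ht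
      have k2 : t.1 ∈ Sl (L1 ++ L2) := by
        show t.1 ∈ (L1 ++ L2).map Prod.snd
        rw [List.map_append]
        exact List.mem_append_left _ h
      exact Set.disjoint_left.1 hd k1 k2
    have c2 : t.2 ∉ L1.map Prod.fst := by
      intro h
      have k1 : t.2 ∈ Sl (L1 ++ L2) := by
        show t.2 ∈ (L1 ++ L2).map Prod.snd
        exact List.mem_map_of_mem ht
      have k2 : t.2 ∈ Sr (L1 ++ L2) := by
        show t.2 ∈ (L1 ++ L2).map Prod.fst
        rw [List.map_append]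
        exact List.mem_append_left _ h
      exact Set.disjoint_left.1 hd k2 k1
    rw [Pi.add_apply, Pi.add_apply, chi_notMem c1, zero_add]
    unfold chiR
    rw [if_neg c2, add_zero]
    rcases List.mem_append.1 ht with h | h
    · rw [if_pos (List.mem_map_of_mem h), chi_mem (List.mem_map_of_mem h)]
    · have f1 := hG.fst
      have f2 := hG.snd
      rw [List.map_append] at f1 f2
      have g1 : t.1 ∉ L1.map Prod.fst := fun h' =>
        (List.nodup_append.1 f1).2.2 _ h' _ (List.mem_map_of_mem h) rfl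
      have g2 : t.2 ∉ L1.map Prod.snd := fun h' =>
        (List.nodup_append.1 f2).2.2 _ h' _ (List.mem_map_of_mem h) rfl
      rw [if_neg g1, chi_notMem g2]
  have e2 : chi L1 = chiR L1 + (chi L1 + chiR L1) := by
    funext x
    rw [Pi.add_apply, Pi.add_apply]
    have := h2 (chiR L1 x)
    linear_combination -this
  have e3 : ∀ F : LPat (ZMod 2) ι → ℂ, Tw (chi L1) F = Tw (chiR L1) (Tw (chi L1 + chiR L1) F) := by
    intro F
    have := lG_mul (K := ℂ) (chiR L1) (chi L1 + chiR L1)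
    rw [← e2] at this
    exact (congrArg (fun x : Module.End ℂ (LPat (ZMod 2) ι → ℂ) => x F) this).symm
  rw [e3, e1]

/-- **The strip partition function dominates the finite labelled strips.** -/
theorem ZV_ge_strip [Finite ι] (hG : Gd (L1 ++ L2)) (hs : Spare c d e (L1 ++ L2)) (hn' : 0 ≤ n')
    (n m : ℕ) : ∃ r : ℝ, 0 ≤ r ∧ ZV n' z0 L1 L2 =
      (lCol (nu2 (n' : ℂ)) (EXL.hexW (HexObs.xc : ℂ)) e ((L1 ++ L2).map Prod.fst))^[n]
        (Tw (chiR L1) ((lCol (nu2 (n' : ℂ)) (EXL.hexW (HexObs.xc : ℂ)) e ((L1 ++ L2).map Prod.fst))^[m]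
          (dl (ZMod 2) ι))) LPat.empty + r := by
  classical
  cases nonempty_fintype ι
  set ν := nu2 (n' : ℂ) with hν
  set W := EXL.hexW (HexObs.xc : ℂ) with hW
  set X := (L1 ++ L2).map Prod.fst with hX
  set Y := ((L1 ++ L2).map Prod.snd).reverse with hY
  have hnr := List.nodup_reverse.2 hG.snd
  have hc2 := nr hs.c2
  have hd2 := nr hs.d2
  have he2 := nr hs.e2
  have hνs : ∀ g, ν (-g) = ν g := nu2_neg _
  have hν0 : ν 0 = 0 := nu2_zero _
  have hνr : ∀ g, RN (ν g) := nnc_nu2 hn'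
  -- the two vectors
  have I1 : IsC e X (VV (z0 (ι := ι)) X) := isC_fst hG.fst hs.e1
  have I2 : IsC d Y (VV (z0 (ι := ι)) Y) := isC_fst hnr hd2
  have p1 : PosC (VV (z0 (ι := ι)) X) := fun F hF => VV_hex_nonneg hG.fst hs.e1 (fun _ _ => rfl) hF
  have p2 : PosC (VV (z0 (ι := ι)) Y) := fun F hF => VV_hex_nonneg hnr hd2 (fun _ _ => rfl) hF
  have eZ : ZV n' z0 L1 L2 = pr (ZMod 2) (VV z0 X) (VV z0 Y) (Tw (chiR L1) (gm ν (L1 ++ L2))) := by
    unfold ZV Zp
    rw [VV_snd hG.snd hs.cd hs.c2 hs.d2, tw_chiR hG]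
  -- supports
  have s1 : SupS (Sr (L1 ++ L2)) (VV z0 X) := I1.supS fun x hx => hx
  have s2 : SupS (Sl (L1 ++ L2)) (VV z0 Y) := I2.supS fun x hx => List.mem_reverse.1 hx
  have hdj := hG.disj
  set w1 : Wd ℂ ι := wcol W e X with hw1
  set w2 : Wd ℂ ι := wcol W d Y with hw2
  have o1 : On (Sl (L1 ++ L2))ᶜ w1 := by
    refine (on_wcol W e X).mono fun x hx => ?_
    rw [Set.mem_insert_iff] at hx
    rcases hx with rfl | hx
    · exact hs.e2
    · exact Set.disjoint_left.1 hdj hx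
  have o2 : On (Sr (L1 ++ L2))ᶜ w2 := by
    refine (on_wcol W d Y).mono fun x hx => ?_
    rw [Set.mem_insert_iff] at hx
    rcases hx with rfl | hx
    · exact hs.d1
    · exact fun h => Set.disjoint_left.1 hdj h (List.mem_reverse.1 hx)
  have f1 : VV z0 X ∘ₗ rep0 ℂ id w1 = VV z0 X := by
    refine LinearMap.ext fun F => ?_
    rw [LinearMap.comp_apply, hw1, rep0_wcol W hs.e1, I1.fix]
  have f2 : VV z0 Y ∘ₗ rep0 ℂ id w2 = VV z0 Y := by
    refine LinearMap.ext fun F => ?_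
    rw [LinearMap.comp_apply, hw2, rep0_wcol W hd2, I2.fix]
  have g1 : ∀ F, pr (ZMod 2) (VV z0 X) (VV z0 Y) (repL ν id w1 F) = pr (ZMod 2) (VV z0 X) (VV z0 Y) F := by
    intro F
    rw [← pr_left hν0 s1 s2 hdj o1, f1]
  have g2 : ∀ F, pr (ZMod 2) (VV z0 X) (VV z0 Y) (repL ν id w2 F) = pr (ZMod 2) (VV z0 X) (VV z0 Y) F := by
    intro F
    rw [← pr_right hν0 s1 s2 hdj o2, f2]
  have g1' : ∀ F, pr (ZMod 2) (VV z0 X) (VV z0 Y) ((lCol ν W e X)^[n] F) =
      pr (ZMod 2) (VV z0 X) (VV z0 Y) F := by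
    intro F
    induction n with
    | zero => rfl
    | succ n ih => rw [Function.iterate_succ_apply', ← repL_wcol W hs.e1, g1, ih]
  have g2' : ∀ F, pr (ZMod 2) (VV z0 X) (VV z0 Y) ((lCol ν W d Y)^[m] F) =
      pr (ZMod 2) (VV z0 X) (VV z0 Y) F := by
    intro F
    induction m with
    | zero => rfl
    | succ m ih => rw [Function.iterate_succ_apply', ← repL_wcol W hd2, g2, ih]
  -- the twist commutes with the left columns
  have ct : Function.Commute (lCol ν W d Y) (fun F => Tw (chiR L1) F) := by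
    intro F
    have h := tw_comm (ν := ν) (χ := chiR L1) (T := insert d {x | x ∈ Y}) (on_wcol W d Y) 0 (by
      intro x hx
      unfold chiR
      rw [if_neg]
      intro h'
      rw [Set.mem_insert_iff] at hx
      have k1 : x ∈ Sr (L1 ++ L2) := by
        show x ∈ (L1 ++ L2).map Prod.fst
        rw [List.map_append]
        exact List.mem_append_left _ h'
      rcases hx with rfl | hx
      · exact hs.d1 k1
      · exact Set.disjoint_left.1 hdj k1 (List.mem_reverse.1 hx))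
    show lCol ν W d Y (Tw (chiR L1) F) = Tw (chiR L1) (lCol ν W d Y F)
    rw [← repL_wcol W hd2, ← repL_wcol W hd2]
    exact (congrArg (fun x : Module.End ℂ (LPat (ZMod 2) ι → ℂ) => x F) h.eq).symm
  have e1 : pr (ZMod 2) (VV z0 X) (VV z0 Y) (Tw (chiR L1) (gm ν (L1 ++ L2))) =
      pr (ZMod 2) (VV z0 X) (VV z0 Y) ((lCol ν W e X)^[n]
        (Tw (chiR L1) ((lCol ν W e X)^[m] (gm ν (L1 ++ L2))))) := by
    rw [g1', ← col_gm_iter hνs hν0 (e := e) (e' := d) (L := L1 ++ L2) ?_ m]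
    · rw [← g2']
      congr 1
      exact (ct.iterate_left m) _
    · rw [Gd_cons]
      refine ⟨Ne.symm hs.de, fun t ht => ⟨?_, ?_, ?_, ?_⟩, hG⟩
      · exact fun h => hs.e1 (by rw [show e = t.1 from h]; exact List.mem_map_of_mem ht)
      · exact fun h => hs.e2 (by rw [show e = t.2 from h]; exact List.mem_map_of_mem ht)
      · exact fun h => hs.d1 (by rw [show d = t.1 from h]; exact List.mem_map_of_mem ht)
      · exact fun h => hs.d2 (by rw [show d = t.2 from h]; exact List.mem_map_of_mem ht)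
  have hN : NNC ((lCol ν W e X)^[n] (Tw (chiR L1) ((lCol ν W e X)^[m] (gm ν (L1 ++ L2))))) :=
    nnc_lCol_iter ((nnc_lCol_iter (nnc_gm hνr hG) hνr wrn_hex e X m).tw _) hνr wrn_hex e X n
  obtain ⟨r, hr, e2⟩ := pr_ge_empty (Γ := ZMod 2) p1 p2 I1.one I2.one hN
  refine ⟨r, hr, ?_⟩
  rw [eZ, e1, e2]
  congr 1
  -- the kernel at the states on the right halves
  have A0 : Ag (insert e {x | x ∈ X}) (gm ν (L1 ++ L2)) (dl (ZMod 2) ι) := by
    intro P hP
    apply gm_right hG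
    intro t ht
    apply hP
    rw [Set.mem_insert_iff]
    rintro (h | h)
    · exact hs.e2 (by rw [← h]; exact List.mem_map_of_mem ht)
    · refine Set.disjoint_left.1 hdj (show t.2 ∈ Sr (L1 ++ L2) from h) ?_
      show t.2 ∈ (L1 ++ L2).map Prod.snd
      exact List.mem_map_of_mem ht
  have A1 : ∀ (k : ℕ) {F G : LPat (ZMod 2) ι → ℂ}, Ag (insert e {x | x ∈ X}) F G →
      Ag (insert e {x | x ∈ X}) ((lCol ν W e X)^[k] F) ((lCol ν W e X)^[k] G) := by
    intro k F G h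
    induction k with
    | zero => exact h
    | succ k ih =>
      rw [Function.iterate_succ_apply', Function.iterate_succ_apply', ← repL_wcol W hs.e1,
        ← repL_wcol W hs.e1]
      exact Ag.rep (on_wcol W e X) ih
  have A2 : Ag (insert e {x | x ∈ X}) (Tw (chiR L1) ((lCol ν W e X)^[m] (gm ν (L1 ++ L2))))
      (Tw (chiR L1) ((lCol ν W e X)^[m] (dl (ZMod 2) ι))) := fun P hP => A1 m A0 _ hP
  exact A1 n A2 LPat.empty fun _ _ => rfl

end main

end Pool.Agent.NUG
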