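import Pool.Agent.NUG.Reach
import Pool.Agent.NUF.Cyl.Bound

/-!
# The majorant of the hexagonal ring (helper93)

A nonnegative function supported on the nonempty planar states that increases under the hexagonal ring vanishes:
the arcs of the ring are bounded (contour identity in the half plane), the ring is irreducible.
-/

set_option autoImplicit false

namespace Pool.Agent.NUG

open _root_.Pool.Agent.EXL _root_.Pool.Agent.EXL.Pat _root_.Pool.Agent.EXL.HS HexObs Filter Topology
open _root_.Pool.Agent.NUF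

variable {α : Type*} [DecidableEq α]

/-! ### positive operators -/

section pos

variable {A : Pat α → Prop} {T : (Pat α → ℝ) → (Pat α → ℝ)}

omit [DecidableEq α] in
theorem mono_on (hP : PosOp T) (hL : Lin T) (PA : Pres A A T) {F G : Pat α → ℝ} (h : ∀ p, A p → F p ≤ G p)
    {p : Pat α} (hp : A p) : T F p ≤ T G p := by
  classical
  have h1 : T F p = T (fun q => if A q then F q else G q) p :=
    PA _ _ (fun q hq => by rw [if_pos hq]) p hp
  rw [h1]
  refine hP.mono hL (fun q => ?_) p
  by_cases hq : A q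
  · rw [if_pos hq]
    exact h q hq
  · rw [if_neg hq]

omit [DecidableEq α] in
theorem posOp_iter (hP : PosOp T) (m : ℕ) : PosOp (T^[m]) := by
  induction m with
  | zero => exact fun F hF => hF
  | succ m ih =>
    intro F hF p
    rw [Function.iterate_succ_apply']
    exact hP _ (ih F hF) p

omit [DecidableEq α] in
theorem lin_iter (hL : Lin T) (m : ℕ) : Lin (T^[m]) := by
  induction m with
  | zero => intro a b F G; rfl
  | succ m ih =>
    have e : T^[m + 1] = fun F => T (T^[m] F) := by
      funext F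
      exact Function.iterate_succ_apply' T m F
    rw [e]
    exact hL.comp ih

omit [DecidableEq α] in
theorem ind_nn (q p : Pat α) : (0 : ℝ) ≤ HS.ind q p := by
  by_cases h : p = q
  · rw [h, HS.ind_self]
    exact zero_le_one
  · rw [HS.ind_ne h]

omit [DecidableEq α] in
theorem ind_le {G : Pat α → ℝ} (hG : ∀ p, 0 ≤ G p) (q p : Pat α) : G q * HS.ind q p ≤ G p := by
  by_cases h : p = q
  · rw [h, HS.ind_self, mul_one]
  · rw [HS.ind_ne h, mul_zero]
    exact hG p

omit [DecidableEq α] in
/-- The abstract majorant: bounded values of the arcs seen from the empty state, and every state is seen. -/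
theorem major_abs [Finite α] (hP : PosOp T) (hL : Lin T) (PA : Pres A A T) (hE : A Pat.empty)
    (hT : ∀ m, T^[m] (HS.ind Pat.empty) Pat.empty = 1)
    (hB : ∀ q, q ≠ Pat.empty → A q → ∃ M : ℝ, ∀ m, T^[m] (HS.ind q) Pat.empty ≤ M)
    (hR : ∀ q, q ≠ Pat.empty → A q → ∃ m, 0 < T^[m] (HS.ind q) Pat.empty)
    {G : Pat α → ℝ} (h0 : ∀ p, 0 ≤ G p) (hs : ∀ p, ¬ (p ≠ Pat.empty ∧ A p) → G p = 0)
    (h1 : ∀ p, p ≠ Pat.empty → A p → G p ≤ T G p) : ∀ p, G p = 0 := by
  classical
  have : Fintype (Pat α) := Fintype.ofFinite _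
  have g0 : G Pat.empty = 0 := hs _ (fun h => h.1 rfl)
  have PAi := NUF.Cyl.pres_iter PA
  -- the iterates increase
  have inc : ∀ j p, p ≠ Pat.empty → A p → G p ≤ T^[j] G p := by
    intro j
    induction j with
    | zero => intro p _ _; exact le_rfl
    | succ j ih =>
      intro p hp hA
      rw [Function.iterate_succ_apply']
      refine (h1 p hp hA).trans (mono_on hP hL PA ?_ hA)
      intro q hq
      by_cases hqe : q = Pat.empty
      · rw [hqe, g0]
        exact posOp_iter hP j G h0 _
      · exact ih q hqe hq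
  set a : ℕ → ℝ := fun k => T^[k] G Pat.empty with ha
  have a0 : ∀ k, 0 ≤ a k := fun k => posOp_iter hP k G h0 _
  have sup : ∀ k j, a k + a j ≤ a (k + j) := by
    intro k j
    have h2 : T^[k] (fun p => 1 * G p + a j * HS.ind Pat.empty p) Pat.empty ≤ T^[k] (T^[j] G) Pat.empty := by
      refine mono_on (posOp_iter hP k) (lin_iter hL k) (PAi k) ?_ hE
      intro q hq
      by_cases hqe : q = Pat.empty
      · rw [hqe, g0, HS.ind_self, mul_zero, mul_one, zero_add]
      · rw [HS.ind_ne hqe, mul_zero, add_zero, one_mul]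
        exact inc j q hqe hq
    rw [lin_iter hL k 1 (a j) G (HS.ind Pat.empty)] at h2
    simp only [one_mul] at h2
    rw [hT k, mul_one, ← Function.iterate_add_apply] at h2
    exact h2
  -- bounded
  obtain ⟨M, hM⟩ : ∃ M, ∀ k, a k ≤ M := by
    have hB' : ∀ q : Pat α, ∃ M : ℝ, ∀ m, G q * T^[m] (HS.ind q) Pat.empty ≤ M := by
      intro q
      by_cases h : q ≠ Pat.empty ∧ A q
      · obtain ⟨M, hM⟩ := hB q h.1 h.2
        exact ⟨G q * M, fun m => mul_le_mul_of_nonneg_left (hM m) (h0 q)⟩
      · exact ⟨0, fun m => by rw [hs q h, zero_mul]⟩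
    choose M hM using hB'
    refine ⟨∑ q, M q, fun k => ?_⟩
    have h2 : G = fun p => ∑ q, G q * HS.ind q p := by
      funext p
      rw [Finset.sum_eq_single p]
      · rw [HS.ind_self, mul_one]
      · intro q _ hq
        rw [HS.ind_ne (Ne.symm hq), mul_zero]
      · intro h
        exact absurd (Finset.mem_univ p) h
    have h3 : T^[k] G = fun p => ∑ q, G q * T^[k] (HS.ind q) p := by
      conv_lhs => rw [h2]
      exact (lin_iter hL k).sum Finset.univ G (fun q => HS.ind q)
    show T^[k] G Pat.empty ≤ _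
    rw [h3]
    exact Finset.sum_le_sum fun q _ => hM q k
  -- zero
  have az : ∀ k, a k = 0 := by
    intro k
    by_contra hne
    have hpos : 0 < a k := lt_of_le_of_ne (a0 k) (Ne.symm hne)
    have h2 : ∀ n : ℕ, (n : ℝ) * a k ≤ a (n * k) := by
      intro n
      induction n with
      | zero =>
        rw [Nat.cast_zero, zero_mul]
        exact a0 _
      | succ n ih =>
        have h3 := sup (n * k) k
        rw [Nat.succ_mul]
        push_cast
        linarith
    obtain ⟨n, hn⟩ := exists_nat_gt (M / a k)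
    have h4 := (h2 n).trans (hM _)
    rw [div_lt_iff₀ hpos] at hn
    linarith
  intro q
  by_cases h : q ≠ Pat.empty ∧ A q
  · obtain ⟨m, hm⟩ := hR q h.1 h.2
    have h2 : G q * T^[m] (HS.ind q) Pat.empty ≤ a m := by
      have h3 : T^[m] (fun p => G q * HS.ind q p) Pat.empty ≤ T^[m] G Pat.empty :=
        (posOp_iter hP m).mono (lin_iter hL m) (ind_le h0 q) _
      rw [PosOp.smul (lin_iter hL m)] at h3
      exact h3
    rw [az m] at h2
    have h3 := h0 q
    by_contra hne
    have : 0 < G q * T^[m] (HS.ind q) Pat.empty := mul_pos (lt_of_le_of_ne h3 (Ne.symm hne)) hm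
    linarith
  · exact hs q h

omit [DecidableEq α] in
/-- a function is at least its value times the indicator. -/
theorem leads_iter_le (hP : PosOp T) (hL : Lin T) {p q : Pat α} {m : ℕ} (h : Leads (T^[m]) p q) :
    ∃ w > 0, ∀ k, w * T^[k] (HS.ind p) Pat.empty ≤ T^[k + m] (HS.ind q) Pat.empty := by
  obtain ⟨w, hw, h1⟩ := h
  have h2 := h1 (HS.ind q) (ind_nn q)
  rw [HS.ind_self, mul_one] at h2
  refine ⟨w, hw, fun k => ?_⟩
  have h3 : T^[k] (fun s => w * HS.ind p s) Pat.empty ≤ T^[k] (T^[m] (HS.ind q)) Pat.empty := by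
    refine (posOp_iter hP k).mono (lin_iter hL k) (fun s => ?_) _
    by_cases hsp : s = p
    · rw [hsp, HS.ind_self, mul_one]
      exact h2
    · rw [HS.ind_ne hsp, mul_zero]
      exact posOp_iter hP m _ (ind_nn q) s
  rw [PosOp.smul (lin_iter hL k), ← Function.iterate_add_apply] at h3
  exact h3

end pos

variable {X : List α} {c d : α}

theorem ringH_ind_iter (hcd : c ≠ d) (hc : c ∉ X) (m : ℕ) :
    (ringH c d X)^[m] (HS.ind Pat.empty) = HS.ind Pat.empty := by
  induction m with
  | zero => rfl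
  | succ m ih =>
    rw [Function.iterate_succ_apply', ih]
    exact ringF_ind _ hcd hc

/-- **The majorant of the hexagonal ring.** -/
theorem majR [Finite α] (hn : X.Nodup) (hcd : c ≠ d) (hc : c ∉ X) (hd : d ∉ X) {G : Pat α → ℝ}
    (h0 : ∀ p, 0 ≤ G p) (hs : ∀ p, ¬ (p ≠ Pat.empty ∧ AX X p) → G p = 0)
    (h1 : ∀ p, p ≠ Pat.empty → AX X p → G p ≤ ringH c d X G p) : ∀ p, G p = 0 := by
  have hP := ringH_pos c d X
  have hL := lin_ringH c d X
  have PA : Pres (AX X) (AX X) (ringH c d X) := pres_ringF _ hn hcd hc hd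
  refine major_abs hP hL PA (ax_empty X) ?_ ?_ ?_ h0 hs h1
  · intro m
    rw [ringH_ind_iter hcd hc, HS.ind_self]
  · intro q hqe hA
    obtain ⟨x1, x2, X', hX⟩ := two_rows (fun x hx => ax_out hA hx) hqe
    have m1 : x1 ∈ X := by rw [hX]; simp
    have m2 : x2 ∈ X := by rw [hX]; simp
    have h12 : x1 ≠ x2 := by
      intro e
      rw [hX, e] at hn
      simp at hn
    obtain ⟨m, hm⟩ := ringH_irred (c := c) (d := d) hn hc hd hA hqe (ax_arc m2 m1) (arc_ne_empty h12)
    obtain ⟨w, hw, h2⟩ := leads_iter_le hP hL hm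
    refine ⟨(1 / Real.cos (3 * Real.pi / 8)) / w, fun k => ?_⟩
    rw [le_div_iff₀ hw, mul_comm]
    refine (h2 k).trans ?_
    rcases Nat.eq_zero_or_pos (k + m) with h3 | h3
    · rw [h3]
      show HS.ind (cup x1 x2 Pat.empty) Pat.empty ≤ _
      rw [HS.ind_ne (arc_ne_empty h12).symm]
      have hc3 : 0 < Real.cos (3 * Real.pi / 8) := by
        apply Real.cos_pos_of_mem_Ioo
        constructor <;> linarith [Real.pi_pos]
      positivity
    · exact NUF.Cyl.arc_le hn hcd hc hd m1 m2 h12 h3
  · intro q hqe hA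
    obtain ⟨x1, x2, X', hX⟩ := two_rows (fun x hx => ax_out hA hx) hqe
    have m1 : x1 ∈ X := by rw [hX]; simp
    have m2 : x2 ∈ X := by rw [hX]; simp
    have h12 : x1 ≠ x2 := by
      intro e
      rw [hX, e] at hn
      simp at hn
    have hi : X.idxOf x1 < X.idxOf x2 := by
      rw [hX, idx_cons_self, idx_cons_ne h12.symm]
      omega
    have hl1 : Leads (ringH c d X) Pat.empty (cup x1 x2 Pat.empty) :=
      mv_create (fun _ => hexW_WP xc_pos) ⟨hn, m1, m2, hi, hc, hd, rfl, rfl, fun _ _ _ _ => rfl⟩ rfl rfl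
    obtain ⟨m, hm⟩ := ringH_irred (c := c) (d := d) hn hc hd (ax_arc m2 m1) (arc_ne_empty h12) hA hqe
    have hp : Pos (ringH c d X) := pos_ringF (fun _ => hexW_WP xc_pos)
    exact ⟨m + 1, Leads.ind_pos (Leads.iterate_succ hp hl1 hm)⟩

end Pool.Agent.NUG
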