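import Pool.Agent.NUG.Split5
import Pool.Agent.NUG.MajR

/-!
# Chain G, final form

If the partition function `ZV n' (s, .., s)` of the strip, multiplied by a function `q` of `y = exp (2 i s)`, is
analytic in the unit disc as a function `f` of `y`, then `f 0 = q 0 * Z`, where `Z` is the partition function of the
ring (sphere lattice) and `Z ≥ ZV n' z0 B C * ZV n' z0 D A`.
-/

set_option autoImplicit false

namespace Pool.Agent.NUG

open _root_.Pool.Agent.NUF _root_.Pool.Agent.NUF.LPat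
open Filter Topology

section maj

variable {ι : Type*} [DecidableEq ι] [Finite ι] {X : List ι} {c d : ι}

/-- The majorant property holds. -/
theorem majR_all (hn : X.Nodup) (hcd : c ≠ d) (hc : c ∉ X) (hd : d ∉ X) : MajR c d X :=
  fun _ h0 hs h1 => majR hn hcd hc hd h0 hs h1

theorem inj_ringC (hn : X.Nodup) (hcd : c ≠ d) (hc : c ∉ X) (hd : d ∉ X) :
    InjN (AX X) (ringC c d X) := (majR_all hn hcd hc hd).injC

/-- **Existence of the ring functional.** -/
theorem exists_ring (hn : X.Nodup) (hcd : c ≠ d) (hc : c ∉ X) (hd : d ∉ X) :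
    ∃ V : Fnl ι, IsD c d X V := exists_isD hn hcd hc hd (inj_ringC hn hcd hc hd)

/-- **The ring functional of the rows `X`.** -/
noncomputable def VD (c d : ι) (X : List ι) : Fnl ι :=
  open scoped Classical in if h : ∃ V, IsD c d X V then h.choose else 0

omit [Finite ι] in
theorem isD_VD' (h : ∃ V, IsD c d X V) : IsD c d X (VD c d X) := by
  unfold VD
  rw [dif_pos h]
  exact h.choose_spec

theorem isD_VD (hn : X.Nodup) (hcd : c ≠ d) (hc : c ∉ X) (hd : d ∉ X) : IsD c d X (VD c d X) :=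
  isD_VD' (exists_ring hn hcd hc hd)

end maj

section far

variable {ι : Type*} [DecidableEq ι] {A B C D L1 L2 : List (ι × ι)} {n' : ℝ} {c d e : ι}

/-- **The partition function of the sphere lattice**: rows on a circle, infinite cylinder on both sides; the loops
that separate the two faces have the weight `n'`, the other loops the weight 0. -/
noncomputable def ZD (n' : ℂ) (c d : ι) (L1 L2 : List (ι × ι)) : ℂ :=
  Zp n' (VD c d ((L1 ++ L2).map Prod.fst)) (VD c d ((L1 ++ L2).map Prod.snd).reverse) L1 L2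

/-- The sites `c`, `d`, `e` are different and are not used by the lines of `L`. -/
structure Spare (c d e : ι) (L : List (ι × ι)) : Prop where
  cd : c ≠ d
  ce : c ≠ e
  de : d ≠ e
  c1 : c ∉ L.map Prod.fst
  d1 : d ∉ L.map Prod.fst
  e1 : e ∉ L.map Prod.fst
  c2 : c ∉ L.map Prod.snd
  d2 : d ∉ L.map Prod.snd
  e2 : e ∉ L.map Prod.snd

omit [DecidableEq ι] in
theorem nr {x : ι} {X : List ι} (h : x ∉ X) : x ∉ X.reverse := fun h' => h (List.mem_reverse.1 h')

/-- **G4, unconditional.** -/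
theorem ZD_ge [Finite ι] (hG : Gd ((A ++ B) ++ (C ++ D))) (hs : Spare c d e ((A ++ B) ++ (C ++ D)))
    (hn' : 0 ≤ n') :
    ∃ r : ℝ, 0 ≤ r ∧ ZD n' c d (A ++ B) (C ++ D) = ZV n' z0 B C * ZV n' z0 D A + r :=
  ring_ge_strips hG hs.cd hs.ce hs.de hs.c1 hs.d1 hs.e1 hs.c2 hs.d2 hs.e2
    (majR_all hG.fst hs.cd hs.c1 hs.d1)
    (majR_all (List.nodup_reverse.2 hG.snd) hs.cd (nr hs.c2) (nr hs.d2))
    (isD_VD hG.fst hs.cd hs.c1 hs.d1)
    (isD_VD (List.nodup_reverse.2 hG.snd) hs.cd (nr hs.c2) (nr hs.d2)) hn'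

/-- **G1 + G2 + G3: the far limit of the strip is the sphere lattice.** -/
theorem far_ZV [Fintype ι] (hG : Gd (L1 ++ L2)) (hs : Spare c d e (L1 ++ L2)) (n' : ℂ) {f q : ℂ → ℂ}
    (hf : DB f) (hq : DB q)
    (h : ∀ᶠ s : ℂ in 𝓝 (Real.pi / 16 : ℂ), 0 < s.im → f (Complex.exp (2 * Complex.I * s)) =
      q (Complex.exp (2 * Complex.I * s)) * ZV n' (fun _ => s) L1 L2) :
    f 0 = q 0 * ZD n' c d L1 L2 := by
  have hc2 := nr hs.c2
  have hd2 := nr hs.d2
  have he2 := nr hs.e2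
  have hnr := List.nodup_reverse.2 hG.snd
  refine far_pair hG.fst hnr hs.cd hs.ce hs.de hs.c1 hs.d1 hs.e1 hc2 hd2 he2
    (inj_ringC hG.fst hs.cd hs.c1 hs.d1) (inj_ringC hnr hs.cd hc2 hd2)
    (isD_VD hG.fst hs.cd hs.c1 hs.d1) (isD_VD hnr hs.cd hc2 hd2)
    (fun p q => Tw (chi L1) (gm (nu2 n') (L1 ++ L2)) (ofP (ZMod 2) (un p q))) hf hq ?_
  have hreg : ∀ᶠ s : ℂ in 𝓝 (Real.pi / 16 : ℂ),
      ∀ X : List ι, X.Nodup → Reg (fun _ : ι => s) X := by
    have hcont : Tendsto (fun s : ℂ => (fun _ : ι => s)) (𝓝 (Real.pi / 16 : ℂ))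
        (𝓝 (fun _ : ι => (Real.pi / 16 : ℂ))) := by
      rw [tendsto_pi_nhds]
      intro _
      exact tendsto_id
    exact hcont.eventually reg_nhds
  filter_upwards [h, hreg] with s h1 h2 h3
  rw [h1 h3]
  congr 1
  unfold ZV Zp
  have e1 : VV (fun _ : ι => -s) ((L1 ++ L2).map Prod.snd) = VV (fun _ : ι => s)
      ((L1 ++ L2).map Prod.snd).reverse := by
    have := VV_rev (z := fun _ : ι => s) (X := ((L1 ++ L2).map Prod.snd).reverse) hnr hs.cd hc2 hd2
      (h2 _ hnr)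
    rwa [List.reverse_reverse] at this
  rw [e1, pr_apply]

/-- **Chain G.** -/
theorem chainG [Fintype ι] (hG : Gd ((A ++ B) ++ (C ++ D))) (hs : Spare c d e ((A ++ B) ++ (C ++ D)))
    (hn' : 0 ≤ n') {f q : ℂ → ℂ} (hf : DB f) (hq : DB q)
    (h : ∀ᶠ s : ℂ in 𝓝 (Real.pi / 16 : ℂ), 0 < s.im → f (Complex.exp (2 * Complex.I * s)) =
      q (Complex.exp (2 * Complex.I * s)) * ZV n' (fun _ => s) (A ++ B) (C ++ D)) :
    ∃ r : ℝ, 0 ≤ r ∧ f 0 = q 0 * (ZV n' z0 B C * ZV n' z0 D A + r) := by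
  obtain ⟨r, h1, h2⟩ := ZD_ge hG hs hn'
  exact ⟨r, h1, by rw [← h2, far_ZV hG hs n' hf hq h]⟩

end far

end Pool.Agent.NUG
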