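import Pool.Agent.NUG.FarZ

/-!
# The strip partition function as the limit of the iterated columns (unlabelled form)

`T` = the column of the right halves, `T'` = the column of the left halves (rows in the opposite order), both
with the same spare site `c`.  `(T^n (T'^n F)) (empty) → V (p ↦ V' (q ↦ F (un p q)))` for every function `F`.
-/

set_option autoImplicit false

namespace Pool.Agent.NUG

open _root_.Pool.Agent.EXL _root_.Pool.Agent.EXL.Pat _root_.Pool.Agent.EXL.HS HexObs Filter Topology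
open _root_.Pool.Agent.NUF

section iter

variable {α K : Type*} [DecidableEq α] [CommRing K]

theorem RelU.iter (w : α → Wt K) {q : Pat α} {F H : Pat α → K} {i : α} {L : List α}
    (h : RelU q F H) (hi : q i = i) (hL : ∀ x ∈ L, q x = x) (n : ℕ) :
    RelU q ((NUF.colF w i L)^[n] F) ((NUF.colF w i L)^[n] H) := by
  induction n with
  | zero => exact h
  | succ n ih =>
    rw [Function.iterate_succ_apply', Function.iterate_succ_apply']
    exact ih.colF w hi hL

theorem iter_un_left (w : α → Wt K) {e : α} {L : List α} (F : Pat α → K) {p q : Pat α} (hd : Dj p q)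
    (he : q e = e) (hL : ∀ x ∈ L, q x = x) (n : ℕ) :
    (NUF.colF w e L)^[n] F (un p q) = (NUF.colF w e L)^[n] (fun p' => F (un p' q)) p :=
  RelU.iter w (F := F) (H := fun p' => F (un p' q)) (fun _ _ => rfl) he hL n p hd

theorem iter_un_right (w : α → Wt K) {e : α} {L : List α} (F : Pat α → K) {p q : Pat α} (hd : Dj p q)
    (he : p e = e) (hL : ∀ x ∈ L, p x = x) (n : ℕ) :
    (NUF.colF w e L)^[n] F (un p q) = (NUF.colF w e L)^[n] (fun q' => F (un p q')) q := by
  rw [un_comm hd]
  exact RelU.iter w (F := F) (H := fun q' => F (un p q'))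
    (fun q' hq' => by rw [un_comm hq']) he hL n q hd.symm

end iter

section two

variable {ι : Type*} [DecidableEq ι] {c : ι} {X Y : List ι} {V W : Fnl ι}

theorem dj_lists (hXY : ∀ x ∈ X, x ∉ Y) {p q : Pat ι} (hp : AX X p) (hq : AX Y q) : Dj p q := by
  intro x
  by_cases h : x ∈ X
  · exact Or.inr (ax_out hq (hXY x h))
  · exact Or.inl (ax_out hp h)

/-- The states that are unions of planar states of the two lists. -/
def AU (X Y : List ι) (r : Pat ι) : Prop := ∃ p q, AX X p ∧ AX Y q ∧ un p q = r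

omit [DecidableEq ι] in
theorem un_ne_left [DecidableEq ι] {p q : Pat ι} (hd : Dj p q) (h : p ≠ Pat.empty) : ∃ x, un p q x ≠ x := by
  obtain ⟨x, hx⟩ := exists_occ h
  exact ⟨x, by rw [un_apply hd, if_neg hx]; exact hx⟩

theorem un_ne_right {p q : Pat ι} (hd : Dj p q) (h : q ≠ Pat.empty) : ∃ x, un p q x ≠ x := by
  rw [un_comm hd]
  exact un_ne_left hd.symm h

theorem un_eq_empty {p q : Pat ι} (hd : Dj p q) (h : un p q ≠ Pat.empty) :
    p ≠ Pat.empty ∨ q ≠ Pat.empty := by
  by_contra h'
  push Not at h'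
  rw [h'.1, h'.2, un_empty] at h
  exact h rfl

/-- **The two families of columns tend to 0 on the non-empty states.** -/
theorem two_tendsto [Finite ι] (hX : X.Nodup) (hY : Y.Nodup) (hXY : ∀ x ∈ X, x ∉ Y) (hc : c ∉ X)
    (hc' : c ∉ Y) (F : Pat ι → ℝ) {p q : Pat ι} (hp : AX X p) (hq : AX Y q)
    (h : p ≠ Pat.empty ∨ q ≠ Pat.empty) :
    Tendsto (fun n => (colF (fun _ => hexW xc) c X)^[n] ((colF (fun _ => hexW xc) c Y)^[n] F) (un p q))
      atTop (𝓝 0) := by
  classical
  cases nonempty_fintype ι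
  have : Fintype (Pat ι) := Fintype.ofFinite _
  set T := colF (fun _ => hexW xc) c X with hT
  set T' := colF (fun _ => hexW xc) c Y with hT'
  have hL := lin_colF (fun _ => hexW xc) c X
  have hL' := lin_colF (fun _ => hexW xc) c Y
  have hP := colF_pos c X
  have hP' := colF_pos c Y
  have hYX : ∀ x ∈ Y, x ∉ X := fun x hx hx' => hXY x hx' hx
  have hd := dj_lists hXY hp hq
  -- the constant function
  set one : Pat ι → ℝ := fun _ => 1 with hone
  have prod1 : ∀ n, T^[n] (T'^[n] one) (un p q) = T'^[n] one q * T^[n] one p := by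
    intro n
    have e1 : T^[n] (T'^[n] one) (un p q) = T^[n] (fun p' => T'^[n] one (un p' q)) p :=
      iter_un_left _ _ hd (ax_out hq hc') (fun x hx => ax_out hq (hXY x hx)) n
    have e2 : T^[n] (fun p' => T'^[n] one (un p' q)) p = T^[n] (fun p' => T'^[n] one q * one p') p := by
      have hPr : ∀ (k : ℕ) {G H : Pat ι → ℝ}, (∀ r, AX X r → G r = H r) →
          ∀ r, AX X r → T^[k] G r = T^[k] H r := by
        intro k G H hGH
        induction k with
        | zero => exact hGH
        | succ k ih =>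
          intro r hr
          rw [Function.iterate_succ_apply', Function.iterate_succ_apply']
          exact pres_colF _ hX hc _ _ ih r hr
      apply hPr n _ p hp
      intro p' hp'
      have e3 : T'^[n] one (un p' q) = T'^[n] (fun q' => one (un p' q')) q :=
        iter_un_right _ _ (dj_lists hXY hp' hq) (ax_out hp' hc) (fun x hx => ax_out hp' (hYX x hx)) n
      rw [e3, hone, mul_one]
    have e4 : T^[n] (fun p' => T'^[n] one q * one p') p = T'^[n] one q * T^[n] one p := by
      have hLn := lin_iterate hL n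
      have := hLn (T'^[n] one q) 0 one one
      simpa using congrFun this p
    rw [e1, e2, e4]
  have nn : ∀ (n : ℕ) (S : (Pat ι → ℝ) → (Pat ι → ℝ)), PosOp S → ∀ {G : Pat ι → ℝ}, (∀ r, 0 ≤ G r) →
      ∀ r, 0 ≤ S^[n] G r := by
    intro n S hS G hG
    induction n with
    | zero => exact hG
    | succ n ih =>
      intro r
      rw [Function.iterate_succ_apply']
      exact hS _ ih r
  have lim1 : Tendsto (fun n => T^[n] (T'^[n] one) (un p q)) atTop (𝓝 0) := by
    simp only [prod1]
    obtain ⟨a, -, ha⟩ := VV_hex_lim_real hX hc (z := fun _ => Real.pi / 16) (fun _ _ => rfl) one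
    obtain ⟨b, -, hb⟩ := VV_hex_lim_real hY hc' (z := fun _ => Real.pi / 16) (fun _ _ => rfl) one
    by_cases h1 : p = Pat.empty
    · have h2 : q ≠ Pat.empty := h.resolve_left (fun h' => h' h1)
      have l1 : Tendsto (fun n => T'^[n] one q) atTop (𝓝 0) := hex_iterate_tendsto hY hc' one h2 hq
      have l2 : Tendsto (fun n => T^[n] one p) atTop (𝓝 a) := by rw [h1]; exact ha
      simpa using l1.mul l2
    · have l2 : Tendsto (fun n => T^[n] one p) atTop (𝓝 0) := hex_iterate_tendsto hX hc one h1 hp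
      by_cases h2 : q = Pat.empty
      · have l1 : Tendsto (fun n => T'^[n] one q) atTop (𝓝 b) := by rw [h2]; exact hb
        simpa using l1.mul l2
      · have l1 : Tendsto (fun n => T'^[n] one q) atTop (𝓝 0) := hex_iterate_tendsto hY hc' one h2 hq
        simpa using l1.mul l2
  -- the general function
  obtain ⟨C, hC⟩ : ∃ C : ℝ, ∀ r, |F r| ≤ C := by
    refine ⟨∑ q, |F q|, fun p => ?_⟩
    exact Finset.single_le_sum (f := fun q => |F q|) (fun _ _ => abs_nonneg _) (Finset.mem_univ p)
  have mono : ∀ (n : ℕ) (S : (Pat ι → ℝ) → (Pat ι → ℝ)), PosOp S → Lin S → ∀ {G H : Pat ι → ℝ},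
      (∀ r, G r ≤ H r) → ∀ r, S^[n] G r ≤ S^[n] H r := by
    intro n S hS hSL G H hGH
    induction n with
    | zero => exact hGH
    | succ n ih =>
      intro r
      rw [Function.iterate_succ_apply', Function.iterate_succ_apply']
      exact hS.mono hSL ih r
  have smul : ∀ (n : ℕ) (S : (Pat ι → ℝ) → (Pat ι → ℝ)), Lin S → ∀ (a : ℝ) (G : Pat ι → ℝ),
      S^[n] (fun r => a * G r) = fun r => a * S^[n] G r := by
    intro n S hSL a G
    have := lin_iterate hSL n a 0 G G
    simpa using this
  have key : ∀ n, |T^[n] (T'^[n] F) (un p q)| ≤ C * T^[n] (T'^[n] one) (un p q) := by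
    intro n
    have up : ∀ r, T^[n] (T'^[n] F) r ≤ C * T^[n] (T'^[n] one) r := by
      intro r
      have h1 := mono n T hP hL (fun r => mono n T' hP' hL' (G := F) (H := fun r => C * one r)
        (fun r => by rw [hone, mul_one]; exact le_of_abs_le (hC r)) r) r
      rwa [smul n T' hL' C one, smul n T hL C] at h1
    have lo : ∀ r, (-C) * T^[n] (T'^[n] one) r ≤ T^[n] (T'^[n] F) r := by
      intro r
      have h1 := mono n T hP hL (fun r => mono n T' hP' hL' (G := fun r => (-C) * one r) (H := F)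
        (fun r => by rw [hone, mul_one]; exact neg_le_of_abs_le (hC r)) r) r
      rwa [smul n T' hL' (-C) one, smul n T hL (-C)] at h1
    rw [abs_le]
    exact ⟨by have := lo (un p q); linarith, up _⟩
  have h1 := lim1.const_mul C
  rw [mul_zero] at h1
  exact squeeze_zero_norm (fun n => by rw [Real.norm_eq_abs]; exact key n) h1

theorem two_iter_cx (F : Pat ι → ℂ) (n : ℕ) (r : Pat ι) :
    (colF (fun _ => hexW (xc : ℂ)) c X)^[n] ((colF (fun _ => hexW (xc : ℂ)) c Y)^[n] F) r =
      (((colF (fun _ => hexW xc) c X)^[n] ((colF (fun _ => hexW xc) c Y)^[n] fun q => (F q).re) r : ℝ) : ℂ)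
        + (((colF (fun _ => hexW xc) c X)^[n]
          ((colF (fun _ => hexW xc) c Y)^[n] fun q => (F q).im) r : ℝ) : ℂ) * Complex.I := by
  have hL := lin_iterate (lin_colF (fun _ : ι => hexW (xc : ℂ)) c X) n
  have hL' := lin_iterate (lin_colF (fun _ : ι => hexW (xc : ℂ)) c Y) n
  have hF : F = fun q => 1 * (((F q).re : ℝ) : ℂ) + Complex.I * (((F q).im : ℝ) : ℂ) := by
    funext q
    rw [one_mul, mul_comm]
    exact (Complex.re_add_im (F q)).symm
  conv_lhs => rw [hF]
  rw [hL', hL]
  simp only [colF_iterate_ofReal]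
  ring

theorem two_tendsto_cx [Finite ι] (hX : X.Nodup) (hY : Y.Nodup) (hXY : ∀ x ∈ X, x ∉ Y) (hc : c ∉ X)
    (hc' : c ∉ Y) (F : Pat ι → ℂ) {p q : Pat ι} (hp : AX X p) (hq : AX Y q)
    (h : p ≠ Pat.empty ∨ q ≠ Pat.empty) :
    Tendsto (fun n => (colF (fun _ => hexW (xc : ℂ)) c X)^[n]
      ((colF (fun _ => hexW (xc : ℂ)) c Y)^[n] F) (un p q)) atTop (𝓝 0) := by
  have h1 := two_tendsto hX hY hXY hc hc' (fun q => (F q).re) hp hq h
  have h2 := two_tendsto hX hY hXY hc hc' (fun q => (F q).im) hp hq h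
  simp only [two_iter_cx]
  have h3 := (Complex.continuous_ofReal.tendsto 0).comp h1
  have h4 := ((Complex.continuous_ofReal.tendsto 0).comp h2).mul_const Complex.I
  have h5 := h3.add h4
  simpa using h5

/-- The functional is fixed by the columns of the left factor. -/
theorem pU_fix_left [Finite ι] (hXY : ∀ x ∈ X, x ∉ Y) (hc' : c ∉ Y) (hV : IsC c X V) (hW : Sup Y W)
    (F : Pat ι → ℂ) : pU V W (colF (fun _ => hexW (xc : ℂ)) c X F) = pU V W F := by
  rw [pU_apply, pU_apply, dual_swap, dual_swap V W]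
  apply hW.congr
  intro q hq
  have a2 : (V fun p => colF (fun _ => hexW (xc : ℂ)) c X F (un p q)) =
      V (colF (fun _ => hexW (xc : ℂ)) c X (fun p => F (un p q))) := by
    apply hV.sup.congr
    intro p hp
    exact colF_un_left _ _ (dj_lists hXY hp hq) (ax_out hq hc') fun x hx => ax_out hq (hXY x hx)
  rw [a2, hV.fix]

/-- The functional is fixed by the columns of the right factor. -/
theorem pU_fix_right (hXY : ∀ x ∈ X, x ∉ Y) (hc : c ∉ X) (hV : Sup X V) (hW : IsC c Y W)
    (F : Pat ι → ℂ) : pU V W (colF (fun _ => hexW (xc : ℂ)) c Y F) = pU V W F := by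
  rw [pU_apply, pU_apply]
  apply hV.congr
  intro p hp
  have a2 : (W fun q => colF (fun _ => hexW (xc : ℂ)) c Y F (un p q)) =
      W (colF (fun _ => hexW (xc : ℂ)) c Y (fun q => F (un p q))) := by
    apply hW.sup.congr
    intro q hq
    exact colF_un_right _ _ (dj_lists hXY hp hq) (ax_out hp hc)
      fun x hx => ax_out hp fun h => hXY x h hx
  rw [a2, hW.fix]

/-- **The limit of the two families of columns.** -/
theorem pU_lim [Finite ι] (hX : X.Nodup) (hY : Y.Nodup) (hXY : ∀ x ∈ X, x ∉ Y) (hc : c ∉ X)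
    (hc' : c ∉ Y) (hV : IsC c X V) (hW : IsC c Y W) (F : Pat ι → ℂ) :
    Tendsto (fun n => (colF (fun _ => hexW (xc : ℂ)) c X)^[n]
      ((colF (fun _ => hexW (xc : ℂ)) c Y)^[n] F) Pat.empty) atTop (𝓝 (pU V W F)) := by
  classical
  have : Fintype (NE (AU X Y)) := Fintype.ofFinite _
  set T := colF (fun _ : ι => hexW (xc : ℂ)) c X with hT
  set T' := colF (fun _ : ι => hexW (xc : ℂ)) c Y with hT'
  have e1 : ∀ n (G : Pat ι → ℂ), pU V W (T^[n] G) = pU V W G := by
    intro n G
    induction n with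
    | zero => rfl
    | succ n ih => rw [Function.iterate_succ_apply', pU_fix_left hXY hc' hV hW.sup, ih]
  have e2 : ∀ n (G : Pat ι → ℂ), pU V W (T'^[n] G) = pU V W G := by
    intro n G
    induction n with
    | zero => rfl
    | succ n ih => rw [Function.iterate_succ_apply', pU_fix_right hXY hc hV.sup hW, ih]
  have hsup : SupF (AU X Y) (pU V W) := by
    intro G hG
    rw [pU_apply]
    apply hV.sup
    intro p hp
    apply hW.sup
    intro q hq
    exact hG _ ⟨p, q, hp, hq, rfl⟩
  have hone : pU V W (HS.ind Pat.empty) = 1 := by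
    rw [pU_apply]
    have a1 : ∀ p, AX X p → (W fun q => (HS.ind Pat.empty : Pat ι → ℂ) (un p q)) =
        (HS.ind Pat.empty : Pat ι → ℂ) p := by
      intro p hp
      have a2 : (W fun q => (HS.ind Pat.empty : Pat ι → ℂ) (un p q)) =
          W ((HS.ind Pat.empty : Pat ι → ℂ) p • (HS.ind Pat.empty : Pat ι → ℂ)) := by
        apply hW.sup.congr
        intro q hq
        have hd := dj_lists hXY hp hq
        rw [Pi.smul_apply, smul_eq_mul]
        by_cases h1 : p = Pat.empty
        · by_cases h2 : q = Pat.empty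
          · rw [h1, h2, un_empty, ind_self, mul_one]
          · obtain ⟨x, hx⟩ := un_ne_right hd h2
            rw [ind_ne h2, mul_zero]
            exact ind_empty_ne hx
        · obtain ⟨x, hx⟩ := un_ne_left hd h1
          rw [ind_ne h1, zero_mul]
          exact ind_empty_ne hx
      rw [a2, map_smul, hW.one, smul_eq_mul, mul_one]
    rw [hV.sup.congr a1, hV.one]
  have e3 : ∀ n, T^[n] (T'^[n] F) Pat.empty = pU V W F -
      ∑ p : NE (AU X Y), T^[n] (T'^[n] F) p.1 * pU V W (HS.ind p.1) := by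
    intro n
    have := sup_sum hsup (T^[n] (T'^[n] F))
    rw [e1, e2, hone, mul_one] at this
    rw [this]
    ring
  have e4 : Tendsto (fun n => ∑ p : NE (AU X Y), T^[n] (T'^[n] F) p.1 * pU V W (HS.ind p.1)) atTop
      (𝓝 0) := by
    have : (0 : ℂ) = ∑ p : NE (AU X Y), 0 * pU V W (HS.ind p.1) := by simp
    rw [this]
    refine tendsto_finsetSum _ fun r _ => Tendsto.mul_const _ ?_
    obtain ⟨r, hr1, p, q, hp, hq, rfl⟩ := r
    exact two_tendsto_cx hX hY hXY hc hc' F hp hq (un_eq_empty (dj_lists hXY hp hq) hr1)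
  have e5 := (tendsto_const_nhds (x := pU V W F) (f := atTop (α := ℕ))).sub e4
  rw [sub_zero] at e5
  exact e5.congr fun n => (e3 n).symm

end two

section ZV

variable {ι : Type*} [DecidableEq ι] {L1 L2 : List (ι × ι)} {c d : ι}

/-- **The strip partition function at the honeycomb point as the limit of the iterated columns.** -/
theorem ZV_lim [Finite ι] (hG : Gd (L1 ++ L2)) (hcd : c ≠ d) (hc : c ∉ (L1 ++ L2).map Prod.fst)
    (hc' : c ∉ (L1 ++ L2).map Prod.snd) (hd' : d ∉ (L1 ++ L2).map Prod.snd) (n' : ℂ) :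
    Tendsto (fun n => (colF (fun _ => hexW (xc : ℂ)) c ((L1 ++ L2).map Prod.fst))^[n]
      ((colF (fun _ => hexW (xc : ℂ)) c ((L1 ++ L2).map Prod.snd).reverse)^[n]
        (fun p => Tw (chi L1) (gm (nu2 n') (L1 ++ L2)) (ofP (ZMod 2) p))) Pat.empty) atTop
      (𝓝 (ZV n' z0 L1 L2)) := by
  have hnr := List.nodup_reverse.2 hG.snd
  have hdj := hG.disj
  have e : ZV n' z0 L1 L2 = pU (VV z0 ((L1 ++ L2).map Prod.fst)) (VV z0 ((L1 ++ L2).map Prod.snd).reverse)
      (fun p => Tw (chi L1) (gm (nu2 n') (L1 ++ L2)) (ofP (ZMod 2) p)) := by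
    unfold ZV Zp
    rw [VV_snd hG.snd hcd hc' hd']
    rfl
  rw [e]
  refine pU_lim hG.fst hnr (fun x hx hx' => ?_) hc (nr hc') (isC_fst hG.fst hc) (isC_fst hnr (nr hc')) _
  exact Set.disjoint_left.1 hdj (show x ∈ Sr (L1 ++ L2) from hx) (List.mem_reverse.1 hx')

end ZV

end Pool.Agent.NUG
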