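import Pool.Agent.NUG.FarW

/-!
# The pairing of the half strip vectors far away (G1)

`far_pair`: if a function `f` of `y = exp (2 i s)` is a pairing of the zero leg functionals of the half strips
near the honeycomb point, then its value at `y = 0` is the pairing of the ring functionals.
-/

set_option autoImplicit false

namespace Pool.Agent.NUG

open _root_.Pool.Agent.EXL _root_.Pool.Agent.EXL.Pat _root_.Pool.Agent.EXL.HS HexObs Filter Topology
open _root_.Pool.Agent.NUF

/-- differentiable on the unit disc. -/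
abbrev DB (f : ℂ → ℂ) : Prop := DifferentiableOn ℂ f (Metric.ball 0 1)

section diff

variable {α : Type*} [DecidableEq α]

/-- the weights are differentiable on the unit disc. -/
structure WtD (w : ℂ → Wt ℂ) : Prop where
  v : DB (fun y => (w y).v)
  u1 : DB (fun y => (w y).u1)
  u2 : DB (fun y => (w y).u2)
  w1 : DB (fun y => (w y).w1)
  w2 : DB (fun y => (w y).w2)

theorem mem_ball_norm {y : ℂ} (hy : y ∈ Metric.ball (0 : ℂ) 1) : ‖y‖ < 1 := by
  simpa using hy

theorem wtD_farW : WtD farW := by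
  have hD : ∀ y ∈ Metric.ball (0 : ℂ) 1, fD y ≠ 0 := fun y hy => fD_ne (mem_ball_norm hy)
  have hDd : DB fD := by
    have h : Differentiable ℂ fD := by
      unfold fD
      fun_prop
    exact h.differentiableOn
  constructor <;> simp only [farW]
  · exact DifferentiableOn.fun_div (by fun_prop) hDd hD
  · exact DifferentiableOn.fun_div (by fun_prop) hDd hD
  · exact DifferentiableOn.fun_div (by fun_prop) hDd hD
  · exact DifferentiableOn.fun_div (by fun_prop) hDd hD
  · exact DifferentiableOn.fun_div (by fun_prop) hDd hD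

theorem db_kb : DB kb := by
  unfold kb
  exact DifferentiableOn.fun_div (by fun_prop) (by fun_prop) fun y hy => kbD_ne (mem_ball_norm hy)

theorem db_kt : DB kt := by
  unfold kt
  exact DifferentiableOn.fun_div (by fun_prop) (by fun_prop) fun y hy => ktD_ne (mem_ball_norm hy)

theorem db_R {w : ℂ → Wt ℂ} (hw : WtD w) (i j : α) {F : ℂ → Pat α → ℂ}
    (hF : ∀ p, DB (fun y => F y p)) (p : Pat α) : DB (fun y => R (w y) i j (F y) p) := by
  unfold R
  by_cases h1 : p i = i
  · by_cases h2 : p j = j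
    · simp only [if_pos h1, if_pos h2]
      exact (hF _).fun_add (hw.u2.fun_mul (hF _))
    · simp only [if_pos h1, if_neg h2]
      exact (hw.v.fun_mul (hF _)).fun_add (hw.u1.fun_mul (hF _))
  · by_cases h2 : p j = j
    · simp only [if_neg h1, if_pos h2]
      exact (hw.v.fun_mul (hF _)).fun_add (hw.u1.fun_mul (hF _))
    · by_cases h3 : p i = j
      · simp only [if_neg h1, if_neg h2, if_pos h3]
        exact hw.w1.fun_mul (hF _)
      · simp only [if_neg h1, if_neg h2, if_neg h3]
        exact ((hw.w1.fun_mul (hF _)).fun_add (hw.u2.fun_mul (hF _))).fun_add (hw.w2.fun_mul (hF _))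

theorem db_M {w : ℂ → Wt ℂ} (hw : WtD w) (i : α) (L : List α) {F : ℂ → Pat α → ℂ}
    (hF : ∀ p, DB (fun y => F y p)) (p : Pat α) : DB (fun y => M (fun _ => w y) i L (F y) p) := by
  induction L generalizing p with
  | nil => exact hF p
  | cons r L ih => exact db_R hw i r ih p

theorem db_botF {κ : ℂ → ℂ} (hκ : DB κ) (i j : α) {F : ℂ → Pat α → ℂ}
    (hF : ∀ p, DB (fun y => F y p)) (p : Pat α) : DB (fun y => botF (κ y) i j (F y) p) := by
  unfold botF
  by_cases h1 : p i = i
  · by_cases h2 : p j = j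
    · simp only [if_pos h1, if_pos h2]
      exact (hF _).fun_add (hκ.fun_mul (hF _))
    · simp only [if_pos h1, if_neg h2]
      exact differentiableOn_const _
  · simp only [if_neg h1]
    exact differentiableOn_const _

theorem db_topF {κ : ℂ → ℂ} (hκ : DB κ) (i j : α) {F : ℂ → Pat α → ℂ}
    (hF : ∀ p, DB (fun y => F y p)) (p : Pat α) : DB (fun y => topF (κ y) i j (F y) p) := by
  unfold topF
  by_cases h1 : p i = i
  · by_cases h2 : p j = j
    · simp only [if_pos h1, if_pos h2]
      exact hF _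
    · simp only [if_pos h1, if_neg h2]
      exact differentiableOn_const _
  · by_cases h2 : p j = j
    · simp only [if_neg h1, if_pos h2]
      exact differentiableOn_const _
    · by_cases h3 : p i = j
      · simp only [if_neg h1, if_neg h2, if_pos h3]
        exact differentiableOn_const _
      · simp only [if_neg h1, if_neg h2, if_neg h3]
        exact hκ.fun_mul (hF _)

theorem db_farF (i j : α) (X : List α) (F : Pat α → ℂ) (p : Pat α) :
    DB (fun y => farF y i j X F p) := by
  have hc : WtD (fun _ => hexW (xc : ℂ)) :=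
    ⟨differentiableOn_const _, differentiableOn_const _, differentiableOn_const _,
      differentiableOn_const _, differentiableOn_const _⟩
  have h0 : ∀ p, DB (fun _ : ℂ => F p) := fun p => differentiableOn_const _
  have h1 := fun p => db_topF db_kt i j (F := fun _ => F) h0 p
  have h2 := fun p => db_M hc i X h1 p
  have h3 := fun p => db_M wtD_farW j X h2 p
  exact db_botF db_kb i j h3 p

end diff

/-! ### Cramer's rule -/

section cramer

variable {α : Type*} {A : Pat α → Prop} [Fintype (NE A)] [DecidableEq (NE A)]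

theorem db_det {n : Type*} [Fintype n] [DecidableEq n] {M : ℂ → Matrix n n ℂ}
    (h : ∀ p q, DB (fun y => M y p q)) : DB (fun y => (M y).det) := by
  simp only [Matrix.det_apply]
  apply DifferentiableOn.fun_sum
  intro σ _
  apply DifferentiableOn.fun_const_smul
  apply DifferentiableOn.fun_finsetProd
  intro i _
  exact h _ _

/-- the determinant. -/
noncomputable def crD (A : Pat α → Prop) [Fintype (NE A)] [DecidableEq (NE A)]
    (T : (Pat α → ℂ) → (Pat α → ℂ)) : ℂ := (nmat A T).det

/-- the numerators of Cramer's rule. -/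
noncomputable def crV (A : Pat α → Prop) [Fintype (NE A)] [DecidableEq (NE A)]
    (T : (Pat α → ℂ) → (Pat α → ℂ)) (q : NE A) : ℂ :=
  Matrix.vecMul (fun q : NE A => T (HS.ind q.1) Pat.empty) (nmat A T).adjugate q

/-- the numerators of Cramer's rule. -/
noncomputable def crN (A : Pat α → Prop) [Fintype (NE A)] [DecidableEq (NE A)]
    (T : (Pat α → ℂ) → (Pat α → ℂ)) (F : Pat α → ℂ) : ℂ :=
  crD A T * F Pat.empty + ∑ q : NE A, crV A T q * F q.1

theorem cramer [Finite α] {V : (Pat α → ℂ) →ₗ[ℂ] ℂ} {T : Module.End ℂ (Pat α → ℂ)} (hV : SupF A V)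
    (h1 : V (HS.ind Pat.empty) = 1) (hT : V ∘ₗ T = V) (F : Pat α → ℂ) :
    crD A (fun F => T F) * V F = crN A (fun F => T F) F := by
  set w : NE A → ℂ := fun p => V (HS.ind p.1) with hw
  set M := nmat A (fun F => T F) with hM
  have h2 : Matrix.vecMul w M = fun q : NE A => T (HS.ind q.1) Pat.empty := by
    funext q
    unfold Matrix.vecMul dotProduct
    rw [hM]
    unfold nmat
    simp only [mul_sub, Finset.sum_sub_distrib, mul_ite, mul_one, mul_zero]
    have h3 : ∑ x : NE A, (if x = q then w x else 0) = w q := by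
      rw [Finset.sum_eq_single q]
      · rw [if_pos rfl]
      · intro b _ hb
        rw [if_neg hb]
      · intro h
        exact absurd (Finset.mem_univ _) h
    have h4 : V (T (HS.ind q.1)) = w q := by
      rw [← LinearMap.comp_apply, hT]
    rw [sup_sum hV, h1, mul_one] at h4
    have h5 : ∑ x : NE A, w x * T (HS.ind q.1) x.1 = ∑ p : NE A, T (HS.ind q.1) p.1 * V (HS.ind p.1) :=
      Finset.sum_congr rfl fun p _ => mul_comm _ _
    have h6 : ∑ x : NE A, (if x = q then w x else 0) - ∑ x : NE A, w x * T (HS.ind q.1) x.1 =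
        T (HS.ind q.1) Pat.empty := by
      rw [h3, h5, ← h4]
      ring
    convert h6 using 2
  have h3 : ∀ q, crV A (fun F => T F) q = crD A (fun F => T F) * w q := by
    intro q
    unfold crV crD
    rw [← h2, ← hM, Matrix.vecMul_vecMul, Matrix.mul_adjugate, Matrix.vecMul_smul, Matrix.vecMul_one]
    rfl
  unfold crN
  rw [sup_sum hV, h1, mul_one, mul_add, Finset.mul_sum]
  congr 1
  refine Finset.sum_congr rfl fun q _ => ?_
  rw [h3]
  ring

theorem db_crD {T : ℂ → (Pat α → ℂ) → (Pat α → ℂ)} (hT : ∀ F p, DB (fun y => T y F p)) :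
    DB (fun y => crD A (T y)) := by
  unfold crD
  apply db_det
  intro p q
  unfold nmat
  exact (differentiableOn_const _).fun_sub (hT _ _)

theorem db_crV {T : ℂ → (Pat α → ℂ) → (Pat α → ℂ)} (hT : ∀ F p, DB (fun y => T y F p)) (q : NE A) :
    DB (fun y => crV A (T y) q) := by
  unfold crV
  unfold Matrix.vecMul dotProduct
  apply DifferentiableOn.fun_sum
  intro r _
  apply DifferentiableOn.fun_mul (hT _ _)
  simp only [Matrix.adjugate_apply]
  apply db_det
  intro p q'
  by_cases h : p = q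
  · subst h
    simp only [Matrix.updateRow_self]
    exact differentiableOn_const _
  · simp only [Matrix.updateRow_ne h]
    unfold nmat
    exact (differentiableOn_const _).fun_sub (hT _ _)

end cramer

/-! ### The functional is fixed by the far double column -/

section fix

variable {ι : Type*} [DecidableEq ι] {X : List ι}

/-- **The zero-leg functional is fixed by the double column.** -/
theorem isV_dbl [Finite ι] {V : Fnl ι} {s : ℂ} (hs : 0 < s.im) (hV : IsV (fun _ => s) X V)
    (hR : Reg (fun _ => s) X) (hn : X.Nodup) {i j c : ι} (hij : i ≠ j) (hic : i ≠ c) (hjc : j ≠ c)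
    (hi : i ∉ X) (hj : j ∉ X) (hc : c ∉ X)
    (k1 : okR (Real.pi / 16 - s)) (k2 : okR (s - Real.pi / 16)) (k3 : okC (Real.pi / 4 - s))
    (k4 : okC (Real.pi / 8 + s)) (k5 : okR (Real.pi / 4 - 2 * s)) (k6 : okR (3 * Real.pi / 16 - s)) :
    V ∘ₗ farT (Complex.exp (2 * Complex.I * s)) i j X = V := by
  have e0 : farT (Complex.exp (2 * Complex.I * s)) i j X =
      uops.T (fun _ => s) i j (Real.pi / 4 - s) X :=
    LinearMap.ext fun F => (uops_T_eq hs hij hi hj F).symm
  rw [e0]
  have hcomm : T0 (fun _ => s) c X * uops.T (fun _ => s) i j (Real.pi / 4 - s) X =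
      uops.T (fun _ => s) i j (Real.pi / 4 - s) X * T0 (fun _ => s) c X := by
    rw [T0_eq_C]
    refine ulaws.comm hij hic hjc hi hj hc hn ?_ ?_ k3 ?_ ?_ ?_ ?_
    · rw [uops_h, show (Real.pi / 4 - s - 3 * Real.pi / 16 : ℂ) = Real.pi / 16 - s by ring]
      exact k1
    · rw [uops_h, show (3 * Real.pi / 16 - (Real.pi / 4 - s) : ℂ) = s - Real.pi / 16 by ring]
      exact k2
    · rw [uops_h, show (3 * Real.pi / 16 + 3 * Real.pi / 16 - (Real.pi / 4 - s) : ℂ) =
        Real.pi / 8 + s by ring]
      exact k4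
    · intro r _
      rw [show (Real.pi / 4 - s - s : ℂ) = Real.pi / 4 - 2 * s by ring]
      exact k5
    · intro r _
      rw [uops_h, show (3 * Real.pi / 16 + 3 * Real.pi / 16 - (Real.pi / 4 - s) - s : ℂ) =
        Real.pi / 8 by ring]
      exact okR_hex
    · intro r _
      rw [uops_h]
      exact k6
  have h1 : IsV (fun _ => s) X (V ∘ₗ uops.T (fun _ => s) i j (Real.pi / 4 - s) X) := by
    refine hV.comp hn (fun _ h => h) ?_ hc hcomm ?_
    · rw [← e0]
      exact pres_dblF _ _ _ _ hn hij hi hj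
    · intro p _
      rw [← e0, farT_apply]
      unfold farF
      rw [dblF_ind _ _ _ _ hij hi hj]
  exact h1.unique hV hc hR

/-- the parameters are regular near the honeycomb point. -/
theorem ok_near : ∀ᶠ s : ℂ in 𝓝 (Real.pi / 16 : ℂ), okR (Real.pi / 16 - s) ∧ okR (s - Real.pi / 16) ∧
    okC (Real.pi / 4 - s) ∧ okC (Real.pi / 8 + s) ∧ okR (Real.pi / 4 - 2 * s) ∧
    okR (3 * Real.pi / 16 - s) := by
  have hDc := continuous_Dn
  have hSc := continuous_Sn
  have hc1 : Sn (3 * Real.pi / 16) ≠ 0 := by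
    unfold Sn
    rw [show (3 * Real.pi / 16 + 3 * Real.pi / 16 : ℂ) = ((3 * Real.pi / 8 : ℝ) : ℂ) by push_cast; ring,
      ← Complex.ofReal_sin]
    have hpi := Real.pi_pos
    exact_mod_cast (Real.sin_pos_of_pos_of_lt_pi (by positivity) (by linarith)).ne'
  have h0 : EXL.Dn 0 ≠ 0 := EXL.Sc.ok_R0
  have hx : EXL.Dn (Real.pi / 8) ≠ 0 := okR_hex
  have g : ∀ (f : ℂ → ℂ) (u : ℂ → ℂ), Continuous f → Continuous u → f (u (Real.pi / 16)) ≠ 0 →
      ∀ᶠ s in 𝓝 (Real.pi / 16 : ℂ), f (u s) ≠ 0 := fun f u hf hu h =>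
    (hf.comp hu).continuousAt.eventually_ne h
  refine (g EXL.Dn (fun s => Real.pi / 16 - s) hDc (by fun_prop) (by simpa using h0)).and
    ((g EXL.Dn (fun s => s - Real.pi / 16) hDc (by fun_prop) (by simpa using h0)).and
    ((g Sn (fun s => Real.pi / 4 - s) hSc (by fun_prop) ?_).and
    ((g Sn (fun s => Real.pi / 8 + s) hSc (by fun_prop) ?_).and
    ((g EXL.Dn (fun s => Real.pi / 4 - 2 * s) hDc (by fun_prop) ?_).and
    (g EXL.Dn (fun s => 3 * Real.pi / 16 - s) hDc (by fun_prop) ?_)))))
  · rw [show (Real.pi / 4 - Real.pi / 16 : ℂ) = 3 * Real.pi / 16 by ring]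
    exact hc1
  · rw [show (Real.pi / 8 + Real.pi / 16 : ℂ) = 3 * Real.pi / 16 by ring]
    exact hc1
  · rw [show (Real.pi / 4 - 2 * (Real.pi / 16) : ℂ) = Real.pi / 8 by ring]
    exact hx
  · rw [show (3 * Real.pi / 16 - Real.pi / 16 : ℂ) = Real.pi / 8 by ring]
    exact hx

end fix

/-! ### The ring functional -/

section ring

variable {ι : Type*} [DecidableEq ι] {X X' : List ι} {c d : ι}

/-- The functional of the rings. -/
structure IsD (c d : ι) (X : List ι) (V : Fnl ι) : Prop where
  sup : Sup X V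
  one : V (HS.ind Pat.empty) = 1
  fix : V ∘ₗ ringT c d X = V

theorem IsD.unique [Finite ι] {V W : Fnl ι} (hV : IsD c d X V) (hW : IsD c d X W)
    (inj : InjN (AX X) (ringC c d X)) : V = W := by
  rw [← sub_eq_zero]
  apply fix_unique (A := AX X) (T := ringT c d X) inj (hV.sup.sub hW.sup)
  · rw [LinearMap.sub_comp, hV.fix, hW.fix]
  · rw [LinearMap.sub_apply, hV.one, hW.one, sub_self]

theorem exists_isD [Finite ι] (hn : X.Nodup) (hcd : c ≠ d) (hc : c ∉ X) (hd : d ∉ X)
    (inj : InjN (AX X) (ringC c d X)) : ∃ V, IsD c d X V := by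
  obtain ⟨V, h1, h2, h3⟩ := fix_exists' (T := ringT c d X) (ax_empty X) (pres_ringF _ hn hcd hc hd)
    (fun p _ => by
      show ringC c d X (HS.ind Pat.empty) p = _
      unfold ringC
      rw [ringF_ind _ hcd hc]) inj
  exact ⟨V, h1, h2, h3⟩

/-- at `y = 0` -/
theorem IsD.far (hn : X.Nodup) (hcd : c ≠ d) (hc : c ∉ X) (hd : d ∉ X) {V : Fnl ι}
    (hV : IsD c d X V) : V ∘ₗ farT 0 c d X = V := by
  refine LinearMap.ext fun F => ?_
  rw [LinearMap.comp_apply, hV.sup.congr (G := ringT c d X F), ← LinearMap.comp_apply, hV.fix]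
  intro p hp
  exact farF_zero hn hcd hc hd F hp

theorem injN_far (hn : X.Nodup) (hcd : c ≠ d) (hc : c ∉ X) (hd : d ∉ X)
    (inj : InjN (AX X) (ringC c d X)) : InjN (AX X) (fun F => farT 0 c d X F) := by
  intro G h0 h1 p
  refine inj G h0 (fun q hq hA => ?_) p
  rw [← farF_zero hn hcd hc hd G hA]
  exact h1 q hq hA

/-- **G1**: the pairing of the half strip functionals far away is the pairing of the ring functionals. -/
theorem far_pair [Fintype ι] (hn : X.Nodup) (hn' : X'.Nodup) {e : ι} (hcd : c ≠ d) (hce : c ≠ e)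
    (hde : d ≠ e) (hc : c ∉ X) (hd : d ∉ X) (he : e ∉ X) (hc' : c ∉ X') (hd' : d ∉ X') (he' : e ∉ X')
    (inj : InjN (AX X) (ringC c d X)) (inj' : InjN (AX X') (ringC c d X')) {V V' : Fnl ι}
    (hV : IsD c d X V) (hV' : IsD c d X' V') (B : Pat ι → Pat ι → ℂ) {f q : ℂ → ℂ} (hf : DB f)
    (hq : DB q)
    (h : ∀ᶠ s : ℂ in 𝓝 (Real.pi / 16 : ℂ), 0 < s.im → f (Complex.exp (2 * Complex.I * s)) =
      q (Complex.exp (2 * Complex.I * s)) *
        VV (fun _ => s) X (fun p => VV (fun _ => s) X' (B p))) :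
    f 0 = q 0 * V (fun p => V' (B p)) := by
  classical
  have : Fintype (NE (AX X)) := Fintype.ofFinite _
  have : Fintype (NE (AX X')) := Fintype.ofFinite _
  set T : ℂ → (Pat ι → ℂ) → (Pat ι → ℂ) := fun y F => farT y c d X F with hT
  set T' : ℂ → (Pat ι → ℂ) → (Pat ι → ℂ) := fun y F => farT y c d X' F with hT'
  have hTd : ∀ F p, DB (fun y => T y F p) := fun F p => db_farF c d X F p
  have hTd' : ∀ F p, DB (fun y => T' y F p) := fun F p => db_farF c d X' F p
  set L : ℂ → ℂ := fun y => f y * (crD (AX X) (T y) * crD (AX X') (T' y)) with hL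
  set Rr : ℂ → ℂ := fun y => q y * crN (AX X) (T y) (fun p => crN (AX X') (T' y) (B p)) with hRr
  have dL : DB L := hf.fun_mul ((db_crD hTd).fun_mul (db_crD hTd'))
  have dN' : ∀ p, DB (fun y => crN (AX X') (T' y) (B p)) := by
    intro p
    unfold crN
    refine ((db_crD hTd').fun_mul (differentiableOn_const _)).fun_add ?_
    apply DifferentiableOn.fun_sum
    intro r _
    exact (db_crV hTd' r).fun_mul (differentiableOn_const _)
  have dR : DB Rr := by
    refine hq.fun_mul ?_
    show DB (fun y => crN (AX X) (T y) (fun p => crN (AX X') (T' y) (B p)))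
    unfold crN
    refine ((db_crD hTd).fun_mul (dN' _)).fun_add ?_
    apply DifferentiableOn.fun_sum
    intro r _
    exact (db_crV hTd r).fun_mul (dN' _)
  -- scaling
  have scal : ∀ (S : (Pat ι → ℂ) → (Pat ι → ℂ)) (k : ℂ) (F : Pat ι → ℂ),
      crN (AX X) S (fun p => k * F p) = k * crN (AX X) S F := by
    intro S k F
    unfold crN
    rw [mul_add, Finset.mul_sum]
    congr 1
    · ring
    · exact Finset.sum_congr rfl fun _ _ => by ring
  have key : ∀ (y : ℂ) (W W' : Fnl ι), Sup X W → W (HS.ind Pat.empty) = 1 →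
      W ∘ₗ farT y c d X = W → Sup X' W' → W' (HS.ind Pat.empty) = 1 → W' ∘ₗ farT y c d X' = W' →
      crN (AX X) (T y) (fun p => crN (AX X') (T' y) (B p)) =
        crD (AX X) (T y) * crD (AX X') (T' y) * W (fun p => W' (B p)) := by
    intro y W W' a1 a2 a3 b1 b2 b3
    have h1 : (fun p => crN (AX X') (T' y) (B p)) = fun p => crD (AX X') (T' y) * W' (B p) := by
      funext p
      exact (cramer b1 b2 b3 (B p)).symm
    rw [h1, scal, ← cramer a1 a2 a3]
    ring
  -- near the honeycomb point
  have hreg : ∀ᶠ s : ℂ in 𝓝 (Real.pi / 16 : ℂ), ∀ X : List ι, X.Nodup → Reg (fun _ => s) X := by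
    have hcont : ContinuousAt (fun s : ℂ => (fun _ : ι => s)) (Real.pi / 16 : ℂ) := by
      apply Continuous.continuousAt
      exact continuous_pi fun _ => continuous_id
    exact hcont.eventually reg_nhds
  have hgood : ∀ᶠ s : ℂ in 𝓝 (Real.pi / 16 : ℂ), 0 < s.im →
      L (Complex.exp (2 * Complex.I * s)) = Rr (Complex.exp (2 * Complex.I * s)) := by
    filter_upwards [h, hreg, ok_near] with s hs hr ⟨k1, k2, k3, k4, k5, k6⟩ hpos
    have w1 := isV_VV hn he (hr X hn)
    have w2 := isV_VV hn' he' (hr X' hn')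
    have w3 := isV_dbl hpos w1 (hr X hn) hn hcd hce hde hc hd he k1 k2 k3 k4 k5 k6
    have w4 := isV_dbl hpos w2 (hr X' hn') hn' hcd hce hde hc' hd' he' k1 k2 k3 k4 k5 k6
    simp only [hL, hRr]
    rw [key _ _ _ w1.sup w1.one w3 w2.sup w2.one w4, hs hpos]
    ring
  -- a point in the disc
  have hev := hgood.eventually_nhds
  have htend : Tendsto (fun ε : ℝ => (Real.pi / 16 : ℂ) + ε * Complex.I) (𝓝[>] 0)
      (𝓝 (Real.pi / 16 : ℂ)) := by
    have hc : Continuous (fun ε : ℝ => (Real.pi / 16 : ℂ) + ε * Complex.I) := by fun_prop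
    have := hc.tendsto 0
    simp only [Complex.ofReal_zero, zero_mul, add_zero] at this
    exact this.mono_left nhdsWithin_le_nhds
  obtain ⟨ε, hε1, hε2⟩ := ((htend.eventually hev).and self_mem_nhdsWithin).exists
  have hεpos : (0 : ℝ) < ε := hε2
  set s0 : ℂ := (Real.pi / 16 : ℂ) + ε * Complex.I with hs0
  have him : 0 < s0.im := by
    have : s0.im = ε := by
      rw [hs0]
      simp [Complex.add_im, Complex.mul_im]
    rw [this]
    exact hεpos
  have hpos : ∀ᶠ s : ℂ in 𝓝 s0, 0 < s.im :=
    (isOpen_lt continuous_const Complex.continuous_im).mem_nhds him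
  have hev2 : ∀ᶠ s : ℂ in 𝓝 s0, L (Complex.exp (2 * Complex.I * s)) =
      Rr (Complex.exp (2 * Complex.I * s)) := by
    filter_upwards [hε1, hpos] with s h1 h2
    exact h1 h2
  set y0 : ℂ := Complex.exp (2 * Complex.I * s0) with hy0
  have hderiv : HasStrictDerivAt (fun s : ℂ => Complex.exp (2 * Complex.I * s))
      (y0 * (2 * Complex.I * 1)) s0 :=
    (((hasStrictDerivAt_id s0).const_mul (2 * Complex.I))).cexp
  have hne : y0 * (2 * Complex.I * 1) ≠ 0 := by
    refine mul_ne_zero (Complex.exp_ne_zero _) ?_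
    simp
  have hmap := hderiv.map_nhds_eq hne
  have hev3 : L =ᶠ[𝓝 y0] Rr := by
    have h1 : ∀ᶠ y in map (fun s : ℂ => Complex.exp (2 * Complex.I * s)) (𝓝 s0), L y = Rr y := hev2
    rw [hmap] at h1
    exact h1
  have hball : y0 ∈ Metric.ball (0 : ℂ) 1 := by
    rw [mem_ball_zero_iff, hy0, Complex.norm_exp]
    have : (2 * Complex.I * s0).re = -2 * s0.im := by
      simp [Complex.mul_re, Complex.mul_im]
    rw [this, ← Real.exp_zero]
    exact Real.exp_lt_exp.2 (by linarith)
  have heq := (dL.analyticOnNhd Metric.isOpen_ball).eqOn_of_preconnected_of_eventuallyEq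
    (dR.analyticOnNhd Metric.isOpen_ball) (convex_ball (0 : ℂ) 1).isPreconnected hball hev3
  have h0 : L 0 = Rr 0 := heq (by simp)
  simp only [hL, hRr] at h0
  rw [key 0 V V' hV.sup hV.one (hV.far hn hcd hc hd) hV'.sup hV'.one (hV'.far hn' hcd hc' hd')] at h0
  have d1 : crD (AX X) (T 0) ≠ 0 := (nmat_det (lin_end _)).2 (injN_far hn hcd hc hd inj)
  have d2 : crD (AX X') (T' 0) ≠ 0 := (nmat_det (lin_end _)).2 (injN_far hn' hcd hc' hd' inj')
  have h3 : (crD (AX X) (T 0) * crD (AX X') (T' 0)) * (f 0 - q 0 * V (fun p => V' (B p))) = 0 := by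
    linear_combination h0
  have h4 := (mul_eq_zero.1 h3).resolve_left (mul_ne_zero d1 d2)
  exact sub_eq_zero.1 h4

end ring

end Pool.Agent.NUG
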