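import Pool.Agent.NUF.Ring
import Pool.Agent.NUG.Far

/-!
# The two definitions of the ring agree

`NUF.ringF w i j X` (the line `j` crosses the rows) is `NUG.ringF w j i X`.
-/

set_option autoImplicit false

namespace Pool.Agent.NUG

open _root_.Pool.Agent.EXL _root_.Pool.Agent.EXL.Pat _root_.Pool.Agent.EXL.HS HexObs

variable {α K : Type*} [DecidableEq α] [CommRing K]

theorem U_symm (i j : α) (F : Pat α → K) : EXL.U i j F = EXL.U j i F := by
  funext q
  simp only [EXL.U]
  by_cases e1 : q i = i <;> by_cases e2 : q j = j <;> simp [e1, e2, cup_comm i j]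

theorem glue_symm (i j : α) (F : Pat α → K) : glue i j F = glue j i F := by
  funext q
  have h : q i = j ↔ q j = i := q.eq_comm'
  simp only [glue]
  by_cases e1 : q i = i
  · by_cases e2 : q j = j <;> simp [e1, e2]
  · by_cases e2 : q j = j
    · simp [e1, e2]
    · by_cases e3 : q i = j
      · have hji : ¬ j = i := fun e => e1 (e3.trans e)
        simp [e3, h.1 e3, hji, Ne.symm hji]
      · have e4 : ¬ q j = i := fun e => e3 (h.2 e)
        simp [e1, e2, e3, e4, cut_comm i j]

/-- **The two definitions agree.** -/
theorem ringF_eq (w : α → Wt K) (i j : α) (X : List α) (F : Pat α → K) :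
    NUF.ringF w i j X F = ringF w j i X F := by
  unfold NUF.ringF ringF
  rw [U_symm, glue_symm]

theorem ringH_eq (i j : α) (X : List α) :
    NUF.ringF (fun _ => hexW xc) i j X = ringH j i X := by
  funext F
  exact ringF_eq _ i j X F

theorem injN_conv {i j : α} {X : List α} (h : NUF.InjN (NUF.AX X) (NUF.ringF (fun _ => hexW xc) i j X)) :
    NUF.InjN (NUF.AX X) (ringH j i X) := by
  rw [← ringH_eq]
  exact h

end Pool.Agent.NUG
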