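import Pool.Agent.NUG.Slide

/-!
# The double column far away, as a function of `y = exp (2 i s)`

All rows have the rapidity `s`, the double column has the parameter `v = π / 4 - s`; then the line `i` is a
honeycomb line and the line `j` is far away when `y → 0`.  Everything is a rational function of `y`, regular
in the disc `|y| < 1`.
-/

set_option autoImplicit false

namespace Pool.Agent.NUG

open _root_.Pool.Agent.EXL _root_.Pool.Agent.EXL.Pat _root_.Pool.Agent.EXL.HS HexObs Filter Topology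
open _root_.Pool.Agent.NUF

/-- `exp (i π / 4)` -/
noncomputable def om : ℂ := Complex.exp (Real.pi / 4 * Complex.I)

/-- `exp (i 3 π / 8)` -/
noncomputable def ss : ℂ := Complex.exp (3 * Real.pi / 8 * Complex.I)

/-- `exp (i π / 16)` -/
noncomputable def e16 : ℂ := Complex.exp (Real.pi / 16 * Complex.I)

theorem om_four : om ^ 4 = -1 := by
  unfold om
  rw [← Complex.exp_nat_mul, ← Complex.exp_pi_mul_I]
  congr 1
  push_cast
  ring

theorem om_ne : om ≠ 0 := Complex.exp_ne_zero _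

theorem e16_ne : e16 ≠ 0 := Complex.exp_ne_zero _

theorem norm_om : ‖om‖ = 1 := by
  unfold om
  rw [show (Real.pi / 4 * Complex.I : ℂ) = ((Real.pi / 4 : ℝ) : ℂ) * Complex.I by push_cast; ring]
  exact Complex.norm_exp_ofReal_mul_I _

theorem norm_e16 : ‖e16‖ = 1 := by
  unfold e16
  rw [show (Real.pi / 16 * Complex.I : ℂ) = ((Real.pi / 16 : ℝ) : ℂ) * Complex.I by push_cast; ring]
  exact Complex.norm_exp_ofReal_mul_I _

/-- the denominator of the far weights -/
noncomputable def fD (y : ℂ) : ℂ := (1 + y ^ 2) * (om + y ^ 2)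

/-- **The weights of the far line.** -/
noncomputable def farW (y : ℂ) : Wt ℂ where
  v := om * (om ^ 2 - y ^ 2) * (om ^ 3 * y ^ 2 - om ^ 2) / fD y
  u1 := (om ^ 2 - 1) * (om * y) * (om ^ 3 * y ^ 2 - om ^ 2) / fD y
  u2 := ss * (om * y) * (om ^ 2 - 1) * (om ^ 2 - y ^ 2) / fD y
  w1 := (om ^ 2 * y ^ 2 - om ^ 2) * (om ^ 3 * y ^ 2 - om ^ 2) / fD y
  w2 := -(om ^ 2 * (om ^ 2 - y ^ 2) * (om * y ^ 2 - om ^ 2)) / fD y

/-- the weight of an arc at the bottom -/
noncomputable def kb (y : ℂ) : ℂ := (e16 - e16⁻¹ * y) / (e16 ^ 5 * y - (e16 ^ 5)⁻¹)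

/-- the weight of an arc at the top -/
noncomputable def kt (y : ℂ) : ℂ := (e16⁻¹ * y - e16) / (e16 ^ 7 - (e16 ^ 7)⁻¹ * y)

theorem fD_zero : fD 0 = om := by unfold fD; ring

theorem braid_farW : Braid (farW 0) := by
  have h4 := om_four
  have h0 := om_ne
  have f1 : (farW 0).w1 = om ^ 3 := by
    simp only [farW, fD_zero]
    rw [div_eq_iff h0]
    ring
  have f2 : (farW 0).w2 = om ^ 5 := by
    simp only [farW, fD_zero]
    rw [div_eq_iff h0]
    ring
  constructor
  · simp only [farW, fD_zero]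
    rw [div_eq_one_iff_eq h0]
    linear_combination - om * h4
  · simp [farW]
  · simp [farW]
  · rw [f1, f2]
    linear_combination (om ^ 4 - 1) * h4
  · rw [f1, f2]
    linear_combination om ^ 6 * h4

theorem kb_kt_zero : kb 0 * kt 0 = 1 := by
  have h := e16_ne
  unfold kb kt
  field_simp
  ring

theorem norm_lt_ne {y : ℂ} (hy : ‖y‖ < 1) {a b : ℂ} (ha : ‖a‖ = 1) (hb : ‖b‖ = 1) : a ≠ b * y := by
  intro e
  have : ‖a‖ = ‖b‖ * ‖y‖ := by rw [e, norm_mul]
  rw [ha, hb, one_mul] at this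
  linarith

theorem fD_ne {y : ℂ} (hy : ‖y‖ < 1) : fD y ≠ 0 := by
  unfold fD
  have hy2 : ‖y ^ 2‖ < 1 := by
    rw [norm_pow]
    have := norm_nonneg y
    nlinarith
  refine mul_ne_zero ?_ ?_
  · intro e
    refine norm_lt_ne hy2 (a := 1) (b := -1) (by simp) (by simp) ?_
    linear_combination e
  · intro e
    refine norm_lt_ne hy2 (a := om) (b := -1) norm_om (by simp) ?_
    linear_combination e

theorem kbD_ne {y : ℂ} (hy : ‖y‖ < 1) : e16 ^ 5 * y - (e16 ^ 5)⁻¹ ≠ 0 := by
  intro e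
  refine norm_lt_ne hy (a := (e16 ^ 5)⁻¹) (b := e16 ^ 5) ?_ ?_ ?_
  · rw [norm_inv, norm_pow, norm_e16]; norm_num
  · rw [norm_pow, norm_e16]; norm_num
  · linear_combination - e

theorem ktD_ne {y : ℂ} (hy : ‖y‖ < 1) : e16 ^ 7 - (e16 ^ 7)⁻¹ * y ≠ 0 := by
  intro e
  refine norm_lt_ne hy (a := e16 ^ 7) (b := (e16 ^ 7)⁻¹) ?_ ?_ ?_
  · rw [norm_pow, norm_e16]; norm_num
  · rw [norm_inv, norm_pow, norm_e16]; norm_num
  · linear_combination e

/-! ### The values for `y = exp (2 i s)` -/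

section val

variable {s : ℂ}

theorem exp_far (s : ℂ) : Complex.exp ((Real.pi / 4 - 2 * s) * Complex.I) =
    om / Complex.exp (2 * Complex.I * s) := by
  rw [om, ← Complex.exp_sub]
  congr 1
  ring

theorem farW_eq {s : ℂ} (hs : 0 < s.im) :
    rwt (Real.pi / 4 - 2 * s) = farW (Complex.exp (2 * Complex.I * s)) := by
  set y := Complex.exp (2 * Complex.I * s) with hy
  have hy0 : y ≠ 0 := Complex.exp_ne_zero _
  have hy1 : ‖y‖ < 1 := by
    rw [hy, Complex.norm_exp]
    have : (2 * Complex.I * s).re = -2 * s.im := by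
      simp [Complex.mul_re, Complex.mul_im]
    rw [this]
    rw [← Real.exp_zero]
    exact Real.exp_lt_exp.2 (by linarith)
  have hD := fD_ne hy1
  have h4 := om_four
  have hPP : PP om (om / y) = fD y / y ^ 4 := by
    unfold PP fD
    field_simp
    linear_combination (om ^ 5 - om * y ^ 2 - y ^ 2 - om) * h4
  have hPPi : (PP om (om / y))⁻¹ = y ^ 4 / fD y := by rw [hPP, inv_div]
  have hDn : (EXL.Dn (Real.pi / 4 - 2 * s))⁻¹ = y ^ 4 / fD y := by
    unfold EXL.Dn
    rw [exp_far]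
    exact hPPi
  rw [rwt, exp_far, hDn]
  show EXL.wt om ss (om / y) (y ^ 4 / fD y) = farW y
  unfold EXL.wt farW
  congr 1 <;> field_simp

theorem Sn_exp (a z : ℂ) : Sn z = Complex.exp (-(a * Complex.I)) *
    (Complex.exp ((3 * Real.pi / 16 + z + a) * Complex.I) -
      Complex.exp ((a - (3 * Real.pi / 16 + z)) * Complex.I)) / (2 * Complex.I) := by
  unfold Sn
  rw [Complex.sin, mul_sub, ← Complex.exp_add, ← Complex.exp_add]
  have h1 : -(a * Complex.I) + (3 * Real.pi / 16 + z + a) * Complex.I =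
      (3 * Real.pi / 16 + z) * Complex.I := by ring
  have h2 : -(a * Complex.I) + (a - (3 * Real.pi / 16 + z)) * Complex.I =
      -(3 * Real.pi / 16 + z) * Complex.I := by ring
  rw [h1, h2]
  have hI : Complex.I ≠ 0 := Complex.I_ne_zero
  field_simp
  rw [Complex.I_sq]
  ring

theorem e16_pow (n : ℕ) : e16 ^ n = Complex.exp (n * Real.pi / 16 * Complex.I) := by
  unfold e16
  rw [← Complex.exp_nat_mul]
  congr 1
  ring

theorem kt_eq (s : ℂ) : EXL.kK (Real.pi / 4 - s) = kt (Complex.exp (2 * Complex.I * s)) := by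
  unfold EXL.kK kt
  have hc : Complex.exp (-(s * Complex.I)) ≠ 0 := Complex.exp_ne_zero _
  have hI : Complex.I ≠ 0 := Complex.I_ne_zero
  have h7 : (e16 ^ 7)⁻¹ = Complex.exp (-(7 * Real.pi / 16 * Complex.I)) := by
    rw [e16_pow, ← Complex.exp_neg]
    norm_num
  have h1 : e16⁻¹ = Complex.exp (-(Real.pi / 16 * Complex.I)) := by
    rw [e16, ← Complex.exp_neg]
  have n1 : Sn (-(Real.pi / 4 - s)) = Complex.exp (-(s * Complex.I)) *
      (e16⁻¹ * Complex.exp (2 * Complex.I * s) - e16) / (2 * Complex.I) := by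
    rw [Sn_exp s, h1, e16, ← Complex.exp_add]
    congr 4
    · congr 1; ring
    · congr 1; ring
  have n2 : Sn (Real.pi / 4 - s) = Complex.exp (-(s * Complex.I)) *
      (e16 ^ 7 - (e16 ^ 7)⁻¹ * Complex.exp (2 * Complex.I * s)) / (2 * Complex.I) := by
    rw [Sn_exp s, h7, e16_pow, ← Complex.exp_add]
    congr 4
    · congr 1; push_cast; ring
    · congr 1; ring
  rw [n1, n2, div_div_div_cancel_right₀ (by simp [hI]), mul_div_mul_left _ _ hc]

theorem kb_eq (s : ℂ) : EXL.kK (Real.pi / 8 + s) = kb (Complex.exp (2 * Complex.I * s)) := by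
  unfold EXL.kK kb
  have hc : Complex.exp (-(s * Complex.I)) ≠ 0 := Complex.exp_ne_zero _
  have hI : Complex.I ≠ 0 := Complex.I_ne_zero
  have h5 : (e16 ^ 5)⁻¹ = Complex.exp (-(5 * Real.pi / 16 * Complex.I)) := by
    rw [e16_pow, ← Complex.exp_neg]
    norm_num
  have h1 : e16⁻¹ = Complex.exp (-(Real.pi / 16 * Complex.I)) := by
    rw [e16, ← Complex.exp_neg]
  have n1 : Sn (-(Real.pi / 8 + s)) = Complex.exp (-(s * Complex.I)) *
      (e16 - e16⁻¹ * Complex.exp (2 * Complex.I * s)) / (2 * Complex.I) := by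
    rw [Sn_exp s, h1, e16, ← Complex.exp_add]
    congr 4
    · congr 1; ring
    · congr 1; ring
  have n2 : Sn (Real.pi / 8 + s) = Complex.exp (-(s * Complex.I)) *
      (e16 ^ 5 * Complex.exp (2 * Complex.I * s) - (e16 ^ 5)⁻¹) / (2 * Complex.I) := by
    rw [Sn_exp s, h5, e16_pow, ← Complex.exp_add]
    congr 4
    · congr 1; push_cast; ring
    · congr 1; ring
  rw [n1, n2, div_div_div_cancel_right₀ (by simp [hI]), mul_div_mul_left _ _ hc]

end val

/-! ### The operator -/

section op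

variable {ι : Type*} [DecidableEq ι]

/-- **The far double column**, as a function of `y = exp (2 i s)`. -/
noncomputable def farF (y : ℂ) (i j : ι) (X : List ι) : (Pat ι → ℂ) → (Pat ι → ℂ) :=
  dblF (kb y) (kt y) (fun _ => farW y) (fun _ => hexW (xc : ℂ)) i j X

/-- The far double column as an endomorphism. -/
noncomputable def farT (y : ℂ) (i j : ι) (X : List ι) : Module.End ℂ (Pat ι → ℂ) :=
  mk (farF y i j X) (lin_dblF _ _ _ _ _ _ _)

/-- The ring as an endomorphism. -/
noncomputable def ringT (i j : ι) (X : List ι) : Module.End ℂ (Pat ι → ℂ) :=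
  mk (ringC i j X) (lin_ringC _ _ _)

theorem farT_apply (y : ℂ) (i j : ι) (X : List ι) (F : Pat ι → ℂ) : farT y i j X F = farF y i j X F := rfl

theorem ringT_apply (i j : ι) (X : List ι) (F : Pat ι → ℂ) : ringT i j X F = ringC i j X F := rfl

/-- **At `y = 0` the far double column is the ring.** -/
theorem farF_zero {i j : ι} {X : List ι} (hn : X.Nodup) (hij : i ≠ j) (hi : i ∉ X) (hj : j ∉ X)
    (F : Pat ι → ℂ) {p : Pat ι} (hp : AX X p) : farF 0 i j X F p = ringC i j X F p :=
  dblF_braid braid_farW kb_kt_zero _ hn hij hi hj F hp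

theorem uops_b_apply {i j : ι} (h : i ≠ j) (v : ℂ) (F : Pat ι → ℂ) :
    uops.b i j v F = botF (EXL.kK (3 * Real.pi / 8 - v)) i j F := by
  show rep0 ℂ id (if i = j then 0 else wbot (EXL.kK (3 * Real.pi / 8 - v)) i j) F = _
  rw [if_neg h, wbot]
  simp only [map_add, map_mul, map_smul, rep0_e, rep0_cu]
  funext p
  simp only [LinearMap.add_apply, Module.End.mul_apply, LinearMap.smul_apply, Pi.add_apply,
    Pi.smul_apply, smul_eq_mul, EXL.opE_apply, EXL.opCu_apply, EXL.Pat.CuOK, botF, id]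
  by_cases h1 : p i = i <;> by_cases h2 : p j = j <;> simp [h1, h2]

theorem uops_t_apply {i j : ι} (h : i ≠ j) (v : ℂ) (F : Pat ι → ℂ) :
    uops.t i j v F = topF (EXL.kK v) i j F := by
  show rep0 ℂ id (if i = j then 0 else wtop (EXL.kK v) i j) F = _
  rw [if_neg h, wtop]
  simp only [map_add, map_mul, map_smul, rep0_e, rep0_ct]
  funext p
  simp only [LinearMap.add_apply, Module.End.mul_apply, LinearMap.smul_apply, Pi.add_apply,
    Pi.smul_apply, smul_eq_mul, EXL.opE_apply, EXL.opCt_apply, EXL.Pat.CtOK, topF, id]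
  by_cases h1 : p i = i
  · by_cases h2 : p j = j <;> simp [h1, h2]
  · by_cases h2 : p j = j
    · simp [h1, h2]
    · by_cases h3 : p i = j
      · simp [h1, h2, h3]
      · simp [h1, h2, h3, h]

/-- **The double column of the loop gas is the far double column.** -/
theorem uops_T_eq {s : ℂ} (hs : 0 < s.im) {i j : ι} {X : List ι} (hij : i ≠ j) (hi : i ∉ X)
    (hj : j ∉ X) (F : Pat ι → ℂ) :
    uops.T (fun _ => s) i j (Real.pi / 4 - s) X F = farT (Complex.exp (2 * Complex.I * s)) i j X F := by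
  unfold Glob.Ops.T
  rw [Module.End.mul_apply, Module.End.mul_apply, Module.End.mul_apply, uops_b_apply hij,
    uops_M_apply _ _ hj, uops_M_apply _ _ hi, uops_t_apply hij, farT_apply, uops_h]
  unfold farF dblF
  have e1 : (3 * Real.pi / 8 - (Real.pi / 4 - s) : ℂ) = Real.pi / 8 + s := by ring
  have e2 : (Real.pi / 4 - s - s : ℂ) = Real.pi / 4 - 2 * s := by ring
  have e3 : (3 * Real.pi / 16 + 3 * Real.pi / 16 - (Real.pi / 4 - s) - s : ℂ) = Real.pi / 8 := by ring
  simp only [e1, e2, e3, rwt_hex, kb_eq, kt_eq, farW_eq hs]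

end op

end Pool.Agent.NUG
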