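import Pool.Agent.NUG.Ring

/-!
# The majorant property of the ring

`MajR c d X`: a nonnegative function on the non-empty planar states that increases under the honeycomb ring
vanishes.  It gives the injectivity of `1 - ring` and the decay of the iterated rings.
-/

set_option autoImplicit false

namespace Pool.Agent.NUG

open _root_.Pool.Agent.EXL _root_.Pool.Agent.EXL.Pat _root_.Pool.Agent.EXL.HS HexObs Filter Topology
open _root_.Pool.Agent.NUF

variable {α : Type*} [DecidableEq α]

/-- **The majorant property.** -/
def MajR (c d : α) (X : List α) : Prop :=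
  ∀ G : Pat α → ℝ, (∀ p, 0 ≤ G p) → (∀ p, ¬ (p ≠ Pat.empty ∧ AX X p) → G p = 0) →
    (∀ p, p ≠ Pat.empty → AX X p → G p ≤ ringH c d X G p) → ∀ p, G p = 0

variable {c d : α} {X : List α}

/-- Injectivity over the real numbers. -/
theorem MajR.injN (h : MajR c d X) : InjN (AX X) (ringH c d X) := by
  intro G h0 h1 p
  have hL := lin_ringH c d X
  have hP := ringH_pos c d X
  have h := h (fun q => |G q|) (fun q => abs_nonneg _)
    (fun q hq => by rw [h0 q hq, abs_zero]) (by
      intro q hq hA
      have h2 : |ringH c d X G q| ≤ ringH c d X (fun r => |G r|) q := by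
        rw [abs_le]
        constructor
        · have h3 := hP.mono hL (F := fun r => (-1 : ℝ) * |G r|) (G := G)
            (fun r => by
              have := neg_abs_le (G r)
              linarith) q
          rw [PosOp.smul hL (-1) (fun r => |G r|)] at h3
          linarith
        · exact hP.mono hL (fun r => le_abs_self _) q
      rw [h1 q hq hA] at h2
      exact h2) p
  exact abs_eq_zero.1 h

theorem MajR.injC (h : MajR c d X) : InjN (AX X) (ringC c d X) := injN_ringC h.injN

/-- **The iterated rings tend to 0 on the non-empty states.** -/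
theorem MajR.iter [Finite α] (h : MajR c d X) (hn : X.Nodup) (hcd : c ≠ d) (hc : c ∉ X) (hd : d ∉ X)
    (F : Pat α → ℝ) {p : Pat α} (hp : p ≠ Pat.empty) (hA : AX X p) :
    Tendsto (fun n => (ringH c d X)^[n] F p) atTop (𝓝 0) :=
  iterate_tendsto (ringH_pos c d X) (lin_ringH c d X) (pres_ringF _ hn hcd hc hd)
    (fun q _ => congrFun (ringF_ind _ hcd hc) q) h.injN h F hp hA

end Pool.Agent.NUG
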