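import Pool.Agent.NUG.Reach
import Pool.Agent.NUG.Conv

/-!
# Irreducibility of the ring, the form of `NUF/Ring`
-/

set_option autoImplicit false

namespace Pool.Agent.NUG

open _root_.Pool.Agent.EXL _root_.Pool.Agent.EXL.Pat _root_.Pool.Agent.EXL.HS HexObs
open _root_.Pool.Agent.UNI.Mv (WP)

variable {α : Type*} [DecidableEq α]

variable {w : α → Wt ℝ} {i j : α} {X : List α} {p q : Pat α}

/-- **Irreducibility of the ring** (the form of `NUF/Ring`). -/
theorem ringF_irred (hw : ∀ x, WP (w x)) (hn : X.Nodup) (hi : i ∉ X) (hj : j ∉ X)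
    (hp : _root_.Pool.Agent.NUF.AX X p) (hpe : p ≠ Pat.empty)
    (hq : _root_.Pool.Agent.NUF.AX X q) (hqe : q ≠ Pat.empty) :
    ∃ m : ℕ, Leads ((_root_.Pool.Agent.NUF.ringF w i j X)^[m]) p q ∧
      0 < (_root_.Pool.Agent.NUF.ringF w i j X)^[m] (HS.ind q) p := by
  have e : _root_.Pool.Agent.NUF.ringF w i j X = ringF w j i X := by
    funext F
    exact ringF_eq w i j X F
  rw [e]
  obtain ⟨m, h⟩ := ring_irred (c := j) (d := i) hw hn hj hi hp hpe hq hqe
  exact ⟨m, h, Leads.ind_pos h⟩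

/-- **Irreducibility of the hexagonal ring** (the form of `NUF/Ring`). -/
theorem ringF_hex_irred (hn : X.Nodup) (hi : i ∉ X) (hj : j ∉ X)
    (hp : _root_.Pool.Agent.NUF.AX X p) (hpe : p ≠ Pat.empty)
    (hq : _root_.Pool.Agent.NUF.AX X q) (hqe : q ≠ Pat.empty) :
    ∃ m : ℕ, Leads ((_root_.Pool.Agent.NUF.ringF (fun _ => hexW xc) i j X)^[m]) p q ∧
      0 < (_root_.Pool.Agent.NUF.ringF (fun _ => hexW xc) i j X)^[m] (HS.ind q) p :=
  ringF_irred (fun _ => hexW_WP xc_pos) hn hi hj hp hpe hq hqe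

end Pool.Agent.NUG
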