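import Pool.Agent.NUG.Ring

/-!
# The braid line slides over planar states

`Braid w`: the weights of a rhombus at `u = ± i ∞`.  A line with these weights passes over all rows of a
planar state without any effect; so the double column with one such line is the ring.
-/

set_option autoImplicit false

namespace Pool.Agent.NUG

open _root_.Pool.Agent.EXL _root_.Pool.Agent.EXL.Pat _root_.Pool.Agent.EXL.HS HexObs Filter Topology
open _root_.Pool.Agent.NUF

variable {α K : Type*} [DecidableEq α] [CommRing K]

/-- The weights of a braid crossing. -/
structure Braid (w : Wt K) : Prop where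
  v : w.v = 1
  u1 : w.u1 = 0
  u2 : w.u2 = 0
  a : w.w1 * w.w2 = 1
  b : w.w1 ^ 2 + w.w2 ^ 2 = 0

/-- The segment `L` is closed under `p` and planar. -/
inductive Cl (p : Pat α) : List α → Prop
  | nil : Cl p []
  | emp {r : α} {L : List α} (h : p r = r) (hL : Cl p L) : Cl p (r :: L)
  | arc {r r' : α} {A B : List α} (h : p r = r') (hA : Cl p A) (hB : Cl p B) :
      Cl p (r :: (A ++ r' :: B))

omit [DecidableEq α] in
theorem Cl.closed {p : Pat α} {L : List α} (h : Cl p L) : ∀ x ∈ L, p x ∈ L := by
  induction h with
  | nil => intro x hx; exact absurd hx (by simp)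
  | emp h _ ih =>
    intro x hx
    rw [List.mem_cons] at hx
    rcases hx with rfl | hx
    · rw [h]; simp
    · exact List.mem_cons_of_mem _ (ih x hx)
  | @arc r r' A B h _ _ ihA ihB =>
    intro x hx
    rw [List.mem_cons, List.mem_append, List.mem_cons] at hx
    rw [List.mem_cons, List.mem_append, List.mem_cons]
    rcases hx with rfl | hx | rfl | hx
    · exact Or.inr (Or.inr (Or.inl h))
    · exact Or.inr (Or.inl (ihA x hx))
    · rw [← h, p.inv]; exact Or.inl rfl
    · exact Or.inr (Or.inr (Or.inr (ihB x hx)))

theorem slide_empty {w : Wt K} (hw : Braid w) {j : α} (L : List α) {p : Pat α} (hj : p j = j)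
    (G : Pat α → K) : M (fun _ => w) j L G p = G p := by
  induction L with
  | nil => rfl
  | cons r L ih =>
    rw [M_cons]
    unfold R
    by_cases hr : p r = r
    · rw [if_pos hj, if_pos hr, hw.u2, zero_mul, add_zero, ih]
    · rw [if_pos hj, if_neg hr, hw.v, hw.u1, zero_mul, add_zero, one_mul, ih]

/-- **The slide.** -/
theorem slide {w : Wt K} (hw : Braid w) {j : α} {p : Pat α} {L : List α} (hL : Cl p L) :
    L.Nodup → j ∉ L → ∀ q : Pat α, (∀ x ∈ L, q x = p x) → ∀ G : Pat α → K,
      M (fun _ => w) j L G q = G q := by
  induction hL with
  | nil => intro _ _ q _ G; rfl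
  | @emp r L h hL ih =>
    intro hn hj q hq G
    have hjr : j ≠ r := fun e => hj (by simp [e])
    have hqr : q r = r := by rw [hq r (by simp), h]
    have h1 := ih (List.nodup_cons.1 hn).2 (fun h' => hj (by simp [h'])) q
      (fun x hx => hq x (by simp [hx])) G
    rw [M_cons]
    unfold R
    by_cases hqj : q j = j
    · rw [if_pos hqj, if_pos hqr, hw.u2, zero_mul, add_zero, h1]
    · rw [if_neg hqj, if_pos hqr, hw.v, hw.u1, zero_mul, add_zero, one_mul, h1]
  | @arc r r' A B h hA hB ihA ihB =>
    intro hn hj q hq G
    by_cases hqj : q j = j
    · exact slide_empty hw _ hqj G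
    have hcl := (Cl.arc h hA hB).closed
    set m := q j with hm
    have hn1 := List.nodup_cons.1 hn
    have hn2 := List.nodup_append.1 hn1.2
    have hn3 := List.nodup_cons.1 hn2.2.1
    have hrr' : r ≠ r' := fun e => hn1.1 (by simp [e])
    have hrA : r ∉ A := fun h' => hn1.1 (by simp [h'])
    have hr'A : r' ∉ A := fun h' => hn2.2.2 r' h' r' (by simp) rfl
    have hjr : j ≠ r := fun e => hj (by simp [e])
    have hjr' : j ≠ r' := fun e => hj (by simp [e])
    have hjA : j ∉ A := fun h' => hj (by simp [h'])
    have hjB : j ∉ B := fun h' => hj (by simp [h'])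
    have hqr : q r = r' := by rw [hq r (by simp), h]
    have hqr' : q r' = r := by rw [← hqr, q.inv]
    have hmL : m ∉ r :: (A ++ r' :: B) := by
      intro hmem
      apply hj
      have h1 := hcl m hmem
      rw [← hq m hmem, hm, q.inv] at h1
      exact h1
    have hmr : m ≠ r := fun e => hmL (by simp [e])
    have hmr' : m ≠ r' := fun e => hmL (by simp [e])
    have hqm : q m = j := by rw [hm, q.inv]
    have hqA : ∀ x ∈ A, q x ∈ A := fun x hx => by
      rw [hq x (by simp [hx])]
      exact hA.closed x hx
    -- the two states after the first crossing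
    set q1 := swap j r q with hq1
    set q2 := cup j r (cut j r q) with hq2
    have hqr0 : q r ≠ r := by rw [hqr]; exact hrr'.symm
    have hqjr : q j ≠ r := hmr
    have cutA : ∀ x, cut j r q x = if x = j then j else if x = r then r else if x = m then r'
        else if x = r' then m else q x := by
      intro x
      rw [pcut_apply hjr hqj hqr0 hqjr, hqr]
    have e1 : cut j r q j = j := by rw [cutA]; simp
    have e2 : cut j r q r = r := by rw [cutA]; simp [hjr.symm]
    have q2A : ∀ x, q2 x = if x = j then r else if x = r then j else if x = m then r'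
        else if x = r' then m else q x := by
      intro x
      rw [hq2, pcup_apply e1 e2, cutA]
      by_cases x1 : x = j
      · simp [x1]
      · by_cases x2 : x = r
        · simp [x1, x2]
        · simp [x1, x2]
    have q1A : ∀ x, q1 x = if x = j then r' else if x = r' then j else if x = r then m
        else if x = m then r else q x := by
      intro x
      rw [hq1, pswap_apply]
      by_cases x1 : x = j
      · rw [x1, Equiv.swap_apply_left, hqr, if_pos rfl, Equiv.swap_apply_of_ne_of_ne hjr'.symm hrr'.symm]
      · by_cases x2 : x = r
        · rw [x2, Equiv.swap_apply_right, if_neg hjr.symm, if_neg hrr', if_pos rfl,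
            Equiv.swap_apply_of_ne_of_ne (by rw [← hm]; exact hqj) (by rw [← hm]; exact hmr)]
        · rw [Equiv.swap_apply_of_ne_of_ne x1 x2, if_neg x1, if_neg x2]
          by_cases x3 : x = r'
          · rw [x3, hqr', Equiv.swap_apply_right, if_pos rfl]
          · by_cases x4 : x = m
            · rw [x4, hqm, Equiv.swap_apply_left, if_neg hmr', if_pos rfl]
            · rw [if_neg x3, if_neg x4, Equiv.swap_apply_of_ne_of_ne]
              · intro e
                apply x4
                rw [hm, ← e, q.inv]
              · intro e
                apply x3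
                rw [← hqr, ← e, q.inv]
    have hA1 : ∀ x ∈ A, q1 x = p x := by
      intro x hx
      have x1 : x ≠ j := fun e => hjA (e ▸ hx)
      have x2 : x ≠ r := fun e => hrA (e ▸ hx)
      have x3 : x ≠ r' := fun e => hr'A (e ▸ hx)
      have x4 : x ≠ m := fun e => hmL (by rw [← e]; simp [hx])
      rw [q1A, if_neg x1, if_neg x3, if_neg x2, if_neg x4, hq x (by simp [hx])]
    have hA2 : ∀ x ∈ A, q2 x = p x := by
      intro x hx
      have x1 : x ≠ j := fun e => hjA (e ▸ hx)
      have x2 : x ≠ r := fun e => hrA (e ▸ hx)
      have x3 : x ≠ r' := fun e => hr'A (e ▸ hx)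
      have x4 : x ≠ m := fun e => hmL (by rw [← e]; simp [hx])
      rw [q2A, if_neg x1, if_neg x2, if_neg x4, if_neg x3, hq x (by simp [hx])]
    have IA : ∀ (Q : Pat α) (hQ : ∀ x ∈ A, Q x = p x) (H : Pat α → K),
        M (fun _ => w) j A H Q = H Q := fun Q hQ H => ihA hn2.1 hjA Q hQ H
    have IB := ihB hn3.2 hjB q (fun x hx => hq x (by simp [hx])) G
    set KK := M (fun _ => w) j B G with hKK
    -- the second crossing
    have s1 : R w j r' KK q1 = w.w1 * KK q1 :=
      R_p hjr' (by rw [q1A, if_pos rfl])
    have f1 : q2 j = r := by rw [q2A, if_pos rfl]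
    have f2 : q2 r' = m := by
      rw [q2A, if_neg hjr'.symm, if_neg hrr'.symm, if_neg hmr'.symm, if_pos rfl]
    have t1 : swap j r' q2 = q := by
      ext x
      rw [pswap_apply]
      by_cases x1 : x = j
      · rw [x1, Equiv.swap_apply_left, f2, Equiv.swap_apply_of_ne_of_ne (by rw [hm]; exact hqj) hmr', hm]
      · by_cases x2 : x = r'
        · rw [x2, Equiv.swap_apply_right, f1, Equiv.swap_apply_of_ne_of_ne hjr.symm hrr', hqr']
        · rw [Equiv.swap_apply_of_ne_of_ne x1 x2, q2A, if_neg x1]
          by_cases x3 : x = r
          · rw [if_pos x3, Equiv.swap_apply_left, x3, hqr]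
          · by_cases x4 : x = m
            · rw [if_neg x3, if_pos x4, Equiv.swap_apply_right, x4, hqm]
            · rw [if_neg x3, if_neg x4, if_neg x2, Equiv.swap_apply_of_ne_of_ne]
              · intro e
                apply x4
                rw [hm, ← e, q.inv]
              · intro e
                apply x3
                rw [← hqr', ← e, q.inv]
    have g1 : q2 j ≠ j := by rw [f1]; exact hjr.symm
    have g2 : q2 r' ≠ r' := by rw [f2]; exact hmr'
    have g3 : q2 j ≠ r' := by rw [f1]; exact hrr'
    have c1 := cut_left hjr' g1 g2 g3
    have c2 := cut_right hjr' g1 g2 g3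
    have t2 : cup j r' (cut j r' q2) = q1 := by
      ext x
      rw [pcup_apply c1 c2, q1A, pcut_apply hjr' g1 g2 g3, f1, f2, q2A]
      by_cases x1 : x = j
      · simp [x1]
      · by_cases x2 : x = r'
        · simp [x1, x2]
        · by_cases x3 : x = r
          · simp [x3, hrr', hjr.symm]
          · by_cases x4 : x = m
            · simp [x4, hmr, hmr', hqj]
            · simp [x1, x2, x3, x4]
    have s2 : R w j r' KK q2 = w.w1 * KK q + w.w2 * KK q1 := by
      rw [R_d g1 g2 g3 t1 rfl t2, hw.u2, zero_mul, add_zero]
    rw [M_cons, R_d hqj hqr0 hqjr rfl rfl rfl, hw.u2, zero_mul, add_zero, M_append, IA _ hA1, IA _ hA2,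
      M_cons, ← hKK, s1, s2]
    have hfin : w.w1 * (w.w1 * KK q1) + w.w2 * (w.w1 * KK q + w.w2 * KK q1) = KK q := by
      linear_combination KK q * hw.a + KK q1 * hw.b
    rw [hfin, hKK]
    exact IB

/-! ### Planar states are closed -/

/-- Non-crossing inside a closed segment. -/
def NCL (L : List α) (p : Pat α) : Prop :=
  ∀ a ∈ L, ∀ b ∈ L, L.idxOf a < L.idxOf b → L.idxOf b < L.idxOf (p a) →
    L.idxOf a < L.idxOf (p b) ∧ L.idxOf (p b) < L.idxOf (p a)

theorem cl_of_ncl {p : Pat α} : ∀ (n : ℕ) (L : List α), L.length ≤ n → L.Nodup →
    (∀ x ∈ L, p x ∈ L) → NCL L p → Cl p L := by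
  intro n
  induction n with
  | zero =>
    intro L hL _ _ _
    rw [List.length_eq_zero_iff.1 (Nat.le_zero.1 hL)]
    exact Cl.nil
  | succ n ih =>
    intro L hL hn hcl hnc
    cases L with
    | nil => exact Cl.nil
    | cons r L' =>
      have hn1 := List.nodup_cons.1 hn
      have hlen : L'.length ≤ n := by simpa using hL
      by_cases hr : p r = r
      · refine Cl.emp hr (ih L' hlen hn1.2 ?_ ?_)
        · intro x hx
          have h1 := hcl x (by simp [hx])
          rw [List.mem_cons] at h1
          rcases h1 with h1 | h1
          · exfalso
            have : x = r := by rw [← p.inv x, h1, hr]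
            exact hn1.1 (this ▸ hx)
          · exact h1
        · intro a ha b hb hab hba
          have ne : ∀ x ∈ L', x ≠ r := fun x hx e => hn1.1 (e ▸ hx)
          have memp : ∀ x ∈ L', p x ≠ r := by
            intro x hx e
            have : x = r := by rw [← p.inv x, e, hr]
            exact ne x hx this
          have h1 := hnc a (by simp [ha]) b (by simp [hb])
          rw [idx_cons_ne (ne a ha), idx_cons_ne (ne b hb), idx_cons_ne (memp a ha),
            idx_cons_ne (memp b hb)] at h1
          have h2 := h1 (by omega) (by omega)
          omega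
      · have hmem := hcl r (by simp)
        rw [List.mem_cons] at hmem
        have hmem' := hmem.resolve_left hr
        obtain ⟨A, B, hAB⟩ := List.append_of_mem hmem'
        set r' := p r with hr'
        subst hAB
        have hn2 := List.nodup_append.1 hn1.2
        have hn3 := List.nodup_cons.1 hn2.2.1
        have hr'A : r' ∉ A := fun h' => hn2.2.2 r' h' r' (by simp) rfl
        have hr'B : r' ∉ B := hn3.1
        have hrA : r ∉ A := fun h' => hn1.1 (by simp [h'])
        have hrB : r ∉ B := fun h' => hn1.1 (by simp [h'])
        have hpr' : p r' = r := by rw [hr', p.inv]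
        have hAB : ∀ x ∈ A, x ∉ B := fun x hx hxB => hn2.2.2 x hx x (by simp [hxB]) rfl
        have jr : (r :: (A ++ r' :: B)).idxOf r = 0 := idx_cons_self _ _
        have jr' : (r :: (A ++ r' :: B)).idxOf r' = A.length + 1 := by
          rw [idx_cons_ne hr, idx_right hr'A, idx_cons_self, Nat.add_zero]
        have jA : ∀ x ∈ A, (r :: (A ++ r' :: B)).idxOf x = A.idxOf x + 1 := by
          intro x hx
          have : x ≠ r := fun e => hrA (e ▸ hx)
          rw [idx_cons_ne this, idx_left hx]
        have jB : ∀ x ∈ B, (r :: (A ++ r' :: B)).idxOf x = A.length + B.idxOf x + 2 := by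
          intro x hx
          have h1 : x ≠ r := fun e => hrB (e ▸ hx)
          have h2 : x ∉ A := fun h' => hAB x h' hx
          have h3 : x ≠ r' := fun e => hr'B (e ▸ hx)
          rw [idx_cons_ne h1, idx_right h2, idx_cons_ne h3]
          omega
        have lA : ∀ x ∈ A, A.idxOf x < A.length := fun x hx => List.idxOf_lt_length_of_mem hx
        have pne : ∀ x, x ≠ r → x ≠ r' → p x ≠ r ∧ p x ≠ r' := by
          intro x h1 h2
          constructor
          · intro e
            apply h2
            rw [← p.inv x, e]
          · intro e
            apply h1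
            rw [← p.inv x, e, hpr']
        have clA : ∀ x ∈ A, p x ∈ A := by
          intro x hx
          have x1 : x ≠ r := fun e => hrA (e ▸ hx)
          have x2 : x ≠ r' := fun e => hr'A (e ▸ hx)
          have h1 := hcl x (by simp [hx])
          obtain ⟨h2, h3⟩ := pne x x1 x2
          rw [List.mem_cons, List.mem_append, List.mem_cons] at h1
          rcases h1 with h1 | h1 | h1 | h1
          · exact absurd h1 h2
          · exact h1
          · exact absurd h1 h3
          · exfalso
            have h4 := hnc r (by simp) x (by simp [hx]) (by rw [jr, jA x hx]; omega)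
              (by rw [jA x hx, ← hr', jr']; have := lA x hx; omega)
            rw [jB _ h1, ← hr', jr'] at h4
            omega
        have clB : ∀ x ∈ B, p x ∈ B := by
          intro x hx
          have x1 : x ≠ r := fun e => hrB (e ▸ hx)
          have x2 : x ≠ r' := fun e => hr'B (e ▸ hx)
          have h1 := hcl x (by simp [hx])
          obtain ⟨h2, h3⟩ := pne x x1 x2
          rw [List.mem_cons, List.mem_append, List.mem_cons] at h1
          rcases h1 with h1 | h1 | h1 | h1
          · exact absurd h1 h2
          · exfalso
            have h4 := clA _ h1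
            rw [p.inv] at h4
            exact hAB x h4 hx
          · exact absurd h1 h3
          · exact h1
        have hlA : A.length ≤ n := by
          simp only [List.length_append, List.length_cons] at hlen
          omega
        have hlB : B.length ≤ n := by
          simp only [List.length_append, List.length_cons] at hlen
          omega
        refine Cl.arc hr'.symm (ih A hlA hn2.1 clA ?_) (ih B hlB hn3.2 clB ?_)
        · intro a ha b hb hab hba
          have h1 := hnc a (by simp [ha]) b (by simp [hb])
          rw [jA a ha, jA b hb, jA _ (clA a ha), jA _ (clA b hb)] at h1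
          have h2 := h1 (by omega) (by omega)
          omega
        · intro a ha b hb hab hba
          have h1 := hnc a (by simp [ha]) b (by simp [hb])
          rw [jB a ha, jB b hb, jB _ (clB a ha), jB _ (clB b hb)] at h1
          have h2 := h1 (by omega) (by omega)
          omega

theorem cl_of_ax {X : List α} (hn : X.Nodup) {p : Pat α} (h : AX X p) : Cl p X := by
  refine cl_of_ncl X.length X le_rfl hn (fun x hx => ?_) ?_
  · by_contra h'
    have h1 := ax_out h h'
    rw [p.inv] at h1
    exact h' (h1 ▸ hx)
  · intro a _ b _ hab hba
    have h1 := h.nc a b (by exact_mod_cast hab) (by exact_mod_cast hba)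
    exact_mod_cast h1

/-- **The double column with a braid line is the ring.** -/
theorem dblF_braid {w : Wt K} (hw : Braid w) {κb κt : K} (hκ : κb * κt = 1) (wi : α → Wt K)
    {i j : α} {X : List α} (hn : X.Nodup) (hij : i ≠ j) (hi : i ∉ X) (hj : j ∉ X) (F : Pat α → K)
    {p : Pat α} (hp : AX X p) :
    dblF κb κt (fun _ => w) wi i j X F p = ringF wi i j X F p := by
  have hpi : p i = i := ax_out hp hi
  have hpj : p j = j := ax_out hp hj
  have hcl := cl_of_ax hn hp
  have hcup : ∀ x ∈ X, cup i j p x = p x := by
    intro x hx
    have x1 : x ≠ i := fun e => hi (e ▸ hx)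
    have x2 : x ≠ j := fun e => hj (e ▸ hx)
    rw [pcup_apply hpi hpj, if_neg x1, if_neg x2]
  -- the line `i` does not change the occupation of `j`
  have key0 : ∀ (L : List α), j ∉ L → ∀ (κ κ' : K) (q : Pat α), q j = j →
      M wi i L (topF κ i j F) q = M wi i L (topF κ' i j F) q := by
    intro L
    induction L with
    | nil =>
      intro _ κ κ' q hq
      simp only [M_nil, topF, if_pos hq]
    | cons r L ih =>
      intro hjL κ κ' q hq
      have hjr : j ≠ r := fun e => hjL (by simp [e])
      have ih' := ih (fun h => hjL (by simp [h]))
      rw [M_cons, M_cons]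
      have hsw : swap i r q j = j := by
        rw [pswap_apply, Equiv.swap_apply_of_ne_of_ne hij.symm hjr, hq,
          Equiv.swap_apply_of_ne_of_ne hij.symm hjr]
      unfold R
      by_cases h1 : q i = i
      · by_cases h2 : q r = r
        · have hcu : cup i r q j = j := by
            rw [pcup_apply h1 h2, if_neg hij.symm, if_neg hjr, hq]
          rw [if_pos h1, if_pos h2, if_pos h1, if_pos h2, ih' κ κ' q hq, ih' κ κ' _ hcu]
        · rw [if_pos h1, if_neg h2, if_pos h1, if_neg h2, ih' κ κ' q hq, ih' κ κ' _ hsw]
      · by_cases h2 : q r = r
        · rw [if_neg h1, if_pos h2, if_neg h1, if_pos h2, ih' κ κ' q hq, ih' κ κ' _ hsw]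
        · by_cases h3 : q i = r
          · rw [if_neg h1, if_neg h2, if_pos h3, if_neg h1, if_neg h2, if_pos h3, ih' κ κ' q hq]
          · rw [if_neg h1, if_neg h2, if_neg h3, if_neg h1, if_neg h2, if_neg h3]
            by_cases hir : i = r
            · have hcc : cut i r q = q := by
                ext x
                simp [Pat.cut, hir]
              rw [hcc, ih' κ κ' _ hsw, ih' κ κ' _ hq]
              by_cases h4 : cup i r q = q
              · rw [h4, ih' κ κ' _ hq]
              · exfalso
                apply h4
                ext x
                simp [Pat.cup, h1]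
            · have hct : cut i r q j = j := by
                rw [pcut_apply hir h1 h2 h3, if_neg hij.symm, if_neg hjr]
                by_cases e1 : j = q i
                · exfalso
                  apply hij
                  rw [← q.inv i, ← e1, hq]
                · by_cases e2 : j = q r
                  · exfalso
                    apply hjr
                    rw [← q.inv r, ← e2, hq]
                  · rw [if_neg e1, if_neg e2, hq]
              have a1 := cut_left hir h1 h2 h3
              have a2 := cut_right hir h1 h2 h3
              have hcu : cup i r (cut i r q) j = j := by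
                rw [pcup_apply a1 a2, if_neg hij.symm, if_neg hjr, hct]
              rw [ih' κ κ' _ hsw, ih' κ κ' _ hct, ih' κ κ' _ hcu]
  have key1 : ∀ (L : List α), j ∉ L → ∀ (κ κ' : K) (q : Pat α), q j ≠ j →
      κ' * M wi i L (topF κ i j F) q = κ * M wi i L (topF κ' i j F) q := by
    intro L
    induction L with
    | nil =>
      intro _ κ κ' q hq
      simp only [M_nil, topF, if_neg hq]
      split_ifs <;> ring
    | cons r L ih =>
      intro hjL κ κ' q hq
      have hjr : j ≠ r := fun e => hjL (by simp [e])
      have ih' := ih (fun h => hjL (by simp [h])) κ κ'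
      rw [M_cons, M_cons]
      have hsw : swap i r q j ≠ j := by
        rw [pswap_apply, Equiv.swap_apply_of_ne_of_ne hij.symm hjr]
        intro e
        apply hq
        have := congrArg (Equiv.swap i r) e
        rwa [Equiv.swap_apply_self, Equiv.swap_apply_of_ne_of_ne hij.symm hjr] at this
      unfold R
      by_cases h1 : q i = i
      · by_cases h2 : q r = r
        · have hcu : cup i r q j ≠ j := by
            rw [pcup_apply h1 h2, if_neg hij.symm, if_neg hjr]
            exact hq
          rw [if_pos h1, if_pos h2, if_pos h1, if_pos h2]
          linear_combination ih' q hq + (wi r).u2 * ih' _ hcu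
        · rw [if_pos h1, if_neg h2, if_pos h1, if_neg h2]
          linear_combination (wi r).v * ih' q hq + (wi r).u1 * ih' _ hsw
      · by_cases h2 : q r = r
        · rw [if_neg h1, if_pos h2, if_neg h1, if_pos h2]
          linear_combination (wi r).v * ih' q hq + (wi r).u1 * ih' _ hsw
        · by_cases h3 : q i = r
          · rw [if_neg h1, if_neg h2, if_pos h3, if_neg h1, if_neg h2, if_pos h3]
            linear_combination (wi r).w1 * ih' q hq
          · rw [if_neg h1, if_neg h2, if_neg h3, if_neg h1, if_neg h2, if_neg h3]
            by_cases hir : i = r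
            · have hcc : cut i r q = q := by
                ext x
                simp [Pat.cut, hir]
              have h4 : cup i r q = q := by
                ext x
                simp [Pat.cup, h1]
              rw [hcc, h4]
              linear_combination (wi r).w1 * ih' _ hsw + (wi r).u2 * ih' _ hq + (wi r).w2 * ih' _ hq
            · have hct : cut i r q j ≠ j := by
                rw [pcut_apply hir h1 h2 h3, if_neg hij.symm, if_neg hjr]
                by_cases e1 : j = q i
                · rw [if_pos e1]
                  intro e
                  apply hir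
                  apply q.inj
                  rw [← e1, e]
                · by_cases e2 : j = q r
                  · rw [if_neg e1, if_pos e2]
                    exact fun e => e1 e.symm
                  · rw [if_neg e1, if_neg e2]
                    exact hq
              have a1 := cut_left hir h1 h2 h3
              have a2 := cut_right hir h1 h2 h3
              have hcu : cup i r (cut i r q) j ≠ j := by
                rw [pcup_apply a1 a2, if_neg hij.symm, if_neg hjr]
                exact hct
              linear_combination (wi r).w1 * ih' _ hsw + (wi r).u2 * ih' _ hct +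
                (wi r).w2 * ih' _ hcu
  unfold dblF ringF botF EXL.U
  rw [if_pos hpi, if_pos hpj, if_pos hpi, if_pos hpj, slide hw hcl hn hj p (fun _ _ => rfl),
    slide hw hcl hn hj _ hcup, ← topF_one, key0 X hj κt 1 p hpj]
  have hc : cup i j p j ≠ j := by
    rw [pcup_apply hpi hpj, if_neg hij.symm, if_pos rfl]
    exact hij
  have h1 := key1 X hj κt 1 (cup i j p) hc
  rw [one_mul] at h1
  rw [h1, ← mul_assoc, hκ, one_mul]

end Pool.Agent.NUG
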