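import Pool.Agent.NUG.Ring
import Pool.Agent.NUF.PGlue

/-!
# A ring cut at two places is a pair of open columns

`cutRing w c d X1 G X2` = the ring through the rows `X1 ++ G ++ X2` whose line is empty between `X1` and `G`
and between `G` and `X2`.  It is the product of the column through `X2 ++ X1` and the column through `G`.
-/

set_option autoImplicit false

namespace Pool.Agent.NUG

open _root_.Pool.Agent.EXL _root_.Pool.Agent.EXL.Pat _root_.Pool.Agent.EXL.HS HexObs Filter Topology
open _root_.Pool.Agent.NUF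

variable {α K : Type*} [DecidableEq α] [CommRing K]

section loc

variable {w : α → Wt K} {a c d e i j : α} {L : List α}

theorem M_isLoc (w : α → Wt K) {c : α} {L : List α} (hc : c ∉ L) :
    IsLoc (insert c {x | x ∈ L}) (M w c L : (Pat α → K) → _) := by
  induction L with
  | nil => exact IsLoc.id _
  | cons r L ih =>
    have hcr : c ≠ r := fun h => hc (by simp [h])
    have h1 := ih (fun h => hc (by simp [h]))
    have h2 : IsLoc (insert c {x | x ∈ r :: L}) (R (w r) c r : (Pat α → K) → _) :=
      (R_isLoc (w r) hcr).mono (by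
        intro x hx
        simp only [Set.mem_insert_iff, Set.mem_singleton_iff, Set.mem_ofPred_eq, List.mem_cons] at hx ⊢
        tauto)
    have h3 : IsLoc (insert c {x | x ∈ r :: L}) (M w c L : (Pat α → K) → _) :=
      h1.mono (by
        intro x hx
        simp only [Set.mem_insert_iff, Set.mem_ofPred_eq, List.mem_cons] at hx ⊢
        tauto)
    exact h2.comp h3

theorem M_emp_comm (w : α → Wt K) (hac : a ≠ c) (hc : c ∉ L) (ha : a ∉ L) (F : Pat α → K) :
    emp a (M w c L F) = M w c L (emp a F) := by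
  refine (emp_isLoc a).comm (M_isLoc w hc) ?_ F
  rw [Set.disjoint_left]
  intro x hx hx'
  simp only [Set.mem_insert_iff, Set.mem_singleton_iff, Set.mem_ofPred_eq] at hx hx'
  subst hx
  rcases hx' with h | h
  · exact hac h
  · exact ha h

theorem emp_emp_comm (a c : α) (F : Pat α → K) : emp a (emp c F) = emp c (emp a F) := by
  funext p
  simp only [emp]
  split_ifs <;> rfl

theorem emp_emp_self (a : α) (F : Pat α → K) : emp a (emp a F) = emp a F := by
  funext p
  simp only [emp]
  split_ifs <;> rfl

theorem U_emp_comm (hec : e ≠ c) (hed : e ≠ d) (F : Pat α → K) :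
    emp e (EXL.U c d F) = EXL.U c d (emp e F) := by
  refine (emp_isLoc e).comm (U_isLoc c d) ?_ F
  rw [Set.disjoint_left]
  intro x hx hx'
  simp only [Set.mem_insert_iff, Set.mem_singleton_iff] at hx hx'
  subst hx
  rcases hx' with h | h
  · exact hec h
  · exact hed h

theorem M_U_comm (w : α → Wt K) (hac : a ≠ c) (had : a ≠ d) (ha : a ∉ L) (hc : c ∉ L) (hd : d ∉ L)
    (F : Pat α → K) : M w a L (EXL.U c d F) = EXL.U c d (M w a L F) := by
  refine (M_isLoc w ha).comm (U_isLoc c d) ?_ F
  rw [Set.disjoint_left]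
  intro x hx hx'
  simp only [Set.mem_insert_iff, Set.mem_singleton_iff, Set.mem_ofPred_eq] at hx hx'
  rcases hx' with rfl | rfl
  · rcases hx with h | h
    · exact hac h.symm
    · exact hc h
  · rcases hx with h | h
    · exact had h.symm
    · exact hd h

theorem M_M_comm (w : α → Wt K) {L L' : List α} (hac : a ≠ c) (haL : a ∉ L) (haL' : a ∉ L')
    (hcL : c ∉ L) (hcL' : c ∉ L') (hd : ∀ x ∈ L, x ∉ L') (F : Pat α → K) :
    M w a L (M w c L' F) = M w c L' (M w a L F) := by
  refine (M_isLoc w haL).comm (M_isLoc w hcL') ?_ F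
  rw [Set.disjoint_left]
  intro x hx hx'
  simp only [Set.mem_insert_iff, Set.mem_ofPred_eq] at hx hx'
  rcases hx with rfl | hx
  · rcases hx' with h | h
    · exact hac h
    · exact haL' h
  · rcases hx' with h | h
    · exact hcL (h ▸ hx)
    · exact hd x hx h

theorem glue_M_comm (w : α → Wt K) (hij : i ≠ j) (hci : c ≠ i) (hcj : c ≠ j) (hc : c ∉ L) (hi : i ∉ L)
    (hj : j ∉ L) (F : Pat α → K) : glue i j (M w c L F) = M w c L (glue i j F) := by
  refine (glue_isLoc hij).comm (M_isLoc w hc) ?_ F
  rw [Set.disjoint_left]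
  intro x hx hx'
  simp only [Set.mem_insert_iff, Set.mem_singleton_iff, Set.mem_ofPred_eq] at hx hx'
  rcases hx with rfl | rfl
  · rcases hx' with h | h
    · exact hci h.symm
    · exact hi h
  · rcases hx' with h | h
    · exact hcj h.symm
    · exact hj h

theorem glue_emp_comm (hij : i ≠ j) (hci : c ≠ i) (hcj : c ≠ j) (F : Pat α → K) :
    glue i j (emp c F) = emp c (glue i j F) := by
  refine (glue_isLoc hij).comm (emp_isLoc c) ?_ F
  rw [Set.disjoint_left]
  intro x hx hx'
  simp only [Set.mem_insert_iff, Set.mem_singleton_iff] at hx hx'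
  subst hx'
  rcases hx with h | h
  · exact hci h
  · exact hcj h

/-! ### Renaming of the line -/

/-- Exchange of the two sites `c` and `e`, as an embedding of the set of sites. -/
def swEmb (c e : α) : Pat.Emb α α where
  φ := Equiv.swap c e
  inj := (Equiv.swap c e).injective
  p₀ := Pat.empty
  closed := fun b => ⟨b, rfl⟩

theorem swEmb_st (c e : α) (q : Pat α) : (swEmb c e).st q = swap c e q := by
  ext x
  obtain ⟨y, rfl⟩ : ∃ y, Equiv.swap c e y = x := ⟨Equiv.swap c e x, Equiv.swap_apply_self c e x⟩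
  change (swEmb c e).st q ((swEmb c e).φ y) = _
  rw [Pat.Emb.st_apply, pswap_apply, Equiv.swap_apply_self]
  rfl

theorem sw_R (w : Wt K) {r : α} (hcr : c ≠ r) (her : e ≠ r) (F : Pat α → K) :
    sw c e (R w c r F) = R w e r (sw c e F) := by
  funext p
  have h := R_st w (swEmb c e) e r F p
  have h1 : (swEmb c e).φ e = c := Equiv.swap_apply_right c e
  have h2 : (swEmb c e).φ r = r := Equiv.swap_apply_of_ne_of_ne hcr.symm her.symm
  simp only [h1, h2, swEmb_st] at h
  exact h

theorem sw_M (w : α → Wt K) (hc : c ∉ L) (he : e ∉ L) (F : Pat α → K) :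
    sw c e (M w c L F) = M w e L (sw c e F) := by
  induction L with
  | nil => rfl
  | cons r L ih =>
    have hcr : c ≠ r := fun h => hc (by simp [h])
    have her : e ≠ r := fun h => he (by simp [h])
    rw [M_cons, M_cons, sw_R (w r) hcr her, ih (fun h => hc (by simp [h])) (fun h => he (by simp [h]))]

theorem sw_glue (hcd : c ≠ d) (hed : e ≠ d) (F : Pat α → K) :
    sw c e (glue c d F) = glue e d (sw c e F) := by
  funext p
  have h := glue_st (swEmb c e) F p e d
  have h1 : (swEmb c e).φ e = c := Equiv.swap_apply_right c e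
  have h2 : (swEmb c e).φ d = d := Equiv.swap_apply_of_ne_of_ne hcd.symm hed.symm
  simp only [h1, h2, swEmb_st] at h
  exact h

theorem sw_emp (c e : α) (F : Pat α → K) : sw c e (emp c F) = emp e (sw c e F) := by
  funext p
  have h := emp_st (swEmb c e) F p e
  have h1 : (swEmb c e).φ e = c := Equiv.swap_apply_right c e
  simp only [h1, swEmb_st] at h
  exact h

theorem emp_sw (c e : α) (F : Pat α → K) : emp c (emp e (sw c e F)) = emp c (emp e F) := by
  funext p
  simp only [emp, sw]
  split_ifs with h1 h2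
  · rw [swap_empty2 h1 h2]
  · rfl
  · rfl

end loc

/-- The ring whose line is empty between `X1` and `G` and between `G` and `X2`. -/
def cutRing (w : α → Wt K) (c d : α) (X1 G X2 : List α) (F : Pat α → K) : Pat α → K :=
  EXL.U c d (M w c X1 (emp c (M w c G (emp c (M w c X2 (glue c d F))))))

theorem cutRing_eq0 (w : α → Wt K) {c d e : α} {X1 G X2 : List α} (hn : (X1 ++ (G ++ X2)).Nodup)
    (hcd : c ≠ d) (hce : c ≠ e) (hde : d ≠ e) (hc : c ∉ X1 ++ (G ++ X2)) (hd : d ∉ X1 ++ (G ++ X2))
    (he : e ∉ X1 ++ (G ++ X2)) {F : Pat α → K} {p : Pat α} (hpc : p c = c) (hpd : p d = d)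
    (hpe : p e = e) (hF : sw c e F = F) :
    cutRing w c d X1 G X2 F p = colF w e (X2 ++ X1) (colF w e G F) p := by
  simp only [List.mem_append, not_or] at hc hd he
  obtain ⟨hc1, hcG, hc2⟩ := hc
  obtain ⟨hd1, hdG, hd2⟩ := hd
  obtain ⟨he1, heG, he2⟩ := he
  have hn1 := List.nodup_append.1 hn
  have hn2 := List.nodup_append.1 hn1.2.1
  have dis21 : ∀ x ∈ X2, x ∉ X1 := fun x hx hx1 => hn1.2.2 x hx1 x (by simp [hx]) rfl
  have dis2G : ∀ x ∈ X2, x ∉ G := fun x hx hxG => hn2.2.2 x hxG x hx rfl
  set J := M w c X2 (glue c d F) with hJ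
  -- step 1
  have s1 : emp c (emp e J) = emp c (emp e (M w e X2 (glue e d F))) := by
    rw [← emp_sw c e J, hJ, sw_M w hc2 he2, sw_glue hcd hde.symm, hF]
  -- step 2
  have s2 : emp e (cutRing w c d X1 G X2 F) =
      EXL.U c d (M w c X1 (emp c (M w c G (emp c (emp e J))))) := by
    unfold cutRing
    rw [U_emp_comm hce.symm hde.symm, M_emp_comm w hce.symm hc1 he1, emp_emp_comm e c,
      M_emp_comm w hce.symm hcG heG, emp_emp_comm e c]
  -- step 3
  set H := glue e d F with hH
  have s3 : EXL.U c d (M w c X1 (emp c (M w c G (emp c (emp e (M w e X2 H)))))) =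
      emp e (M w e X2 (EXL.U c d (M w c X1 (emp c (M w c G (emp c H)))))) := by
    rw [emp_emp_comm c e, ← M_emp_comm w hce.symm hcG heG, emp_emp_comm c e,
      ← M_emp_comm w hce.symm hc1 he1, ← U_emp_comm hce.symm hde.symm,
      M_emp_comm w hce he2 hc2, M_M_comm w hce hcG hc2 heG he2 (fun x hx hx2 => dis2G x hx2 hx),
      M_emp_comm w hce he2 hc2, M_M_comm w hce hc1 hc2 he1 he2 (fun x hx hx2 => dis21 x hx2 hx),
      ← M_U_comm w hce.symm hde.symm he2 hc2 hd2]
  -- step 4
  have s4 : M w c X1 (emp c (M w c G (emp c H))) =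
      glue e d (M w c X1 (emp c (M w c G (emp c F)))) := by
    rw [hH, glue_M_comm w hde.symm hce hcd hc1 he1 hd1, glue_emp_comm hde.symm hce hcd,
      glue_M_comm w hde.symm hce hcd hcG heG hdG, glue_emp_comm hde.symm hce hcd]
  -- step 5
  have s5 : ∀ Z : Pat α → K, EXL.U c d (glue e d Z) = emp c (emp d (sw c e Z)) := by
    intro Z
    have hg : glue e d Z = glue d e Z := by
      funext q
      have h : q e = d ↔ q d = e := q.eq_comm'
      simp only [glue]
      by_cases e1 : q e = e
      · by_cases e2 : q d = d <;> simp [e1, e2]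
      · by_cases e2 : q d = d
        · simp [e1, e2]
        · by_cases e3 : q e = d
          · simp [e1, e2, e3, h.1 e3, hde]
          · have e4 : ¬ q d = e := fun e' => e3 (h.2 e')
            simp [e1, e2, e3, e4, cut_comm e d]
    funext q
    rw [hg, unl_UG hcd hce hde]
    simp only [emp, sw]
  have s6 : sw c e (M w c X1 (emp c (M w c G (emp c F)))) =
      M w e X1 (emp e (M w e G (emp e F))) := by
    rw [sw_M w hc1 he1, sw_emp, sw_M w hcG heG, sw_emp, hF]
  have e0 : cutRing w c d X1 G X2 F p = emp e (cutRing w c d X1 G X2 F) p := by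
    simp only [emp, if_pos hpe]
  rw [e0, s2, s1, s3, s4, s5, s6]
  have s7 : emp e (M w e X2 (emp c (emp d (M w e X1 (emp e (M w e G (emp e F))))))) =
      emp c (emp d (emp e (M w e X2 (M w e X1 (emp e (M w e G (emp e F))))))) := by
    rw [← M_emp_comm w hce he2 hc2, ← M_emp_comm w hde he2 hd2, emp_emp_comm e c, emp_emp_comm e d]
  rw [s7]
  simp only [emp, if_pos hpc, if_pos hpd]
  unfold colF
  rw [M_append, emp_emp_self]
  simp only [emp]

theorem glue_emp_left {c d : α} (hcd : c ≠ d) (F : Pat α → K) : glue c d (emp c F) = glue c d F := by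
  funext q
  simp only [glue]
  by_cases e1 : q c = c
  · by_cases e2 : q d = d <;> simp [e1, e2, emp]
  · by_cases e2 : q d = d
    · simp [e1, e2]
    · by_cases e3 : q c = d
      · simp [e1, e2, e3]
      · have : cut c d q c = c := by
          simp [Pat.cut, hcd, e1, e2, e3]
        simp [e1, e2, e3, emp, this]

/-- **The cut ring is a product of two open columns.** -/
theorem cutRing_eq (w : α → Wt K) {c d e : α} {X1 G X2 : List α} (hn : (X1 ++ (G ++ X2)).Nodup)
    (hcd : c ≠ d) (hce : c ≠ e) (hde : d ≠ e) (hc : c ∉ X1 ++ (G ++ X2)) (hd : d ∉ X1 ++ (G ++ X2))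
    (he : e ∉ X1 ++ (G ++ X2)) (F : Pat α → K) {p : Pat α} (hpc : p c = c) (hpd : p d = d)
    (hpe : p e = e) :
    cutRing w c d X1 G X2 F p = colF w e (X2 ++ X1) (colF w e G F) p := by
  have hF : sw c e (emp c (emp e F)) = emp c (emp e F) := by
    funext q
    rw [sw_emp, emp_emp_comm c e F]
    simp only [emp, sw]
    by_cases h1 : q e = e
    · by_cases h2 : q c = c
      · have h3 : swap c e q = q := swap_empty2 h2 h1
        simp [h1, h2, h3]
      · have h3 : ¬ swap c e q e = e := by
          rw [pswap_apply, Equiv.swap_apply_right]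
          intro h
          have := congrArg (Equiv.swap c e) h
          rw [Equiv.swap_apply_self, Equiv.swap_apply_right] at this
          exact h2 this
        simp [h1, h2, h3]
    · simp [h1]
  have h := cutRing_eq0 w hn hcd hce hde hc hd he hpc hpd hpe hF
  simp only [List.mem_append, not_or] at hc hd he
  obtain ⟨hc1, hcG, hc2⟩ := hc
  obtain ⟨hd1, hdG, hd2⟩ := hd
  obtain ⟨he1, heG, he2⟩ := he
  have a1 : cutRing w c d X1 G X2 (emp c (emp e F)) = emp e (cutRing w c d X1 G X2 F) := by
    unfold cutRing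
    rw [U_emp_comm hce.symm hde.symm, M_emp_comm w hce.symm hc1 he1, emp_emp_comm e c,
      M_emp_comm w hce.symm hcG heG, emp_emp_comm e c, M_emp_comm w hce.symm hc2 he2,
      ← glue_emp_comm hcd hce.symm hde.symm, glue_emp_left hcd]
  have a2 : colF w e (X2 ++ X1) (colF w e G (emp c (emp e F))) =
      emp c (colF w e (X2 ++ X1) (colF w e G F)) := by
    have hx : c ∉ X2 ++ X1 := by simp [hc1, hc2]
    have hy : e ∉ X2 ++ X1 := by simp [he1, he2]
    unfold colF
    rw [emp_emp_comm e c (emp e F), emp_emp_self, ← M_emp_comm w hce heG hcG,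
      emp_emp_self, emp_emp_self, emp_emp_comm e c, ← M_emp_comm w hce hy hx, emp_emp_comm e c]
  rw [a1, a2] at h
  simpa only [emp, if_pos hpe, if_pos hpc] using h

end Pool.Agent.NUG
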