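import Pool.Agent.NUG.Split1
import Pool.Agent.NUG.Maj
import Pool.Agent.NUF.PTens

/-!
# The ring dominates the product of two open columns

Planarity of unions, monotonicity, and the product of two functionals.
-/

set_option autoImplicit false

namespace Pool.Agent.NUG

open _root_.Pool.Agent.EXL _root_.Pool.Agent.EXL.Pat _root_.Pool.Agent.EXL.HS HexObs Filter Topology
open _root_.Pool.Agent.NUF

section planar

variable {α : Type*} [DecidableEq α]

/-- **Iterated rotation.** -/
theorem ax_rotL {L1 L2 : List α} {p : Pat α} (hn : (L1 ++ L2).Nodup) :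
    AX (L1 ++ L2) p ↔ AX (L2 ++ L1) p := by
  induction L1 generalizing L2 with
  | nil => simp
  | cons d L1 ih =>
    have hn' : (L1 ++ (L2 ++ [d])).Nodup := by
      rw [← List.append_assoc]
      exact (List.perm_append_singleton d (L1 ++ L2)).nodup_iff.2 hn
    have h1 : AX (d :: (L1 ++ L2)) p ↔ AX ((L1 ++ L2) ++ [d]) p := ax_rot hn
    rw [List.cons_append, h1, List.append_assoc, ih hn', List.append_assoc, List.singleton_append]

/-- The union of a planar state of a block and a planar state of the other rows. -/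
theorem ax_un {X1 G X2 : List α} (hn : (X1 ++ (G ++ X2)).Nodup) {p q : Pat α} (hp : AX G p)
    (hq : AX (X1 ++ X2) q) : Dj p q ∧ AX (X1 ++ (G ++ X2)) (un p q) := by
  have hn1 := List.nodup_append.1 hn
  have hn2 := List.nodup_append.1 hn1.2.1
  have d1G : ∀ x ∈ X1, x ∉ G := fun x hx hG => hn1.2.2 x hx x (by simp [hG]) rfl
  have dG1 : ∀ x ∈ G, x ∉ X1 := fun x hG hx => hn1.2.2 x hx x (by simp [hG]) rfl
  have dG2 : ∀ x ∈ G, x ∉ X2 := fun x hx hxG => hn2.2.2 x hx x hxG rfl
  have d2G : ∀ x ∈ X2, x ∉ G := fun x hx hxG => hn2.2.2 x hxG x hx rfl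
  have d12 : ∀ x ∈ X1, x ∉ X2 := fun x hx hx2 => hn1.2.2 x hx x (by simp [hx2]) rfl
  have d21 : ∀ x ∈ X2, x ∉ X1 := fun x hx hx1 => d12 x hx1 hx
  have hpG : ∀ x, x ∉ G → p x = x := fun x hx => ax_out hp hx
  have hqG : ∀ x, x ∈ G → q x = x := fun x hx => ax_out hq (by
    rw [List.mem_append]
    rintro (h | h)
    · exact dG1 x hx h
    · exact dG2 x hx h)
  have hd : Dj p q := by
    intro x
    by_cases h : x ∈ G
    · exact Or.inr (hqG x h)
    · exact Or.inl (hpG x h)
  refine ⟨hd, ?_⟩
  -- positions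
  have i1 : ∀ x ∈ X1, (X1 ++ (G ++ X2)).idxOf x = X1.idxOf x := fun x hx => idx_left hx _
  have iG : ∀ x ∈ G, (X1 ++ (G ++ X2)).idxOf x = X1.length + G.idxOf x := fun x hx => by
    rw [idx_right (dG1 x hx), idx_left hx]
  have i2 : ∀ x ∈ X2, (X1 ++ (G ++ X2)).idxOf x = X1.length + (G.length + X2.idxOf x) := fun x hx => by
    rw [idx_right (d21 x hx), idx_right (d2G x hx)]
  have j1 : ∀ x ∈ X1, (X1 ++ X2).idxOf x = X1.idxOf x := fun x hx => idx_left hx _
  have j2 : ∀ x ∈ X2, (X1 ++ X2).idxOf x = X1.length + X2.idxOf x := fun x hx => by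
    rw [idx_right (d21 x hx)]
  have l1 : ∀ x ∈ X1, X1.idxOf x < X1.length := fun x hx => List.idxOf_lt_length_of_mem hx
  have lG : ∀ x ∈ G, G.idxOf x < G.length := fun x hx => List.idxOf_lt_length_of_mem hx
  have l2 : ∀ x ∈ X2, X2.idxOf x < X2.length := fun x hx => List.idxOf_lt_length_of_mem hx
  have i0 : ∀ x, x ∉ X1 → x ∉ G → x ∉ X2 → (X1 ++ (G ++ X2)).idxOf x =
      X1.length + (G.length + X2.length) := by
    intro x h1 h2 h3
    rw [List.idxOf_eq_length (by simp [h1, h2, h3])]
    simp
  have invp : ∀ x, p (p x) = x := p.inv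
  have invq : ∀ x, q (q x) = x := q.inv
  have pG : ∀ x, p x ≠ x → x ∈ G ∧ p x ∈ G := by
    intro x hx
    refine ⟨by_contra fun h => hx (hpG x h), by_contra fun h => hx ?_⟩
    have := hpG _ h
    rw [invp] at this
    exact this.symm
  have q12 : ∀ x, q x ≠ x → (x ∈ X1 ∨ x ∈ X2) ∧ (q x ∈ X1 ∨ q x ∈ X2) := by
    intro x hx
    have a : ∀ y, y ∉ X1 ++ X2 → q y = y := fun y hy => ax_out hq hy
    constructor
    · by_contra h
      exact hx (a x (by rw [List.mem_append]; exact h))
    · by_contra h
      have := a (q x) (by rw [List.mem_append]; exact h)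
      rw [invq] at this
      exact hx this.symm
  have r1 : ∀ x, p x ≠ x → un p q x = p x := fun x hx => by rw [un_apply hd, if_neg hx]
  have r2 : ∀ x, p x = x → un p q x = q x := fun x hx => by rw [un_apply hd, if_pos hx]
  refine ⟨fun x hx => ?_, ?_⟩
  · simp only [Set.mem_ofPred_eq, List.mem_append, not_or] at hx
    rw [r2 x (hpG x hx.2.1)]
    exact ax_out hq (by rw [List.mem_append]; exact fun h => h.elim hx.1 hx.2.2)
  · intro a b hab hba
    by_cases ha : p a = a
    · rw [r2 a ha] at hba ⊢
      by_cases ha' : q a = a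
      · rw [ha'] at hba
        exact absurd hab (lt_asymm hba)
      obtain ⟨ha1, ha2⟩ := q12 a ha'
      by_cases hb : p b = b
      · rw [r2 b hb]
        by_cases hb' : q b = b
        · rw [hb']
          exact ⟨hab, hba⟩
        obtain ⟨hb1, hb2⟩ := q12 b hb'
        have mono : ∀ x y, (x ∈ X1 ∨ x ∈ X2) → (y ∈ X1 ∨ y ∈ X2) →
            (((X1 ++ (G ++ X2)).idxOf x : ℤ) < ((X1 ++ (G ++ X2)).idxOf y : ℤ) ↔
              ((X1 ++ X2).idxOf x : ℤ) < ((X1 ++ X2).idxOf y : ℤ)) := by
          intro x y hx hy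
          rcases hx with hx | hx
          · rcases hy with hy | hy
            · rw [i1 x hx, i1 y hy, j1 x hx, j1 y hy]
            · have := l1 x hx
              rw [i1 x hx, i2 y hy, j1 x hx, j2 y hy]
              push_cast
              omega
          · rcases hy with hy | hy
            · have := l1 y hy
              rw [i2 x hx, i1 y hy, j2 x hx, j1 y hy]
              push_cast
              omega
            · rw [i2 x hx, i2 y hy, j2 x hx, j2 y hy]
              push_cast
              omega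
        rw [mono _ _ ha1 hb2, mono _ _ hb2 ha2]
        exact hq.nc a b ((mono _ _ ha1 hb1).1 hab) ((mono _ _ hb1 ha2).1 hba)
      · rw [r1 b hb]
        obtain ⟨hb1, hb2⟩ := pG b hb
        have e1 := iG b hb1
        have e2 := iG _ hb2
        have e3 := lG b hb1
        have e4 := lG _ hb2
        simp only [e1, e2] at hab hba ⊢
        rcases ha1 with ha1 | ha1
        · have f1 := i1 a ha1
          have f2 := l1 a ha1
          rcases ha2 with ha2 | ha2
          · have f3 := i1 _ ha2
            have f4 := l1 _ ha2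
            simp only [f1, f3] at hab hba ⊢
            push_cast at hab hba ⊢
            omega
          · have f3 := i2 _ ha2
            simp only [f1, f3] at hab hba ⊢
            push_cast at hab hba ⊢
            omega
        · have f1 := i2 a ha1
          simp only [f1] at hab hba ⊢
          push_cast at hab hba ⊢
          omega
    · rw [r1 a ha] at hba ⊢
      obtain ⟨ha1, ha2⟩ := pG a ha
      have e1 := iG a ha1
      have e2 := iG _ ha2
      have e3 := lG a ha1
      have e4 := lG _ ha2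
      have hbG : b ∈ G := by
        by_contra hbG
        by_cases hb1 : b ∈ X1
        · have := i1 b hb1
          have := l1 b hb1
          simp only [e1, e2] at hab hba
          omega
        · by_cases hb2 : b ∈ X2
          · have := i2 b hb2
            simp only [e1, e2] at hab hba
            omega
          · have := i0 b hb1 hbG hb2
            simp only [e1, e2] at hab hba
            omega
      have e5 := iG b hbG
      by_cases hb : p b = b
      · rw [r2 b hb, hqG b hbG]
        exact ⟨hab, hba⟩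
      · rw [r1 b hb]
        obtain ⟨-, hb2⟩ := pG b hb
        have e6 := iG _ hb2
        simp only [e1, e2, e5] at hab hba
        simp only [e1, e2, e6]
        have h := hp.nc a b (by push_cast at hab ⊢; omega) (by push_cast at hba ⊢; omega)
        push_cast
        omega

end planar

section real

variable {α : Type*} [DecidableEq α]

theorem emp_le (c : α) {F : Pat α → ℝ} (hF : ∀ p, 0 ≤ F p) (p : Pat α) : emp c F p ≤ F p := by
  simp only [emp]
  split_ifs
  · exact le_rfl
  · exact hF p

theorem M_pos (c : α) (L : List α) : PosOp (M (fun _ => hexW xc) c L) :=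
  fun _ hF p => M_nn (fun _ => hexW_nn xc_pos.le) c L hF p

theorem U_pos (c d : α) : PosOp (EXL.U c d) := fun _ hF p => U_nn c d hF p

/-- The cut ring is smaller than the ring. -/
theorem cutRing_le (c d : α) (X1 G X2 : List α) {F : Pat α → ℝ} (hF : ∀ p, 0 ≤ F p) (p : Pat α) :
    cutRing (fun _ => hexW xc) c d X1 G X2 F p ≤ ringH c d (X1 ++ (G ++ X2)) F p := by
  unfold cutRing ringH ringF
  rw [M_append, M_append]
  have h0 := glue_nn c d hF
  have h2 := M_pos c X2 _ h0
  refine (U_pos c d).mono (lin_U c d) (fun q => ?_) p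
  refine (M_pos c X1).mono (lin_M _ c X1) (fun q => ?_) q
  refine (emp_le c ?_ q).trans ?_
  · exact M_pos c G _ (emp_nn c h2)
  · exact (M_pos c G).mono (lin_M _ c G) (fun q => emp_le c h2 q) q

/-- The product of the two open columns. -/
noncomputable def twoCol (e : α) (G Y : List α) (F : Pat α → ℝ) : Pat α → ℝ :=
  colF (fun _ => hexW xc) e Y (colF (fun _ => hexW xc) e G F)

theorem twoCol_pos (e : α) (G Y : List α) : PosOp (twoCol e G Y) := fun _ hF p =>
  colF_pos e Y _ (colF_pos e G _ hF) p

theorem twoCol_le {c d e : α} {X1 G X2 : List α} (hn : (X1 ++ (G ++ X2)).Nodup)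
    (hcd : c ≠ d) (hce : c ≠ e) (hde : d ≠ e) (hc : c ∉ X1 ++ (G ++ X2)) (hd : d ∉ X1 ++ (G ++ X2))
    (he : e ∉ X1 ++ (G ++ X2)) {F : Pat α → ℝ} (hF : ∀ p, 0 ≤ F p) {p : Pat α}
    (hp : AX (X1 ++ (G ++ X2)) p) :
    twoCol e G (X2 ++ X1) F p ≤ ringH c d (X1 ++ (G ++ X2)) F p := by
  refine le_trans (le_of_eq ?_) (cutRing_le c d X1 G X2 hF p)
  exact (cutRing_eq _ hn hcd hce hde hc hd he F (ax_out hp hc) (ax_out hp hd) (ax_out hp he)).symm

/-- **The iterated rings dominate the iterated columns.** -/
theorem twoCol_iter {c d e : α} {X1 G X2 : List α} (hn : (X1 ++ (G ++ X2)).Nodup)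
    (hcd : c ≠ d) (hce : c ≠ e) (hde : d ≠ e) (hc : c ∉ X1 ++ (G ++ X2)) (hd : d ∉ X1 ++ (G ++ X2))
    (he : e ∉ X1 ++ (G ++ X2)) {F : Pat α → ℝ} (hF : ∀ p, 0 ≤ F p) (n : ℕ) :
    (∀ p, 0 ≤ (twoCol e G (X2 ++ X1))^[n] F p) ∧ ∀ p, AX (X1 ++ (G ++ X2)) p →
      (twoCol e G (X2 ++ X1))^[n] F p ≤ (ringH c d (X1 ++ (G ++ X2)))^[n] F p := by
  classical
  induction n with
  | zero => exact ⟨hF, fun p _ => le_rfl⟩
  | succ n ih =>
    obtain ⟨h1, h2⟩ := ih
    constructor
    · intro p
      rw [Function.iterate_succ_apply']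
      exact twoCol_pos e G _ _ h1 p
    · intro p hp
      rw [Function.iterate_succ_apply', Function.iterate_succ_apply']
      refine (twoCol_le hn hcd hce hde hc hd he h1 hp).trans ?_
      set A := AX (X1 ++ (G ++ X2)) with hA
      have hP : Pres A A (ringH c d (X1 ++ (G ++ X2))) := pres_ringF _ hn hcd hc hd
      rw [← hP.restr _ hp, ← hP.restr ((ringH c d (X1 ++ (G ++ X2)))^[n] F) hp]
      refine (ringH_pos c d _).mono (lin_ringH c d _) (fun q => ?_) p
      unfold EXL.HS.restr
      split_ifs with hq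
      · exact h2 q hq
      · exact le_rfl

end real

end Pool.Agent.NUG
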