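import Pool.Agent.NUG.Split2
import Pool.Agent.NUG.Far

/-!
# The ring functional dominates the product of two strip functionals

`pU V W` = the functional `F ↦ V (p ↦ W (q ↦ F (un p q)))`.
-/

set_option autoImplicit false

namespace Pool.Agent.NUG

open _root_.Pool.Agent.EXL _root_.Pool.Agent.EXL.Pat _root_.Pool.Agent.EXL.HS HexObs Filter Topology
open _root_.Pool.Agent.NUF

section rel

variable {α K : Type*} [DecidableEq α] [CommRing K]

/-- `H` is the function `F` of the union with `q`. -/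
def RelU (q : Pat α) (F H : Pat α → K) : Prop := ∀ p, Dj p q → F (un p q) = H p

variable {q : Pat α} {F H : Pat α → K} {i j : α}

theorem RelU.emp (h : RelU q F H) (hi : q i = i) : RelU q (EXL.emp i F) (EXL.emp i H) := by
  intro p hp
  simp only [EXL.emp, un_left hp hi, h p hp]

theorem RelU.R (w : Wt K) (h : RelU q F H) (hi : q i = i) (hj : q j = j) :
    RelU q (EXL.R w i j F) (EXL.R w i j H) := by
  intro p hp
  simp only [EXL.R, un_left hp hi, un_left hp hj, un_swap hp hi hj, un_cup hp hi hj, un_cut hp hi hj,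
    un_cup (cut_sub hi hj hp) hi hj, h _ hp, h _ (hp.swap hi hj), h _ (cup_sub hi hj hp),
    h _ (cut_sub hi hj hp), h _ (cup_sub hi hj (cut_sub hi hj hp))]

theorem RelU.M (w : α → Wt K) {L : List α} (h : RelU q F H) (hi : q i = i) (hL : ∀ x ∈ L, q x = x) :
    RelU q (EXL.M w i L F) (EXL.M w i L H) := by
  induction L with
  | nil => exact h
  | cons r L ih =>
    rw [M_cons, M_cons]
    exact (ih fun x hx => hL x (by simp [hx])).R _ hi (hL r (by simp))

theorem RelU.colF (w : α → Wt K) {L : List α} (h : RelU q F H) (hi : q i = i) (hL : ∀ x ∈ L, q x = x) :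
    RelU q (NUF.colF w i L F) (NUF.colF w i L H) :=
  (((h.emp hi).M w hi hL).emp hi)

theorem colF_un_left (w : α → Wt K) {e : α} {L : List α} (F : Pat α → K) {p q : Pat α} (hd : Dj p q)
    (he : q e = e) (hL : ∀ x ∈ L, q x = x) :
    NUF.colF w e L F (un p q) = NUF.colF w e L (fun p' => F (un p' q)) p :=
  RelU.colF w (F := F) (H := fun p' => F (un p' q)) (fun _ _ => rfl) he hL p hd

theorem colF_un_right (w : α → Wt K) {e : α} {L : List α} (F : Pat α → K) {p q : Pat α} (hd : Dj p q)
    (he : p e = e) (hL : ∀ x ∈ L, p x = x) :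
    NUF.colF w e L F (un p q) = NUF.colF w e L (fun q' => F (un p q')) q := by
  rw [un_comm hd]
  exact RelU.colF w (F := F) (H := fun q' => F (un p q'))
    (fun q' hq' => by rw [un_comm hq']) he hL q hd.symm

end rel

section fun_

variable {ι : Type*} [DecidableEq ι]

/-- **The product functional.** -/
noncomputable def pU (V W : Fnl ι) : Fnl ι where
  toFun F := V fun p => W fun q => F (un p q)
  map_add' F G := by
    rw [← map_add]
    congr 1
    funext p
    rw [Pi.add_apply, ← map_add]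
    rfl
  map_smul' c F := by
    rw [RingHom.id_apply, ← map_smul]
    congr 1
    funext p
    rw [Pi.smul_apply, ← map_smul]
    rfl

theorem pU_apply (V W : Fnl ι) (F : Pat ι → ℂ) : pU V W F = V fun p => W fun q => F (un p q) := rfl

/-- Exchange of two functionals. -/
theorem dual_swap [Finite ι] (V W : Fnl ι) (G : Pat ι → Pat ι → ℂ) :
    V (fun p => W fun q => G p q) = W (fun q => V fun p => G p q) := by
  classical
  have : Fintype (Pat ι) := Fintype.ofFinite _
  have ex : ∀ (W : Fnl ι) (f : Pat ι → ℂ), W f = ∑ p, f p * W (Pi.single p 1) := by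
    intro W f
    conv_lhs => rw [← Finset.univ_sum_single f]
    rw [map_sum]
    refine Finset.sum_congr rfl fun p _ => ?_
    have : (Pi.single p (f p) : Pat ι → ℂ) = f p • Pi.single p 1 := by
      rw [← Pi.single_smul, smul_eq_mul, mul_one]
    rw [this, map_smul, smul_eq_mul]
  rw [ex V, ex W]
  simp_rw [ex W (fun q => G _ q), ex V (fun p => G p _)]
  simp_rw [Finset.sum_mul]
  rw [Finset.sum_comm]
  refine Finset.sum_congr rfl fun p _ => Finset.sum_congr rfl fun q _ => by ring

/-- The functional of a half strip at the honeycomb point. -/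
structure IsC (e : ι) (X : List ι) (V : Fnl ι) : Prop where
  sup : Sup X V
  one : V (HS.ind Pat.empty) = 1
  fix : ∀ F, V (colF (fun _ => hexW (xc : ℂ)) e X F) = V F

theorem isC_of_isV {z : ι → ℂ} {e : ι} {X : List ι} {V : Fnl ι} (h : IsV z X V)
    (hz : ∀ j ∈ X, z j = Real.pi / 16) (he : e ∉ X) : IsC e X V := by
  refine ⟨h.sup, h.one, fun F => ?_⟩
  have h1 := congrFun (T0_hex hz he) F
  rw [← h1]
  exact congrArg (fun W : Fnl ι => W F) (h.fix e he)

section pU

variable {e : ι} {X1 G X2 : List ι} {V W : Fnl ι}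

theorem pU_sup (hn : (X1 ++ (G ++ X2)).Nodup) (hV : Sup G V) (hW : Sup (X2 ++ X1) W) :
    Sup (X1 ++ (G ++ X2)) (pU V W) := by
  have hn1 := List.nodup_append.1 hn
  have hn2 := List.nodup_append.1 hn1.2.1
  have hn' : (X1 ++ X2).Nodup := by
    rw [List.nodup_append]
    exact ⟨hn1.1, hn2.2.1, fun a ha b hb => hn1.2.2 a ha b (by simp [hb])⟩
  intro F hF
  rw [pU_apply]
  apply hV
  intro p hp
  apply hW
  intro q hq
  exact hF _ (ax_un hn hp ((ax_rotL hn').2 hq)).2

theorem pU_one (hn : (X1 ++ (G ++ X2)).Nodup) (hV : Sup G V) (hW : Sup (X2 ++ X1) W)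
    (hV1 : V (HS.ind Pat.empty) = 1) (hW1 : W (HS.ind Pat.empty) = 1) :
    pU V W (HS.ind Pat.empty) = 1 := by
  have hn1 := List.nodup_append.1 hn
  have hn2 := List.nodup_append.1 hn1.2.1
  have hn' : (X1 ++ X2).Nodup := by
    rw [List.nodup_append]
    exact ⟨hn1.1, hn2.2.1, fun a ha b hb => hn1.2.2 a ha b (by simp [hb])⟩
  rw [pU_apply]
  have e1 : ∀ p, AX G p → (W fun q => (HS.ind Pat.empty : Pat ι → ℂ) (un p q)) =
      (HS.ind Pat.empty : Pat ι → ℂ) p := by
    intro p hp
    have e2 : (W fun q => (HS.ind Pat.empty : Pat ι → ℂ) (un p q)) =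
        W ((HS.ind Pat.empty : Pat ι → ℂ) p • (HS.ind Pat.empty : Pat ι → ℂ)) := by
      apply hW.congr
      intro q hq
      have hd := (ax_un hn hp ((ax_rotL hn').2 hq)).1
      rw [Pi.smul_apply, smul_eq_mul]
      by_cases h1 : p = Pat.empty
      · by_cases h2 : q = Pat.empty
        · rw [h1, h2, un_empty, ind_self, mul_one]
        · obtain ⟨x, hx⟩ := exists_occ h2
          rw [ind_ne h2, mul_zero]
          apply ind_empty_ne (x := x)
          have : p x = x := by rw [h1]; rfl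
          rw [un_apply hd, if_pos this]
          exact hx
      · obtain ⟨x, hx⟩ := exists_occ h1
        rw [ind_ne h1, zero_mul]
        apply ind_empty_ne (x := x)
        rw [un_apply hd, if_neg hx]
        exact hx
    rw [e2, map_smul, hW1, smul_eq_mul, mul_one]
  rw [hV.congr e1, hV1]

/-- The product functional is fixed by the product of the two columns. -/
theorem pU_fix [Finite ι] (hn : (X1 ++ (G ++ X2)).Nodup) (he : e ∉ X1 ++ (G ++ X2))
    (hV : IsC e G V) (hW : IsC e (X2 ++ X1) W) (F : Pat ι → ℂ) :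
    pU V W (colF (fun _ => hexW (xc : ℂ)) e (X2 ++ X1) (colF (fun _ => hexW (xc : ℂ)) e G F)) =
      pU V W F := by
  have hn1 := List.nodup_append.1 hn
  have hn2 := List.nodup_append.1 hn1.2.1
  have hn' : (X1 ++ X2).Nodup := by
    rw [List.nodup_append]
    exact ⟨hn1.1, hn2.2.1, fun a ha b hb => hn1.2.2 a ha b (by simp [hb])⟩
  have dG1 : ∀ x ∈ G, x ∉ X1 := fun x hG hx => hn1.2.2 x hx x (by simp [hG]) rfl
  have dG2 : ∀ x ∈ G, x ∉ X2 := fun x hx hxG => hn2.2.2 x hx x hxG rfl
  have heG : e ∉ G := fun h => he (by simp [h])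
  have he1 : e ∉ X2 ++ X1 := fun h => he (by
    rw [List.mem_append] at h
    rcases h with h | h <;> simp [h])
  have dj : ∀ {p q}, AX G p → AX (X2 ++ X1) q → Dj p q := fun hp hq =>
    (ax_un hn hp ((ax_rotL hn').2 hq)).1
  set w : ι → Wt ℂ := fun _ => hexW (xc : ℂ) with hw
  rw [pU_apply, pU_apply]
  have s1 : (V fun p => W fun q => colF w e (X2 ++ X1) (colF w e G F) (un p q)) =
      V fun p => W fun q => colF w e G F (un p q) := by
    apply hV.sup.congr
    intro p hp
    have a1 : (W fun q => colF w e (X2 ++ X1) (colF w e G F) (un p q)) =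
        W (colF w e (X2 ++ X1) (fun q => colF w e G F (un p q))) := by
      apply hW.sup.congr
      intro q hq
      refine colF_un_right w _ (dj hp hq) (ax_out hp heG) fun x hx => ax_out hp fun hG => ?_
      rw [List.mem_append] at hx
      rcases hx with hx | hx
      · exact dG2 x hG hx
      · exact dG1 x hG hx
    rw [a1, hW.fix]
  rw [s1, dual_swap, dual_swap V W]
  apply hW.sup.congr
  intro q hq
  have a2 : (V fun p => colF w e G F (un p q)) = V (colF w e G (fun p => F (un p q))) := by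
    apply hV.sup.congr
    intro p hp
    refine colF_un_left w _ (dj hp hq) (ax_out hq he1) fun x hx => ax_out hq fun h => ?_
    rw [List.mem_append] at h
    rcases h with h | h
    · exact dG2 x hx h
    · exact dG1 x hx h
  rw [a2, hV.fix]

end pU

/-! ### Positive functionals -/

/-- The value on nonnegative functions is real and nonnegative. -/
def PosC (V : Fnl ι) : Prop :=
  ∀ F : Pat ι → ℝ, (∀ p, 0 ≤ F p) → ∃ r : ℝ, 0 ≤ r ∧ V (fun p => (F p : ℂ)) = r

theorem real_lim {a : ℕ → ℝ} (h0 : ∀ n, 0 ≤ a n) {z : ℂ}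
    (h : Tendsto (fun n => (a n : ℂ)) atTop (𝓝 z)) : ∃ r : ℝ, 0 ≤ r ∧ z = r := by
  have h1 : Tendsto (fun n => ((a n : ℂ)).re) atTop (𝓝 z.re) :=
    (Complex.continuous_re.tendsto z).comp h
  have h2 : Tendsto (fun n => ((a n : ℂ)).im) atTop (𝓝 z.im) :=
    (Complex.continuous_im.tendsto z).comp h
  simp only [Complex.ofReal_re] at h1
  simp only [Complex.ofReal_im] at h2
  refine ⟨z.re, ge_of_tendsto' h1 h0, ?_⟩
  apply Complex.ext
  · simp
  · rw [Complex.ofReal_im]
    exact (tendsto_nhds_unique h2 tendsto_const_nhds)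

/-- The value of a fixed functional is the limit of the iterated operator at the empty state. -/
theorem val_lim [Finite ι] {A : Pat ι → Prop} {V : Fnl ι} (hV : SupF A V)
    (h1 : V (HS.ind Pat.empty) = 1) {T : (Pat ι → ℝ) → (Pat ι → ℝ)}
    (hT : ∀ F : Pat ι → ℝ, V (fun p => ((T F p : ℝ) : ℂ)) = V (fun p => (F p : ℂ))) {F : Pat ι → ℝ}
    (hF : ∀ p, p ≠ Pat.empty → A p → Tendsto (fun n => T^[n] F p) atTop (𝓝 0)) :
    Tendsto (fun n => ((T^[n] F Pat.empty : ℝ) : ℂ)) atTop (𝓝 (V fun p => (F p : ℂ))) := by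
  classical
  have : Fintype (NE A) := Fintype.ofFinite _
  have e1 : ∀ n, V (fun p => ((T^[n] F p : ℝ) : ℂ)) = V (fun p => (F p : ℂ)) := by
    intro n
    induction n with
    | zero => rfl
    | succ n ih =>
      have := hT (T^[n] F)
      simp only [Function.iterate_succ_apply']
      rw [this, ih]
  have e2 : ∀ n, ((T^[n] F Pat.empty : ℝ) : ℂ) = V (fun p => (F p : ℂ)) -
      ∑ p : NE A, ((T^[n] F p.1 : ℝ) : ℂ) * V (HS.ind p.1) := by
    intro n
    have := sup_sum hV (fun p => ((T^[n] F p : ℝ) : ℂ))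
    rw [e1 n, h1, mul_one] at this
    rw [this]
    ring
  have e3 : Tendsto (fun n => ∑ p : NE A, ((T^[n] F p.1 : ℝ) : ℂ) * V (HS.ind p.1)) atTop (𝓝 0) := by
    have : (0 : ℂ) = ∑ p : NE A, ((0 : ℝ) : ℂ) * V (HS.ind p.1) := by simp
    rw [this]
    refine tendsto_finsetSum _ fun p _ => ?_
    refine Tendsto.mul_const _ ?_
    exact (Complex.continuous_ofReal.tendsto 0).comp (hF p.1 p.2.1 p.2.2)
  have e4 := (tendsto_const_nhds (x := V (fun p => (F p : ℂ))) (f := atTop (α := ℕ))).sub e3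
  rw [sub_zero] at e4
  exact e4.congr fun n => (e2 n).symm

section main

variable {c d e : ι} {X1 G X2 : List ι} {V W Vr : Fnl ι}

/-- **The ring functional dominates the product of the strip functionals.** -/
theorem ring_dom [Finite ι] (hn : (X1 ++ (G ++ X2)).Nodup)
    (hcd : c ≠ d) (hce : c ≠ e) (hde : d ≠ e) (hc : c ∉ X1 ++ (G ++ X2)) (hd : d ∉ X1 ++ (G ++ X2))
    (he : e ∉ X1 ++ (G ++ X2)) (hM : MajR c d (X1 ++ (G ++ X2))) (hV : IsC e G V)
    (hW : IsC e (X2 ++ X1) W) (hVr : IsD c d (X1 ++ (G ++ X2)) Vr) :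
    PosC (pU V W) ∧ PosC Vr ∧ PosC (Vr - pU V W) := by
  set X := X1 ++ (G ++ X2) with hX
  have hiter := fun F {p} (h1 : p ≠ Pat.empty) (h2 : AX X p) => hM.iter hn hcd hc hd F (p := p) h1 h2
  have fR : ∀ F : Pat ι → ℝ, Vr (fun p => ((ringH c d X F p : ℝ) : ℂ)) = Vr (fun p => (F p : ℂ)) := by
    intro F
    rw [← ringC_ofReal]
    exact congrArg (fun U : Fnl ι => U fun p => (F p : ℂ)) hVr.fix
  have fC : ∀ F : Pat ι → ℝ, pU V W (fun p => ((twoCol e G (X2 ++ X1) F p : ℝ) : ℂ)) =
      pU V W (fun p => (F p : ℂ)) := by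
    intro F
    unfold twoCol
    rw [← colF_ofReal, ← colF_ofReal]
    exact pU_fix hn he hV hW _
  have lR : ∀ F : Pat ι → ℝ, Tendsto (fun n => (((ringH c d X)^[n] F Pat.empty : ℝ) : ℂ)) atTop
      (𝓝 (Vr fun p => (F p : ℂ))) := fun F =>
    val_lim hVr.sup hVr.one fR fun p h1 h2 => hiter F h1 h2
  have lC : ∀ F : Pat ι → ℝ, (∀ p, 0 ≤ F p) →
      Tendsto (fun n => (((twoCol e G (X2 ++ X1))^[n] F Pat.empty : ℝ) : ℂ)) atTop
      (𝓝 (pU V W fun p => (F p : ℂ))) := by
    intro F hF
    refine val_lim (pU_sup hn hV.sup hW.sup) (pU_one hn hV.sup hW.sup hV.one hW.one) fC ?_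
    intro p h1 h2
    have h3 := twoCol_iter hn hcd hce hde hc hd he hF
    exact squeeze_zero (fun n => (h3 n).1 p) (fun n => (h3 n).2 p h2) (hiter F h1 h2)
  refine ⟨fun F hF => ?_, fun F hF => ?_, fun F hF => ?_⟩
  · exact real_lim (fun n => (twoCol_iter hn hcd hce hde hc hd he hF n).1 _) (lC F hF)
  · refine real_lim (fun n => ?_) (lR F)
    have h3 := twoCol_iter hn hcd hce hde hc hd he hF n
    exact (h3.1 _).trans (h3.2 _ (ax_empty _))
  · refine real_lim (a := fun n => (ringH c d X)^[n] F Pat.empty -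
      (twoCol e G (X2 ++ X1))^[n] F Pat.empty) (fun n => ?_) ?_
    · have h3 := twoCol_iter hn hcd hce hde hc hd he hF n
      exact sub_nonneg.2 (h3.2 _ (ax_empty _))
    · rw [LinearMap.sub_apply]
      refine ((lR F).sub (lC F hF)).congr fun n => ?_
      push_cast
      rfl

end main

end fun_

end Pool.Agent.NUG
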