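import Pool.Agent.NUG.Split3
import Pool.Agent.NUF.PDef

/-!
# The pairing of product functionals

`lun P Q` = the union of two labelled states with disjoint supports.  The gluing kernel of two groups of lines is
the product of the kernels.
-/

set_option autoImplicit false

namespace Pool.Agent.NUG

open _root_.Pool.Agent.NUF _root_.Pool.Agent.NUF.LPat

section lun

variable {Γ ι : Type*} [AddCommGroup Γ]

/-- The supports are disjoint. -/
def LDj (P Q : LPat Γ ι) : Prop := ∀ x, P x = x ∨ Q x = x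

open Classical in
/-- The union of two labelled states with disjoint supports. -/
noncomputable def lun (P Q : LPat Γ ι) : LPat Γ ι where
  f x := if LDj P Q then (if P x = x then Q x else P x) else P x
  s x := if LDj P Q then (if P x = x then Q.s x else P.s x) else P.s x
  inv x := by
    by_cases h : LDj P Q
    · simp only [if_pos h]
      have ip : ∀ x, P (P x) = x := P.inv
      have iq : ∀ x, Q (Q x) = x := Q.inv
      by_cases h1 : P x = x
      · rw [if_pos h1]
        rcases h (Q x) with h2 | h2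
        · rw [if_pos h2, iq]
        · rw [iq] at h2
          rw [← h2, if_pos h1]
          exact h2.symm
      · rw [if_neg h1, ip, if_neg (fun e => h1 e.symm)]
    · simp only [if_neg h]
      exact P.inv x
  anti x := by
    by_cases h : LDj P Q
    · simp only [if_pos h]
      have ip : ∀ x, P (P x) = x := P.inv
      have iq : ∀ x, Q (Q x) = x := Q.inv
      by_cases h1 : P x = x
      · rw [if_pos h1, if_pos h1]
        rcases h (Q x) with h2 | h2
        · rw [if_pos h2, Q.anti]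
        · rw [iq] at h2
          have e1 := Q.fix x h2.symm
          rw [← h2, if_pos h1, e1, neg_zero]
      · rw [if_neg h1, if_neg h1, ip, if_neg (fun e => h1 e.symm), P.anti]
    · simp only [if_neg h]
      exact P.anti x
  fix x hx := by
    by_cases h : LDj P Q
    · simp only [if_pos h] at hx ⊢
      by_cases h1 : P x = x
      · rw [if_pos h1] at hx ⊢
        exact Q.fix x hx
      · rw [if_neg h1] at hx
        exact absurd hx h1
    · simp only [if_neg h] at hx ⊢
      exact P.fix x hx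

variable {P Q : LPat Γ ι}

theorem lun_f (h : LDj P Q) (x : ι) [hx : Decidable (P x = x)] :
    lun P Q x = if P x = x then Q x else P x := by
  by_cases h1 : P x = x
  · simp only [lun, if_pos h, if_pos h1]
  · simp only [lun, if_pos h, if_neg h1]

theorem lun_s (h : LDj P Q) (x : ι) [hx : Decidable (P x = x)] :
    (lun P Q).s x = if P x = x then Q.s x else P.s x := by
  by_cases h1 : P x = x
  · simp only [lun, if_pos h, if_pos h1]
  · simp only [lun, if_pos h, if_neg h1]

theorem lun_left (h : LDj P Q) {x : ι} (hx : Q x = x) : lun P Q x = P x := by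
  classical
  rw [lun_f h]
  by_cases h1 : P x = x
  · rw [if_pos h1, hx, h1]
  · rw [if_neg h1]

theorem lun_left_s (h : LDj P Q) {x : ι} (hx : Q x = x) : (lun P Q).s x = P.s x := by
  classical
  rw [lun_s h]
  by_cases h1 : P x = x
  · rw [if_pos h1, Q.fix x hx, P.fix x h1]
  · rw [if_neg h1]

theorem lun_empty (Q : LPat Γ ι) : lun (LPat.empty : LPat Γ ι) Q = Q := by
  classical
  have h : LDj (LPat.empty : LPat Γ ι) Q := fun x => Or.inl rfl
  refine LPat.ext (funext fun x => ?_) (funext fun x => ?_)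
  · have := lun_f h x
    rw [if_pos (show (LPat.empty : LPat Γ ι) x = x from rfl)] at this
    exact this
  · have := lun_s h x
    rw [if_pos (show (LPat.empty : LPat Γ ι) x = x from rfl)] at this
    exact this

variable [DecidableEq ι] {i j : ι}

theorem jo_f (hc : OcOK i j P) (x : ι) : jo i j P x = if x = i then i else if x = j then j else
    if x = P i then P j else if x = P j then P i else P x := by
  have ip : ∀ x, P (P x) = x := P.inv
  obtain ⟨c1, c2, c3⟩ := hc
  by_cases a : P i = j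
  · have b : P j = i := by rw [← a, ip]
    rw [jo_pos _ a, rem_f a]
    by_cases h1 : x = i
    · rw [if_pos h1, if_pos h1]
    · by_cases h2 : x = j
      · rw [if_neg h1, if_pos h2, if_neg h1, if_pos h2]
      · rw [if_neg h1, if_neg h2, if_neg h1, if_neg h2, a, if_neg h2, b, if_neg h1]
  · rw [jo_neg _ a, cut_f ⟨c1, c2, c3, a⟩]

theorem jo_s (hc : OcOK i j P) (x : ι) : (jo i j P).s x = if x = i then 0 else if x = j then 0 else
    if x = P i then P.s j - P.s i else if x = P j then P.s i - P.s j else P.s x := by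
  have ip : ∀ x, P (P x) = x := P.inv
  obtain ⟨c1, c2, c3⟩ := hc
  by_cases a : P i = j
  · have b : P j = i := by rw [← a, ip]
    rw [jo_pos _ a, rem_s a]
    by_cases h1 : x = i
    · rw [if_pos h1, if_pos h1]
    · by_cases h2 : x = j
      · rw [if_neg h1, if_pos h2, if_neg h1, if_pos h2]
      · rw [if_neg h1, if_neg h2, if_neg h1, if_neg h2, a, if_neg h2, b, if_neg h1]
  · rw [jo_neg _ a, cut_s ⟨c1, c2, c3, a⟩]

theorem jo_fix (hc : OcOK i j P) {x : ι} (hx : P x = x) : jo i j P x = x := by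
  have ip : ∀ x, P (P x) = x := P.inv
  rw [jo_f hc]
  obtain ⟨c1, c2, c3⟩ := hc
  by_cases h1 : x = i
  · rw [if_pos h1, h1]
  · by_cases h2 : x = j
    · rw [if_neg h1, if_pos h2, h2]
    · have h3 : x ≠ P i := fun e => h1 (by rw [← ip i, ← e, hx])
      have h4 : x ≠ P j := fun e => h2 (by rw [← ip j, ← e, hx])
      rw [if_neg h1, if_neg h2, if_neg h3, if_neg h4, hx]

theorem jo_fix_l (hc : OcOK i j P) : jo i j P i = i := by rw [jo_f hc, if_pos rfl]

theorem jo_fix_r (hc : OcOK i j P) : jo i j P j = j := by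
  rw [jo_f hc, if_neg hc.1.symm, if_pos rfl]

theorem ldj_jo (h : LDj P Q) (hc : OcOK i j P) : LDj (jo i j P) Q := by
  intro x
  rcases h x with h1 | h1
  · exact Or.inl (jo_fix hc h1)
  · exact Or.inr h1

theorem ocOK_lun (h : LDj P Q) (hi : Q i = i) (hj : Q j = j) :
    OcOK i j (lun P Q) ↔ OcOK i j P := by
  unfold OcOK
  rw [lun_left h hi, lun_left h hj]

theorem lun_jo (h : LDj P Q) (hi : Q i = i) (hj : Q j = j) (hc : OcOK i j P) :
    jo i j (lun P Q) = lun (jo i j P) Q := by
  classical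
  have hc' := (ocOK_lun h hi hj).2 hc
  have ip : ∀ x, P (P x) = x := P.inv
  have d := ldj_jo h hc
  obtain ⟨c1, c2, c3⟩ := id hc
  have q1 : Q (P i) = P i := (h (P i)).resolve_left (by rw [ip]; exact fun e => c2 e.symm)
  have q2 : Q (P j) = P j := (h (P j)).resolve_left (by rw [ip]; exact fun e => c3 e.symm)
  have key : ∀ x, (jo i j P x = x → x = i ∨ x = j ∨ P x = x ∨ Q x = x) := by
    intro x _
    rcases h x with h1 | h1
    · exact Or.inr (Or.inr (Or.inl h1))
    · exact Or.inr (Or.inr (Or.inr h1))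
  refine LPat.ext (funext fun x => ?_) (funext fun x => ?_)
  · show jo i j (lun P Q) x = lun (jo i j P) Q x
    rcases h x with h1 | h1
    · -- `x` is empty in `P`
      have e1 : jo i j P x = x := jo_fix hc h1
      rw [lun_f d, if_pos e1, jo_f hc', lun_left h hi, lun_left h hj]
      by_cases a1 : x = i
      · rw [if_pos a1, a1, hi]
      · by_cases a2 : x = j
        · rw [if_neg a1, if_pos a2, a2, hj]
        · have h3 : x ≠ P i := fun e => a1 (by rw [← ip i, ← e, h1])
          have h4 : x ≠ P j := fun e => a2 (by rw [← ip j, ← e, h1])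
          rw [if_neg a1, if_neg a2, if_neg h3, if_neg h4, lun_f h, if_pos h1]
    · rw [lun_left d h1, jo_f hc', jo_f hc, lun_left h hi, lun_left h hj, lun_left h h1]
  · show (jo i j (lun P Q)).s x = (lun (jo i j P) Q).s x
    rcases h x with h1 | h1
    · have e1 : jo i j P x = x := jo_fix hc h1
      rw [lun_s d, if_pos e1, jo_s hc', lun_left h hi, lun_left h hj]
      by_cases a1 : x = i
      · rw [if_pos a1, a1, Q.fix i hi]
      · by_cases a2 : x = j
        · rw [if_neg a1, if_pos a2, a2, Q.fix j hj]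
        · have h3 : x ≠ P i := fun e => a1 (by rw [← ip i, ← e, h1])
          have h4 : x ≠ P j := fun e => a2 (by rw [← ip j, ← e, h1])
          rw [if_neg a1, if_neg a2, if_neg h3, if_neg h4, lun_s h, if_pos h1]
    · rw [lun_left_s d h1, jo_s hc', jo_s hc, lun_left h hi, lun_left h hj, lun_left_s h h1,
        lun_left_s h hi, lun_left_s h hj]

theorem lw_lun {ν : Γ → ℂ} (h : LDj P Q) (hi : Q i = i) : lw ν i j (lun P Q) = lw ν i j P := by
  by_cases a : P i = j
  · rw [lw_pos _ _ a, lw_pos _ _ (by rw [lun_left h hi]; exact a), lun_left_s h hi]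
  · rw [lw_neg _ _ a, lw_neg _ _ (by rw [lun_left h hi]; exact a)]

theorem glue_apply {ν : Γ → ℂ} (hij : i ≠ j) (F : LPat Γ ι → ℂ) (P : LPat Γ ι) :
    (cops ν).glue i j F P = (if P i = i then (if P j = j then F P else 0) else 0) +
      (if OcOK i j P then lw ν i j P * F (jo i j P) else 0) := by
  rw [glueL, if_neg hij]
  rfl

/-- The state is empty outside the sites of the lines of `L`. -/
def OnL (L : List (ι × ι)) (P : LPat Γ ι) : Prop := ∀ x, x ∉ Sr L → x ∉ Sl L → P x = x

omit [DecidableEq ι] in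
theorem OnL.tail {t : ι × ι} {L : List (ι × ι)} (h : OnL (t :: L) P) (h1 : P t.1 = t.1)
    (h2 : P t.2 = t.2) : OnL L P := by
  intro x hx hx'
  by_cases e1 : x = t.1
  · rw [e1, h1]
  · by_cases e2 : x = t.2
    · rw [e2, h2]
    · refine h x ?_ ?_
      · simp only [Sr, List.map_cons, List.mem_cons, Set.mem_ofPred_eq, not_or] at hx ⊢
        exact ⟨e1, hx⟩
      · simp only [Sl, List.map_cons, List.mem_cons, Set.mem_ofPred_eq, not_or] at hx' ⊢
        exact ⟨e2, hx'⟩

/-- **The gluing kernel of two groups is the product.** -/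
theorem gm_lun {ν : Γ → ℂ} {A B : List (ι × ι)} (hG : Gd (A ++ B)) (hQ : OnL B Q) :
    ∀ P : LPat Γ ι, OnL A P → LDj P Q → gm ν (A ++ B) (lun P Q) = gm ν A P * gm ν B Q := by
  induction A with
  | nil =>
    intro P hP _
    have e : P = LPat.empty := by
      have h1 : ∀ x, P x = x := fun x => hP x (by simp [Sr]) (by simp [Sl])
      exact LPat.ext (funext h1) (funext fun x => P.fix x (h1 x))
    rw [e, lun_empty, List.nil_append, gm_nil]
    unfold dl
    rw [if_pos rfl, one_mul]
  | cons t A ih =>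
    intro P hP hd
    rw [List.cons_append] at hG ⊢
    obtain ⟨g1, g2, g3⟩ := Gd_cons.1 hG
    have hout : ∀ x, (x = t.1 ∨ x = t.2) → Q x = x := by
      intro x hx
      refine hQ x (fun h => ?_) (fun h => ?_)
      · obtain ⟨s, hs, e⟩ := List.mem_map.1 h
        have := g2 s (by simp [hs])
        rcases hx with rfl | rfl
        · exact this.1 e.symm
        · exact this.2.2.1 e.symm
      · obtain ⟨s, hs, e⟩ := List.mem_map.1 h
        have := g2 s (by simp [hs])
        rcases hx with rfl | rfl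
        · exact this.2.1 e.symm
        · exact this.2.2.2 e.symm
    have q1 := hout t.1 (Or.inl rfl)
    have q2 := hout t.2 (Or.inr rfl)
    rw [gm_cons, gm_cons, glue_apply g1, glue_apply g1]
    have e1 : (if OcOK t.1 t.2 (lun P Q) then lw ν t.1 t.2 (lun P Q) * gm ν (A ++ B) (jo t.1 t.2 (lun P Q))
        else 0) = (if OcOK t.1 t.2 P then lw ν t.1 t.2 P * gm ν A (jo t.1 t.2 P) else 0) * gm ν B Q := by
      by_cases hc : OcOK t.1 t.2 P
      · rw [if_pos hc, if_pos ((ocOK_lun hd q1 q2).2 hc), lw_lun hd q1, lun_jo hd q1 q2 hc,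
          ih g3 (jo t.1 t.2 P) ?_ (ldj_jo hd hc)]
        · ring
        · refine OnL.tail (t := t) (fun x hx hx' => jo_fix hc (hP x hx hx')) (jo_fix_l hc) (jo_fix_r hc)
      · rw [if_neg hc, if_neg (fun h => hc ((ocOK_lun hd q1 q2).1 h)), zero_mul]
    rw [e1, add_mul]
    congr 1
    simp only [lun_left hd q1, lun_left hd q2]
    by_cases h1 : P t.1 = t.1
    · by_cases h2 : P t.2 = t.2
      · rw [if_pos h1, if_pos h2, if_pos h1, if_pos h2, ih g3 P (hP.tail h1 h2) hd]
      · rw [if_pos h1, if_neg h2, if_pos h1, if_neg h2, zero_mul]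
    · rw [if_neg h1, if_neg h1, zero_mul]

/-! ### Positivity of the kernel -/

/-- The values are real and nonnegative. -/
def NNC (F : LPat Γ ι → ℂ) : Prop := ∀ P, ∃ r : ℝ, 0 ≤ r ∧ F P = r

theorem nnc_gm {ν : Γ → ℂ} (hν : ∀ g, ∃ r : ℝ, 0 ≤ r ∧ ν g = r) {L : List (ι × ι)} (hG : Gd L) :
    NNC (gm ν L) := by
  induction L with
  | nil =>
    intro P
    rw [gm_nil]
    unfold dl
    split_ifs
    · exact ⟨1, zero_le_one, by simp⟩
    · exact ⟨0, le_rfl, by simp⟩
  | cons t L ih =>
    intro P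
    obtain ⟨g1, g2, g3⟩ := Gd_cons.1 hG
    rw [gm_cons, glue_apply g1]
    have ih := ih g3
    obtain ⟨r1, h1, e1⟩ : ∃ r : ℝ, 0 ≤ r ∧ (if P t.1 = t.1 then (if P t.2 = t.2 then gm ν L P else 0)
        else 0) = (r : ℂ) := by
      split_ifs
      · exact ih P
      · exact ⟨0, le_rfl, by simp⟩
      · exact ⟨0, le_rfl, by simp⟩
    obtain ⟨r2, h2, e2⟩ : ∃ r : ℝ, 0 ≤ r ∧ (if OcOK t.1 t.2 P then
        lw ν t.1 t.2 P * gm ν L (jo t.1 t.2 P) else 0) = (r : ℂ) := by
      split_ifs
      · obtain ⟨a, ha, ea⟩ := ih (jo t.1 t.2 P)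
        obtain ⟨b, hb, eb⟩ : ∃ b : ℝ, 0 ≤ b ∧ lw ν t.1 t.2 P = b := by
          by_cases h : P t.1 = t.2
          · rw [lw_pos _ _ h]
            exact hν _
          · rw [lw_neg _ _ h]
            exact ⟨1, zero_le_one, by simp⟩
        exact ⟨b * a, mul_nonneg hb ha, by rw [ea, eb]; push_cast; rfl⟩
      · exact ⟨0, le_rfl, by simp⟩
    exact ⟨r1 + r2, add_nonneg h1 h2, by rw [e1, e2]; push_cast; rfl⟩

theorem NNC.tw {F : LPat Γ ι → ℂ} (h : NNC F) (χ : ι → Γ) : NNC (Tw χ F) := fun P => h (gau χ P)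

end lun

section pr

variable {Γ ι : Type*} [AddCommGroup Γ] [DecidableEq ι]

/-- Monotonicity of the pairing. -/
theorem pr_mono {V V' W W' : Fnl ι} (h1 : PosC (V - W)) (h2 : PosC (V' - W')) (h3 : PosC V')
    (h4 : PosC W) {F : LPat Γ ι → ℂ} (hF : NNC F) :
    ∃ r : ℝ, 0 ≤ r ∧ pr Γ V V' F = pr Γ W W' F + r := by
  choose f hf0 hf using hF
  have e1 : ∀ p, ∃ r : ℝ, 0 ≤ r ∧ V' (fun q => F (ofP Γ (un p q))) = r := by
    intro p
    have : (fun q => F (ofP Γ (un p q))) = fun q => ((f (ofP Γ (un p q)) : ℝ) : ℂ) :=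
      funext fun q => hf _
    rw [this]
    exact h3 _ fun q => hf0 _
  have e2 : ∀ p, ∃ r : ℝ, 0 ≤ r ∧ (V' - W') (fun q => F (ofP Γ (un p q))) = r := by
    intro p
    have : (fun q => F (ofP Γ (un p q))) = fun q => ((f (ofP Γ (un p q)) : ℝ) : ℂ) :=
      funext fun q => hf _
    rw [this]
    exact h2 _ fun q => hf0 _
  choose g hg0 hg using e1
  choose k hk0 hk using e2
  obtain ⟨r1, a1, b1⟩ := h1 g hg0
  obtain ⟨r2, a2, b2⟩ := h4 k hk0
  refine ⟨r1 + r2, add_nonneg a1 a2, ?_⟩
  rw [pr_apply, pr_apply]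
  have c1 : (fun p => V' fun q => F (ofP Γ (un p q))) = fun p => (g p : ℂ) := funext hg
  have c2 : (fun p => W' fun q => F (ofP Γ (un p q))) = (fun p => (g p : ℂ)) - fun p => (k p : ℂ) := by
    funext p
    rw [Pi.sub_apply, ← hg, ← hk, LinearMap.sub_apply]
    ring
  rw [c1, c2, map_sub]
  rw [LinearMap.sub_apply] at b1
  have b1' : V (fun p => (g p : ℂ)) = r1 + W (fun p => (g p : ℂ)) := by rw [← b1]; ring
  rw [b1', b2]
  push_cast
  ring

theorem pr_nn {V V' : Fnl ι} (h3 : PosC V) (h4 : PosC V') {F : LPat Γ ι → ℂ} (hF : NNC F) :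
    ∃ r : ℝ, 0 ≤ r ∧ pr Γ V V' F = r := by
  choose f hf0 hf using hF
  have e1 : ∀ p, ∃ r : ℝ, 0 ≤ r ∧ V' (fun q => F (ofP Γ (un p q))) = r := by
    intro p
    have : (fun q => F (ofP Γ (un p q))) = fun q => ((f (ofP Γ (un p q)) : ℝ) : ℂ) :=
      funext fun q => hf _
    rw [this]
    exact h4 _ fun q => hf0 _
  choose g hg0 hg using e1
  rw [pr_apply, show (fun p => V' fun q => F (ofP Γ (un p q))) = fun p => (g p : ℂ) from funext hg]
  exact h3 g hg0

theorem gau_un (χ : ι → Γ) {r1 r2 : EXL.Pat ι} (h : Dj r1 r2) :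
    LPat.gau χ (ofP Γ (un r1 r2)) = lun (LPat.gau χ (ofP Γ r1)) (LPat.gau χ (ofP Γ r2)) := by
  have hd : LDj (LPat.gau χ (ofP Γ r1)) (LPat.gau χ (ofP Γ r2)) := h
  refine LPat.ext (funext fun x => ?_) (funext fun x => ?_)
  · show LPat.gau χ (ofP Γ (un r1 r2)) x = lun (LPat.gau χ (ofP Γ r1)) (LPat.gau χ (ofP Γ r2)) x
    have : LPat.gau χ (ofP Γ (un r1 r2)) x = un r1 r2 x := rfl
    rw [this, un_apply h]
    by_cases h1 : r1 x = x
    · have h1' : LPat.gau χ (ofP Γ r1) x = x := h1
      rw [if_pos h1, lun_f hd, if_pos h1']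
      rfl
    · have h1' : ¬ LPat.gau χ (ofP Γ r1) x = x := h1
      rw [if_neg h1, lun_f hd, if_neg h1']
      rfl
  · show (0 : Γ) + χ x - χ (un r1 r2 x) = (lun (LPat.gau χ (ofP Γ r1)) (LPat.gau χ (ofP Γ r2))).s x
    rw [un_apply h]
    by_cases h1 : r1 x = x
    · have h1' : LPat.gau χ (ofP Γ r1) x = x := h1
      rw [if_pos h1, lun_s hd, if_pos h1']
      rfl
    · have h1' : ¬ LPat.gau χ (ofP Γ r1) x = x := h1
      rw [if_neg h1, lun_s hd, if_neg h1']
      rfl

theorem dj_un {p q r : EXL.Pat ι} (h : Dj p q) (h1 : Dj p r) (h2 : Dj q r) : Dj (un p q) r := by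
  intro x
  by_cases hx : r x = x
  · exact Or.inr hx
  · left
    have e1 := (h1 x).resolve_right hx
    have e2 := (h2 x).resolve_right hx
    rw [un_apply h, if_pos e1, e2]

/-- Exchange of the middle terms. -/
theorem un_un {p1 p2 q1 q2 : EXL.Pat ι} (h12 : Dj p1 p2) (h34 : Dj q1 q2) (h13 : Dj p1 q1)
    (h14 : Dj p1 q2) (h23 : Dj p2 q1) (h24 : Dj p2 q2) :
    un (un p1 p2) (un q1 q2) = un (un p1 q1) (un p2 q2) := by
  have a1 : Dj (un p1 p2) (un q1 q2) :=
    (dj_un h34 (dj_un h12 h13 h23).symm (dj_un h12 h14 h24).symm).symm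
  have a2 : Dj (un p1 q1) (un p2 q2) :=
    (dj_un h24 (dj_un h13 h12 h23.symm).symm (dj_un h13 h14 h34).symm).symm
  ext x
  show un (un p1 p2) (un q1 q2) x = un (un p1 q1) (un p2 q2) x
  rw [un_apply a1, un_apply a2, un_apply h12, un_apply h34, un_apply h13, un_apply h24]
  have k12 := h12 x
  have k34 := h34 x
  have k13 := h13 x
  have k14 := h14 x
  have k23 := h23 x
  have k24 := h24 x
  by_cases b1 : p1 x = x
  · by_cases b2 : p2 x = x
    · by_cases b3 : q1 x = x
      · simp [b1, b2, b3]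
      · simp [b1, b2, b3]
    · have b3 := k23.resolve_left b2
      simp [b1, b2, b3]
  · have b2 := k12.resolve_left b1
    have b3 := k13.resolve_left b1
    have b4 := k14.resolve_left b1
    simp [b1]

/-- **The pairing of two product functionals is the product of the pairings.** -/
theorem pr_pU {ν : Γ → ℂ} {A B : List (ι × ι)} (hG : Gd (A ++ B)) {V1 V2 V1' V2' : Fnl ι}
    (h1 : SupS (Sr A) V1) (h2 : SupS (Sr B) V2) (h1' : SupS (Sl A) V1') (h2' : SupS (Sl B) V2')
    (χ : ι → Γ) :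
    pr Γ (pU V1 V2) (pU V1' V2') (Tw χ (gm ν (A ++ B))) =
      pr Γ V1 V1' (Tw χ (gm ν A)) * pr Γ V2 V2' (Tw χ (gm ν B)) := by
  have hf := hG.fst
  have hs := hG.snd
  have hfs := hG.disj
  rw [List.map_append, List.nodup_append] at hf hs
  have d12 : Disjoint (Sr A) (Sr B) := by
    rw [Set.disjoint_left]
    exact fun x hx hx' => hf.2.2 x hx x hx' rfl
  have d34 : Disjoint (Sl A) (Sl B) := by
    rw [Set.disjoint_left]
    exact fun x hx hx' => hs.2.2 x hx x hx' rfl
  have mA : ∀ x, x ∈ Sr A → x ∈ Sr (A ++ B) := fun x hx => by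
    simp only [Sr, List.map_append, List.mem_append, Set.mem_ofPred_eq] at hx ⊢
    exact Or.inl hx
  have mB : ∀ x, x ∈ Sr B → x ∈ Sr (A ++ B) := fun x hx => by
    simp only [Sr, List.map_append, List.mem_append, Set.mem_ofPred_eq] at hx ⊢
    exact Or.inr hx
  have mA' : ∀ x, x ∈ Sl A → x ∈ Sl (A ++ B) := fun x hx => by
    simp only [Sl, List.map_append, List.mem_append, Set.mem_ofPred_eq] at hx ⊢
    exact Or.inl hx
  have mB' : ∀ x, x ∈ Sl B → x ∈ Sl (A ++ B) := fun x hx => by
    simp only [Sl, List.map_append, List.mem_append, Set.mem_ofPred_eq] at hx ⊢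
    exact Or.inr hx
  have d13 : Disjoint (Sr A) (Sl A) := Set.disjoint_left.2 fun x hx hx' =>
    Set.disjoint_left.1 hfs (mA x hx) (mA' x hx')
  have d14 : Disjoint (Sr A) (Sl B) := Set.disjoint_left.2 fun x hx hx' =>
    Set.disjoint_left.1 hfs (mA x hx) (mB' x hx')
  have d23 : Disjoint (Sr B) (Sl A) := Set.disjoint_left.2 fun x hx hx' =>
    Set.disjoint_left.1 hfs (mB x hx) (mA' x hx')
  have d24 : Disjoint (Sr B) (Sl B) := Set.disjoint_left.2 fun x hx hx' =>
    Set.disjoint_left.1 hfs (mB x hx) (mB' x hx')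
  set a : EXL.Pat ι → EXL.Pat ι → ℂ := fun p q => Tw χ (gm ν A) (ofP Γ (un p q)) with ha
  set b : EXL.Pat ι → EXL.Pat ι → ℂ := fun p q => Tw χ (gm ν B) (ofP Γ (un p q)) with hb
  have key : ∀ p1 p2 q1 q2 : EXL.Pat ι, (∀ x, x ∉ Sr A → p1 x = x) → (∀ x, x ∉ Sr B → p2 x = x) →
      (∀ x, x ∉ Sl A → q1 x = x) → (∀ x, x ∉ Sl B → q2 x = x) →
      Tw χ (gm ν (A ++ B)) (ofP Γ (un (un p1 p2) (un q1 q2))) = a p1 q1 * b p2 q2 := by
    intro p1 p2 q1 q2 k1 k2 k3 k4
    have j12 := dj_of_sup d12 k1 k2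
    have j34 := dj_of_sup d34 k3 k4
    have j13 := dj_of_sup d13 k1 k3
    have j14 := dj_of_sup d14 k1 k4
    have j23 := dj_of_sup d23 k2 k3
    have j24 := dj_of_sup d24 k2 k4
    rw [un_un j12 j34 j13 j14 j23 j24]
    have a2 : Dj (un p1 q1) (un p2 q2) :=
      (dj_un j24 (dj_un j13 j12 j23.symm).symm (dj_un j13 j14 j34).symm).symm
    show gm ν (A ++ B) (LPat.gau χ (ofP Γ (un (un p1 q1) (un p2 q2)))) = _
    rw [gau_un χ a2]
    refine gm_lun hG ?_ _ ?_ a2
    · intro x hx hx'
      show un p2 q2 x = x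
      rw [un_apply j24, k2 x hx, if_pos rfl, k4 x hx']
    · intro x hx hx'
      show un p1 q1 x = x
      rw [un_apply j13, k1 x hx, if_pos rfl, k3 x hx']
  have lin : ∀ (V : Fnl ι) (c : ℂ) (F : EXL.Pat ι → ℂ), V (fun p => c * F p) = c * V F := by
    intro V c F
    rw [← smul_eq_mul, ← map_smul]
    rfl
  rw [pr_apply, pU_apply]
  have s1 : (V1 fun p1 => V2 fun p2 => pU V1' V2' fun q => Tw χ (gm ν (A ++ B)) (ofP Γ (un (un p1 p2) q))) =
      V1 fun p1 => V2 fun p2 => V1' (a p1) * V2' (b p2) := by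
    apply h1.congr
    intro p1 k1
    apply h2.congr
    intro p2 k2
    rw [pU_apply]
    have s2 : (V1' fun q1 => V2' fun q2 => Tw χ (gm ν (A ++ B)) (ofP Γ (un (un p1 p2) (un q1 q2)))) =
        V1' fun q1 => V2' (b p2) * a p1 q1 := by
      apply h1'.congr
      intro q1 k3
      have s3 : (V2' fun q2 => Tw χ (gm ν (A ++ B)) (ofP Γ (un (un p1 p2) (un q1 q2)))) =
          V2' fun q2 => a p1 q1 * b p2 q2 := by
        apply h2'.congr
        intro q2 k4
        exact key p1 p2 q1 q2 k1 k2 k3 k4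
      rw [s3, lin, mul_comm]
    rw [s2, lin, mul_comm]
  rw [s1]
  have s4 : (V1 fun p1 => V2 fun p2 => V1' (a p1) * V2' (b p2)) =
      V1 fun p1 => (V2 fun p2 => V2' (b p2)) * V1' (a p1) := by
    congr 1
    funext p1
    rw [lin, mul_comm]
  rw [s4, lin, mul_comm]
  rfl

end pr

end Pool.Agent.NUG
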