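import Pool.Agent.NUG.Split4

/-!
# G4: the ring partition function dominates the product of two strip partition functions

Rows on a circle, in cyclic order `A`, `B`, `C`, `D`; the face `f` is between `B` and `C`, the face `f'` between
`D` and `A`.  `Zp` of the ring functionals (the loops that separate `f` from `f'` have the weight `n'`, the other
loops the weight 0) is at least the product of the partition functions of the strip `B | C` with the face `f` and
of the strip `D | A` with the face `f'`, at the honeycomb point.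
-/

set_option autoImplicit false

namespace Pool.Agent.NUG

open _root_.Pool.Agent.EXL (HS.ind)
open _root_.Pool.Agent.NUF _root_.Pool.Agent.NUF.LPat
open _root_.Pool.Agent.NUF (Zp ZV VV VV_rev isV_VV reg_hex pr_tw chi Sr Sl Gd gm nu2 Fnl)

variable {ι : Type*} [DecidableEq ι] {A B C D L L1 L2 : List (ι × ι)} {n' : ℝ}

theorem nnc_nu2 (hn' : 0 ≤ n') (g : ZMod 2) : ∃ r : ℝ, 0 ≤ r ∧ nu2 (n' : ℂ) g = r := by
  unfold nu2
  split_ifs
  · exact ⟨0, le_rfl, by simp⟩
  · exact ⟨n', hn', rfl⟩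

theorem IsC.supS {e : ι} {X : List ι} {V : Fnl ι} (h : IsC e X V) {S : Set ι} (hS : ∀ x ∈ X, x ∈ S) :
    SupS S V :=
  (Sup.supS h.sup).mono fun x hx => hS x hx

/-- The twist of the group `B`, `C`. -/
theorem chi_BC (hG : Gd ((A ++ B) ++ (C ++ D))) :
    (∀ x ∈ Sr (B ++ C), chi (A ++ B) x = chi B x) ∧ (∀ x ∈ Sl (B ++ C), chi (A ++ B) x = chi B x) := by
  have hf := hG.fst
  have hs := hG.snd
  have hd := hG.disj
  simp only [List.map_append] at hf hs
  have m1 : ∀ x ∈ Sl A, x ∉ Sl (B ++ C) := by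
    intro x hx hx'
    rw [List.append_assoc, List.nodup_append] at hs
    refine hs.2.2 x hx x ?_ rfl
    simp only [Sl, List.map_append, List.mem_append, Set.mem_ofPred_eq] at hx'
    simp only [List.mem_append]
    tauto
  have m2 : ∀ x ∈ Sl A, x ∉ Sr (B ++ C) := by
    intro x hx hx'
    have k1 : x ∈ Sr ((A ++ B) ++ (C ++ D)) := by
      simp only [Sr, List.map_append, List.mem_append, Set.mem_ofPred_eq] at hx' ⊢
      tauto
    have k2 : x ∈ Sl ((A ++ B) ++ (C ++ D)) := by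
      simp only [Sl, List.map_append, List.mem_append, Set.mem_ofPred_eq] at hx ⊢
      tauto
    exact Set.disjoint_left.1 hd k1 k2
  have key : ∀ x, x ∉ Sl A → chi (A ++ B) x = chi B x := by
    intro x hx
    unfold chi
    have : x ∉ A.map Prod.snd := hx
    simp only [List.map_append, List.mem_append, this, false_or]
  exact ⟨fun x hx => key x fun h => m2 x h hx, fun x hx => key x fun h => m1 x h hx⟩

/-- The twist of the group `D`, `A`. -/
theorem chi_DA (hG : Gd ((A ++ B) ++ (C ++ D))) :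
    (∀ x ∈ Sr (D ++ A), chi (A ++ B) x = 0 ∧ chi D x = 0) ∧
      (∀ x ∈ Sl (D ++ A), chi (A ++ B) x = 1 + chi D x) := by
  have hf := hG.fst
  have hs := hG.snd
  have hd := hG.disj
  simp only [List.map_append] at hf hs
  constructor
  · intro x hx
    have k1 : x ∈ Sr ((A ++ B) ++ (C ++ D)) := by
      simp only [Sr, List.map_append, List.mem_append, Set.mem_ofPred_eq] at hx ⊢
      tauto
    have h1 : x ∉ Sl ((A ++ B) ++ (C ++ D)) := Set.disjoint_left.1 hd k1
    simp only [Sl, List.map_append, List.mem_append, Set.mem_ofPred_eq, not_or] at h1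
    constructor
    · exact chi_notMem (by simp only [List.map_append, List.mem_append]; tauto)
    · exact chi_notMem h1.2.2
  · intro x hx
    simp only [Sl, List.map_append, List.mem_append, Set.mem_ofPred_eq] at hx
    have h0 := (List.nodup_append.1 hs).2.2
    have h1 := (List.nodup_append.1 (List.nodup_append.1 hs).1).2.2
    have h2 := (List.nodup_append.1 (List.nodup_append.1 hs).2.1).2.2
    rcases hx with hx | hx
    · have a1 : x ∉ (A ++ B).map Prod.snd := by
        intro h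
        rw [List.map_append] at h
        exact h0 x h x (List.mem_append_right _ hx) rfl
      rw [chi_notMem a1, chi_mem hx]
      decide
    · have a1 : x ∉ D.map Prod.snd := fun h =>
        h0 x (List.mem_append_left _ hx) x (List.mem_append_right _ h) rfl
      rw [chi_notMem a1, chi_mem (by rw [List.map_append]; exact List.mem_append_left _ hx)]
      decide

theorem perm_ABCD (A B C D : List (ι × ι)) : ((A ++ B) ++ (C ++ D)).Perm ((B ++ C) ++ (D ++ A)) := by
  have h1 : ((A ++ B) ++ (C ++ D)) = A ++ (B ++ C ++ D) := by simp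
  have h2 : ((B ++ C) ++ (D ++ A)) = (B ++ C ++ D) ++ A := by simp
  rw [h1, h2]
  exact List.perm_append_comm

/-- **G4, abstract form.** -/
theorem Zp_ring_ge [Finite ι] (hG : Gd ((A ++ B) ++ (C ++ D))) {c d e : ι} (hcd : c ≠ d) (hce : c ≠ e)
    (hde : d ≠ e)
    (hc : c ∉ ((A ++ B) ++ (C ++ D)).map Prod.fst) (hd : d ∉ ((A ++ B) ++ (C ++ D)).map Prod.fst)
    (he : e ∉ ((A ++ B) ++ (C ++ D)).map Prod.fst)
    (hc' : c ∉ ((A ++ B) ++ (C ++ D)).map Prod.snd) (hd' : d ∉ ((A ++ B) ++ (C ++ D)).map Prod.snd)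
    (he' : e ∉ ((A ++ B) ++ (C ++ D)).map Prod.snd)
    (hM : MajR c d (((A ++ B) ++ (C ++ D)).map Prod.fst))
    (hM' : MajR c d (((A ++ B) ++ (C ++ D)).map Prod.snd).reverse) {Vr Vr' V1 V2 V1' V2' : Fnl ι}
    (hVr : IsD c d (((A ++ B) ++ (C ++ D)).map Prod.fst) Vr)
    (hVr' : IsD c d (((A ++ B) ++ (C ++ D)).map Prod.snd).reverse Vr')
    (h1 : IsC e ((B ++ C).map Prod.fst) V1) (h2 : IsC e ((D ++ A).map Prod.fst) V2)
    (h1' : IsC e ((B ++ C).map Prod.snd).reverse V1') (h2' : IsC e ((D ++ A).map Prod.snd).reverse V2')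
    (hn' : 0 ≤ n') :
    ∃ r : ℝ, 0 ≤ r ∧ Zp n' Vr Vr' (A ++ B) (C ++ D) = Zp n' V1 V1' B C * Zp n' V2 V2' D A + r := by
  have hf := hG.fst
  have hs := hG.snd
  have eX : ((A ++ B) ++ (C ++ D)).map Prod.fst =
      A.map Prod.fst ++ ((B ++ C).map Prod.fst ++ D.map Prod.fst) := by
    simp only [List.map_append, List.append_assoc]
  have eX' : (((A ++ B) ++ (C ++ D)).map Prod.snd).reverse =
      (D.map Prod.snd).reverse ++ (((B ++ C).map Prod.snd).reverse ++ (A.map Prod.snd).reverse) := by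
    simp only [List.map_append, List.append_assoc, List.reverse_append]
  have hsr : ((((A ++ B) ++ (C ++ D)).map Prod.snd).reverse).Nodup := List.nodup_reverse.2 hs
  have hcr : c ∉ (((A ++ B) ++ (C ++ D)).map Prod.snd).reverse := fun h => hc' (List.mem_reverse.1 h)
  have hdr : d ∉ (((A ++ B) ++ (C ++ D)).map Prod.snd).reverse := fun h => hd' (List.mem_reverse.1 h)
  have her : e ∉ (((A ++ B) ++ (C ++ D)).map Prod.snd).reverse := fun h => he' (List.mem_reverse.1 h)
  rw [eX] at hf hc hd he hM hVr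
  rw [eX'] at hsr hcr hdr her hM' hVr'
  have e2 : (D ++ A).map Prod.fst = D.map Prod.fst ++ A.map Prod.fst := List.map_append
  have e2' : ((D ++ A).map Prod.snd).reverse = (A.map Prod.snd).reverse ++ (D.map Prod.snd).reverse := by
    rw [List.map_append, List.reverse_append]
  have h2a : IsC e (D.map Prod.fst ++ A.map Prod.fst) V2 := e2 ▸ h2
  have h2a' : IsC e ((A.map Prod.snd).reverse ++ (D.map Prod.snd).reverse) V2' := e2' ▸ h2'
  obtain ⟨p1, p2, p3⟩ := ring_dom hf hcd hce hde hc hd he hM h1 h2a hVr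
  obtain ⟨p1', p2', p3'⟩ := ring_dom hsr hcd hce hde hcr hdr her hM' h1' h2a' hVr'
  have hK : NNC (Tw (chi (A ++ B)) (gm (nu2 (n' : ℂ)) ((A ++ B) ++ (C ++ D)))) :=
    (nnc_gm (nnc_nu2 hn') hG).tw _
  obtain ⟨r, hr, e⟩ := pr_mono (Γ := ZMod 2) p3 p3' p2' p1 hK
  refine ⟨r, hr, ?_⟩
  have hG2 : Gd ((B ++ C) ++ (D ++ A)) := hG.perm (perm_ABCD A B C D)
  have s1 : SupS (Sr (B ++ C)) V1 := h1.supS fun x hx => hx
  have s2 : SupS (Sr (D ++ A)) V2 := h2.supS fun x hx => hx
  have s1' : SupS (Sl (B ++ C)) V1' := h1'.supS fun x hx => List.mem_reverse.1 hx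
  have s2' : SupS (Sl (D ++ A)) V2' := h2'.supS fun x hx => List.mem_reverse.1 hx
  have hGB : Gd (B ++ C) := by
    have := hG2.fst
    have h3 := hG2.snd
    have h4 := hG2.disj
    rw [List.map_append, List.nodup_append] at this h3
    unfold Gd
    rw [List.nodup_append]
    refine ⟨this.1, h3.1, fun a ha b hb hab => ?_⟩
    subst hab
    have k1 : a ∈ Sr ((B ++ C) ++ (D ++ A)) := by
      show a ∈ ((B ++ C) ++ (D ++ A)).map Prod.fst
      rw [List.map_append]
      exact List.mem_append_left _ ha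
    have k2 : a ∈ Sl ((B ++ C) ++ (D ++ A)) := by
      show a ∈ ((B ++ C) ++ (D ++ A)).map Prod.snd
      rw [List.map_append]
      exact List.mem_append_left _ hb
    exact Set.disjoint_left.1 h4 k1 k2
  have hGD : Gd (D ++ A) := by
    have := hG2.fst
    have h3 := hG2.snd
    have h4 := hG2.disj
    rw [List.map_append, List.nodup_append] at this h3
    unfold Gd
    rw [List.nodup_append]
    refine ⟨this.2.1, h3.2.1, fun a ha b hb hab => ?_⟩
    subst hab
    have k1 : a ∈ Sr ((B ++ C) ++ (D ++ A)) := by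
      show a ∈ ((B ++ C) ++ (D ++ A)).map Prod.fst
      rw [List.map_append]
      exact List.mem_append_right _ ha
    have k2 : a ∈ Sl ((B ++ C) ++ (D ++ A)) := by
      show a ∈ ((B ++ C) ++ (D ++ A)).map Prod.snd
      rw [List.map_append]
      exact List.mem_append_right _ hb
    exact Set.disjoint_left.1 h4 k1 k2
  have cBC := chi_BC hG
  have cDA := chi_DA hG
  unfold Zp
  rw [e, gm_perm (nu2_neg _) hG (perm_ABCD A B C D), pr_pU hG2 s1 s2 s1' s2']
  congr 2
  · refine pr_tw s1 s1' hGB.disj (fun x hx y hy => ?_) (fun x hx y hy => ?_) _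
    · rw [cBC.1 x hx, cBC.1 y hy]
    · rw [cBC.2 x hx, cBC.2 y hy]
  · refine pr_tw s2 s2' hGD.disj (fun x hx y hy => ?_) (fun x hx y hy => ?_) _
    · rw [(cDA.1 x hx).1, (cDA.1 y hy).1, (cDA.1 x hx).2, (cDA.1 y hy).2]
    · rw [cDA.2 x hx, cDA.2 y hy]
      ring

/-! ### The strips at the honeycomb point -/

/-- the honeycomb point. -/
noncomputable def z0 : ι → ℂ := fun _ => Real.pi / 16

theorem isC_fst [Finite ι] {X : List ι} {e : ι} (hn : X.Nodup) (he : e ∉ X) : IsC e X (VV (z0 (ι := ι)) X) :=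
  isC_of_isV (isV_VV hn he (reg_hex hn fun _ _ => rfl)) (fun _ _ => rfl) he

theorem VV_snd [Finite ι] {X : List ι} {c e : ι} (hn : X.Nodup) (hce : c ≠ e) (hc : c ∉ X) (he : e ∉ X) :
    VV (fun j => -(z0 (ι := ι)) j) X = VV z0 X.reverse := by
  have h := VV_rev (z := z0 (ι := ι)) (X := X.reverse) (List.nodup_reverse.2 hn) hce
    (fun h => hc (List.mem_reverse.1 h)) (fun h => he (List.mem_reverse.1 h))
    (reg_hex (List.nodup_reverse.2 hn) fun _ _ => rfl)
  rwa [List.reverse_reverse] at h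

/-- **G4.** -/
theorem ring_ge_strips [Finite ι] (hG : Gd ((A ++ B) ++ (C ++ D))) {c d e : ι} (hcd : c ≠ d) (hce : c ≠ e)
    (hde : d ≠ e)
    (hc : c ∉ ((A ++ B) ++ (C ++ D)).map Prod.fst) (hd : d ∉ ((A ++ B) ++ (C ++ D)).map Prod.fst)
    (he : e ∉ ((A ++ B) ++ (C ++ D)).map Prod.fst)
    (hc' : c ∉ ((A ++ B) ++ (C ++ D)).map Prod.snd) (hd' : d ∉ ((A ++ B) ++ (C ++ D)).map Prod.snd)
    (he' : e ∉ ((A ++ B) ++ (C ++ D)).map Prod.snd)
    (hM : MajR c d (((A ++ B) ++ (C ++ D)).map Prod.fst))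
    (hM' : MajR c d (((A ++ B) ++ (C ++ D)).map Prod.snd).reverse) {Vr Vr' : Fnl ι}
    (hVr : IsD c d (((A ++ B) ++ (C ++ D)).map Prod.fst) Vr)
    (hVr' : IsD c d (((A ++ B) ++ (C ++ D)).map Prod.snd).reverse Vr') (hn' : 0 ≤ n') :
    ∃ r : ℝ, 0 ≤ r ∧ Zp n' Vr Vr' (A ++ B) (C ++ D) = ZV n' z0 B C * ZV n' z0 D A + r := by
  have hG2 : Gd ((B ++ C) ++ (D ++ A)) := hG.perm (perm_ABCD A B C D)
  have hf := hG2.fst
  have hs := hG2.snd
  rw [List.map_append, List.nodup_append] at hf hs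
  have sub1 : ∀ x, x ∈ (B ++ C).map Prod.fst → x ∈ ((A ++ B) ++ (C ++ D)).map Prod.fst := by
    intro x hx
    simp only [List.map_append, List.mem_append] at hx ⊢
    tauto
  have sub2 : ∀ x, x ∈ (D ++ A).map Prod.fst → x ∈ ((A ++ B) ++ (C ++ D)).map Prod.fst := by
    intro x hx
    simp only [List.map_append, List.mem_append] at hx ⊢
    tauto
  have sub3 : ∀ x, x ∈ (B ++ C).map Prod.snd → x ∈ ((A ++ B) ++ (C ++ D)).map Prod.snd := by
    intro x hx
    simp only [List.map_append, List.mem_append] at hx ⊢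
    tauto
  have sub4 : ∀ x, x ∈ (D ++ A).map Prod.snd → x ∈ ((A ++ B) ++ (C ++ D)).map Prod.snd := by
    intro x hx
    simp only [List.map_append, List.mem_append] at hx ⊢
    tauto
  have h1 := isC_fst hf.1 (fun h => he (sub1 _ h))
  have h2 := isC_fst hf.2.1 (fun h => he (sub2 _ h))
  have h1' := isC_fst (X := ((B ++ C).map Prod.snd).reverse) (e := e) (List.nodup_reverse.2 hs.1)
    (fun h => he' (sub3 _ (List.mem_reverse.1 h)))
  have h2' := isC_fst (X := ((D ++ A).map Prod.snd).reverse) (e := e) (List.nodup_reverse.2 hs.2.1)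
    (fun h => he' (sub4 _ (List.mem_reverse.1 h)))
  obtain ⟨r, hr, e1⟩ := Zp_ring_ge hG hcd hce hde hc hd he hc' hd' he' hM hM' hVr hVr' h1 h2 h1' h2' hn'
  refine ⟨r, hr, ?_⟩
  rw [e1]
  unfold ZV
  rw [VV_snd hs.1 hce (fun h => hc' (sub3 _ h)) (fun h => he' (sub3 _ h)),
    VV_snd hs.2.1 hce (fun h => hc' (sub4 _ h)) (fun h => he' (sub4 _ h))]

/-- The strip partition functions at the honeycomb point are real and nonnegative. -/
theorem ZV_nn [Finite ι] (hG : Gd (L1 ++ L2)) {c e : ι} (hce : c ≠ e)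
    (hc : c ∉ (L1 ++ L2).map Prod.fst) (hc' : c ∉ (L1 ++ L2).map Prod.snd)
    (he' : e ∉ (L1 ++ L2).map Prod.snd) (hn' : 0 ≤ n') :
    ∃ r : ℝ, 0 ≤ r ∧ ZV n' z0 L1 L2 = r := by
  unfold ZV
  rw [VV_snd hG.snd hce hc' he']
  unfold Zp
  cases nonempty_fintype ι
  refine pr_nn (fun F hF => ?_) (fun F hF => ?_) ((nnc_gm (nnc_nu2 hn') hG).tw _)
  · exact VV_hex_nonneg hG.fst hc (fun _ _ => rfl) hF
  · exact VV_hex_nonneg (List.nodup_reverse.2 hG.snd) (fun h => hc' (List.mem_reverse.1 h))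
      (fun _ _ => rfl) hF

end Pool.Agent.NUG
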