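import Pool.Agent.NUG.FarZ
import Pool.Agent.EXL.BFactsC

/-!
# The strip partition function dominates finite products of labelled columns

`lR`, `lM`, `lCol` = the rhombus, the row of rhombi and the column on functions of labelled states.
`ZV_ge_strip`: `ZV n' z0 L1 L2` is at least the value at the empty state of
`(lCol ..)^[n] (Tw χ ((lCol ..)^[m] dl))`, all on the sites of the right halves of the lines.
-/

set_option autoImplicit false

namespace Pool.Agent.NUG

open _root_.Pool.Agent.NUF _root_.Pool.Agent.NUF.LPat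

section ops

variable {Γ ι K : Type*} [AddCommGroup Γ] [DecidableEq ι] [CommRing K]

/-- The rhombus on functions of labelled states. -/
def lR (ν : Γ → K) (w : EXL.Wt K) (i j : ι) (F : LPat Γ ι → K) : LPat Γ ι → K := fun p =>
  if p i = i then
    if p j = j then F p + w.u2 * F (LPat.cup i j p)
    else w.v * F p + w.u1 * F (LPat.swap i j p)
  else if p j = j then w.v * F p + w.u1 * F (LPat.swap i j p)
  else w.w1 * F (LPat.swap i j p) +
    lw ν i j p * (w.u2 * F (jo i j p) + w.w2 * F (LPat.cup i j (jo i j p)))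

/-- The line `c` crosses the rows of `X`. -/
def lM (ν : Γ → K) (w : EXL.Wt K) (c : ι) : List ι → (LPat Γ ι → K) → (LPat Γ ι → K)
  | [], F => F
  | r :: X, F => lR ν w c r (lM ν w c X F)

/-- The site is empty. -/
def lEmp (c : ι) (F : LPat Γ ι → K) : LPat Γ ι → K := fun p => if p c = c then F p else 0

/-- **The column.** -/
def lCol (ν : Γ → K) (w : EXL.Wt K) (c : ι) (X : List ι) (F : LPat Γ ι → K) : LPat Γ ι → K :=
  lEmp c (lM ν w c X (lEmp c F))

/-- The words. -/
def wM (w : EXL.Wt K) (c : ι) : List ι → Wd K ι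
  | [] => 1
  | r :: X => wR w c r * wM w c X

/-- The word of the column. -/
def wcol (w : EXL.Wt K) (c : ι) (X : List ι) : Wd K ι := we c * wM w c X * we c

variable {ν : Γ → K} {w : EXL.Wt K} {c i j : ι} {X : List ι}

theorem repL_we (c : ι) (F : LPat Γ ι → K) : repL ν id (we c) F = lEmp c F := by
  rw [repL, we, FreeAlgebra.lift_ι_apply]
  rfl

theorem repL_wR (w : EXL.Wt K) (hij : i ≠ j) (F : LPat Γ ι → K) :
    repL ν id (wR w i j) F = lR ν w i j F := by
  have he : ∀ k, repL ν id (we k : Wd K ι) = lE Γ K k := fun k => by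
    rw [repL, we, FreeAlgebra.lift_ι_apply]; rfl
  have hsw : repL ν id (wsw i j : Wd K ι) = lSw Γ K i j := by
    rw [repL, wsw, FreeAlgebra.lift_ι_apply]; rfl
  have hcu : repL ν id (wcu i j : Wd K ι) = lCu Γ K i j := by
    rw [repL, wcu, FreeAlgebra.lift_ι_apply]; rfl
  have hct : repL ν id (wct i j : Wd K ι) = lCt ν i j := by
    rw [repL, wct, FreeAlgebra.lift_ι_apply]; rfl
  funext p
  simp only [wR, wo, map_add, map_mul, map_sub, map_smul, map_one, he, hsw, hcu, hct,
    LinearMap.add_apply, LinearMap.sub_apply, Module.End.mul_apply, LinearMap.smul_apply,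
    Module.End.one_apply, Pi.add_apply, Pi.sub_apply, Pi.smul_apply, smul_eq_mul, lE_apply, lSw_apply,
    lCu_apply, lCt_apply, lR]
  by_cases h1 : p i = i
  · by_cases h2 : p j = j
    · have hc : CuOK i j p := ⟨h1, h2⟩
      have hc' : ¬ OcOK i j p := fun h => h.2.1 h1
      simp [h1, h2]
    · simp [h1, h2]
  · by_cases h2 : p j = j
    · simp [h1, h2]
    · have hc : OcOK i j p := ⟨hij, h1, h2⟩
      have hc' : ¬ CuOK i j p := fun h => h1 h.1
      have hc2 : CuOK i j (jo i j p) := ⟨jo_fix_l hc, jo_fix_r hc⟩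
      rw [if_neg hc', if_pos hc, if_pos hc, if_pos hc2]
      simp [h1, h2]
      ring

theorem repL_wM (w : EXL.Wt K) (hc : c ∉ X) (F : LPat Γ ι → K) :
    repL ν id (wM w c X) F = lM ν w c X F := by
  induction X with
  | nil => rw [wM, map_one]; rfl
  | cons r X ih =>
    have hcr : c ≠ r := fun h => hc (by simp [h])
    rw [wM, map_mul, Module.End.mul_apply, ih (fun h => hc (by simp [h])), repL_wR w hcr]
    rfl

theorem repL_wcol (w : EXL.Wt K) (hc : c ∉ X) (F : LPat Γ ι → K) :
    repL ν id (wcol w c X) F = lCol ν w c X F := by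
  rw [wcol, map_mul, map_mul, Module.End.mul_apply, Module.End.mul_apply, repL_we, repL_wM w hc, repL_we]
  rfl

theorem rep0_wM (w : EXL.Wt K) (hc : c ∉ X) (F : EXL.Pat ι → K) :
    rep0 K id (wM w c X) F = EXL.M (fun _ => w) c X F := by
  induction X with
  | nil => rw [wM, map_one]; rfl
  | cons r X ih =>
    have hcr : c ≠ r := fun h => hc (by simp [h])
    rw [wM, map_mul, Module.End.mul_apply, ih (fun h => hc (by simp [h]))]
    exact rep0_R id w (i := c) (j := r) hcr _

theorem rep0_wcol (w : EXL.Wt K) (hc : c ∉ X) (F : EXL.Pat ι → K) :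
    rep0 K id (wcol w c X) F = colF (fun _ => w) c X F := by
  rw [wcol, map_mul, map_mul, Module.End.mul_apply, Module.End.mul_apply]
  have h1 : ∀ G : EXL.Pat ι → K, rep0 K id (we c) G = EXL.emp c G := fun G => rep0_emp id c G
  rw [h1, h1, rep0_wM w hc]
  rfl

omit [DecidableEq ι] in
theorem on_wM (w : EXL.Wt K) (c : ι) (X : List ι) : On (insert c {x | x ∈ X}) (wM w c X) := by
  induction X with
  | nil => exact On.one
  | cons r X ih =>
    refine (On.R w (by simp) (by simp)).mul (ih.mono ?_)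
    intro x hx
    simp only [Set.mem_insert_iff, Set.mem_ofPred_eq, List.mem_cons] at hx ⊢
    tauto

omit [DecidableEq ι] in
theorem on_wcol (w : EXL.Wt K) (c : ι) (X : List ι) : On (insert c {x | x ∈ X}) (wcol w c X) :=
  ((On.e (by simp)).mul (on_wM w c X)).mul (On.e (by simp))

/-- Words on disjoint sets of sites commute. -/
theorem repL_comm (hν : ∀ g, ν (-g) = ν g) {T T' : Set ι} (hd : Disjoint T T') {v v' : Wd K ι}
    (h : On T v) (h' : On T' v') : Commute (repL ν id v) (repL ν id v') := by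
  have ne : ∀ {a b}, a ∈ T → b ∈ T' → b ≠ a := fun ha hb e => Set.disjoint_left.1 hd ha (e ▸ hb)
  induction h using Algebra.adjoin_induction with
  | algebraMap r =>
    rw [AlgHom.commutes]
    exact Algebra.commutes r _
  | mul a b _ _ ha hb =>
    rw [map_mul]
    exact ha.mul_left hb
  | add a b _ _ ha hb =>
    rw [map_add]
    exact ha.add_left hb
  | mem x hx =>
    obtain ⟨a, ha, rfl⟩ := hx
    induction h' using Algebra.adjoin_induction with
    | algebraMap r =>
      rw [AlgHom.commutes]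
      exact (Algebra.commutes r _).symm
    | mul a b _ _ ha hb =>
      rw [map_mul]
      exact ha.mul_right hb
    | add a b _ _ ha hb =>
      rw [map_add]
      exact ha.add_right hb
    | mem y hy =>
      obtain ⟨b, hb, rfl⟩ := hy
      rw [repL, FreeAlgebra.lift_ι_apply, FreeAlgebra.lift_ι_apply]
      cases ha with
      | e hi =>
        cases hb with
        | e hk => exact comm_E_E _ _
        | sw hk hl => exact comm_E_Sw (ne hi hk).symm (ne hi hl).symm
        | cu hk hl => exact comm_E_Cu (ne hi hk).symm (ne hi hl).symm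
        | ct hk hl => exact comm_E_Ct (ne hi hk).symm (ne hi hl).symm
      | sw hi hj =>
        cases hb with
        | e hk => exact (comm_E_Sw (ne hi hk) (ne hj hk)).symm
        | sw hk hl => exact comm_Sw_Sw (ne hi hk) (ne hj hk) (ne hi hl) (ne hj hl)
        | cu hk hl => exact comm_Sw_Cu (ne hi hk) (ne hj hk) (ne hi hl) (ne hj hl)
        | ct hk hl => exact comm_Sw_Ct (ne hi hk) (ne hj hk) (ne hi hl) (ne hj hl)
      | cu hi hj =>
        cases hb with
        | e hk => exact (comm_E_Cu (ne hi hk) (ne hj hk)).symm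
        | sw hk hl =>
          exact (comm_Sw_Cu (ne hi hk).symm (ne hi hl).symm (ne hj hk).symm (ne hj hl).symm).symm
        | cu hk hl => exact comm_Cu_Cu (ne hi hk) (ne hj hk) (ne hi hl) (ne hj hl)
        | ct hk hl => exact comm_Cu_Ct (ne hi hk) (ne hj hk) (ne hi hl) (ne hj hl)
      | ct hi hj =>
        cases hb with
        | e hk => exact (comm_E_Ct (ne hi hk) (ne hj hk)).symm
        | sw hk hl =>
          exact (comm_Sw_Ct (ne hi hk).symm (ne hi hl).symm (ne hj hk).symm (ne hj hl).symm).symm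
        | cu hk hl =>
          exact (comm_Cu_Ct (ne hi hk).symm (ne hi hl).symm (ne hj hk).symm (ne hj hl).symm).symm
        | ct hk hl => exact comm_Ct_Ct hν (ne hi hk) (ne hj hk) (ne hi hl) (ne hj hl)

/-- Twists that are constant on the sites commute. -/
theorem tw_comm {χ : ι → Γ} {T : Set ι} {v : Wd K ι} (h : On T v) (g : Γ) (hχ : ∀ x ∈ T, χ x = g) :
    Commute (lG K χ) (repL ν id v) := by
  induction h using Algebra.adjoin_induction with
  | algebraMap r =>
    rw [AlgHom.commutes]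
    exact (Algebra.commutes r _).symm
  | mul a b _ _ ha hb =>
    rw [map_mul]
    exact ha.mul_right hb
  | add a b _ _ ha hb =>
    rw [map_add]
    exact ha.add_right hb
  | mem x hx =>
    obtain ⟨a, ha, rfl⟩ := hx
    rw [repL, FreeAlgebra.lift_ι_apply]
    cases ha with
    | e hi => exact lG_comm_e χ _
    | sw hi hj => exact lG_comm_sw ((hχ _ hi).trans (hχ _ hj).symm)
    | cu hi hj => exact lG_comm_cu ((hχ _ hi).trans (hχ _ hj).symm)
    | ct hi hj => exact lG_comm_ct ((hχ _ hi).trans (hχ _ hj).symm)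

/-- The functions agree on the states that are empty outside `T`. -/
def Ag (T : Set ι) (F G : LPat Γ ι → K) : Prop := ∀ P, (∀ x, x ∉ T → P x = x) → F P = G P

theorem Ag.rep {T : Set ι} {v : Wd K ι} (h : On T v) : ∀ {F G : LPat Γ ι → K}, Ag T F G →
    Ag T (repL ν id v F) (repL ν id v G) := by
  induction h using Algebra.adjoin_induction with
  | algebraMap r =>
    intro F G hF P hP
    rw [AlgHom.commutes, Module.algebraMap_end_apply, Module.algebraMap_end_apply, Pi.smul_apply,
      Pi.smul_apply, hF P hP]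
  | mul a b _ _ ha hb =>
    intro F G hF
    rw [map_mul, Module.End.mul_apply, Module.End.mul_apply]
    exact ha (hb hF)
  | add a b _ _ ha hb =>
    intro F G hF P hP
    rw [map_add, LinearMap.add_apply, LinearMap.add_apply, Pi.add_apply, Pi.add_apply, ha hF P hP,
      hb hF P hP]
  | mem x hx =>
    obtain ⟨a, ha, rfl⟩ := hx
    intro F G hF P hP
    rw [repL, FreeAlgebra.lift_ι_apply]
    cases ha with
    | e hi =>
      simp only [lE_apply]
      rw [hF P hP]
    | @sw i j hi hj =>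
      simp only [lSw_apply]
      refine hF _ fun x hx => ?_
      have h1 : x ≠ i := fun e => hx (e ▸ hi)
      have h2 : x ≠ j := fun e => hx (e ▸ hj)
      show LPat.swap i j P x = x
      rw [swap_out P h1 h2, hP x hx, Equiv.swap_apply_of_ne_of_ne h1 h2]
    | @cu i j hi hj =>
      simp only [lCu_apply]
      split_ifs
      · refine hF _ fun x hx => ?_
        have h1 : x ≠ i := fun e => hx (e ▸ hi)
        have h2 : x ≠ j := fun e => hx (e ▸ hj)
        show LPat.cup i j P x = x
        rw [cup_out P h1 h2, hP x hx]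
      · rfl
    | @ct i j hi hj =>
      simp only [lCt_apply]
      split_ifs with hc
      · rw [hF]
        intro x hx
        exact jo_fix hc (hP x hx)
      · rfl

end ops


section gm

variable {Γ ι : Type*} [AddCommGroup Γ] [DecidableEq ι] {ν : Γ → ℂ} {L L1 : List (ι × ι)} {e e' : ι}

/-- The gluing kernel vanishes at the states that are occupied outside the lines. -/
theorem gm_occ (hG : Gd L) {x : ι} (h1 : x ∉ L.map Prod.fst) (h2 : x ∉ L.map Prod.snd) :
    ∀ {P : LPat Γ ι}, P x ≠ x → gm ν L P = 0 := by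
  induction L with
  | nil =>
    intro P hP
    rw [gm_nil]
    unfold dl
    rw [if_neg]
    rintro rfl
    exact hP rfl
  | cons t L ih =>
    intro P hP
    obtain ⟨g1, g2, g3⟩ := Gd_cons.1 hG
    simp only [List.map_cons, List.mem_cons, not_or] at h1 h2
    rw [gm_cons, glue_apply g1, ih g3 h1.2 h2.2 hP, ih g3 h1.2 h2.2 (P := jo t.1 t.2 P) ?_]
    · simp
    · rw [Ne, jo_fix_out P h1.1 h2.1]
      exact hP

theorem lEmp_gm (hG : Gd L) {x : ι} (h1 : x ∉ L.map Prod.fst) (h2 : x ∉ L.map Prod.snd) :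
    lEmp x (gm ν L) = gm ν L := by
  funext P
  unfold lEmp
  split_ifs with h
  · rfl
  · exact (gm_occ hG h1 h2 h).symm

/-- The kernel at states that are empty on the left halves. -/
theorem gm_right (hG : Gd L) {P : LPat Γ ι} (hP : ∀ t ∈ L, P t.2 = t.2) : gm ν L P = dl Γ ι P := by
  induction L with
  | nil => rfl
  | cons t L ih =>
    obtain ⟨g1, g2, g3⟩ := Gd_cons.1 hG
    have h2 := hP t (by simp)
    rw [gm_cons, glue_apply g1, if_neg (fun h : OcOK t.1 t.2 P => h.2.2 h2), add_zero, if_pos h2,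
      ih g3 fun s hs => hP s (by simp [hs])]
    split_ifs with h1
    · rfl
    · unfold dl
      rw [if_neg]
      rintro rfl
      exact h1 rfl

omit [DecidableEq ι] in
theorem gd_fst {t : ι × ι} (hG : Gd L) (ht : t ∈ L) : t.1 ∈ L.map Prod.fst ∧ t.2 ∈ L.map Prod.snd :=
  ⟨List.mem_map_of_mem ht, List.mem_map_of_mem ht⟩

theorem wM_append (w : EXL.Wt ℂ) (c : ι) (X Y : List ι) : wM w c (X ++ Y) = wM w c X * wM w c Y := by
  induction X with
  | nil => rw [List.nil_append, wM, one_mul]
  | cons r X ih => rw [List.cons_append, wM, wM, ih, mul_assoc]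

theorem cont_lR {i j : ι} (G : LPat Γ ι → ℂ) (P : LPat Γ ι) {w : ℝ → EXL.Wt ℂ} {t : ℝ}
    (hw : EXL.HS.WtCont w t) : ContinuousAt (fun s => lR ν (w s) i j G P) t := by
  unfold lR
  split_ifs
  · exact continuousAt_const.add (hw.u2.mul continuousAt_const)
  · exact (hw.v.mul continuousAt_const).add (hw.u1.mul continuousAt_const)
  · exact (hw.v.mul continuousAt_const).add (hw.u1.mul continuousAt_const)
  · exact (hw.w1.mul continuousAt_const).add (continuousAt_const.mul
      ((hw.u2.mul continuousAt_const).add (hw.w2.mul continuousAt_const)))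

variable [Finite ι] (hν : ∀ g, ν (-g) = ν g) (h0 : ν 0 = 0)

include hν h0

/-- The hexagonal rhombus on the left halves is the rhombus on the right halves. -/
theorem R_gm {t u : ι × ι} (hG : Gd (t :: u :: L)) :
    lR ν (EXL.hexW (HexObs.xc : ℂ)) t.2 u.2 (gm ν (t :: u :: L)) =
      lR ν (EXL.hexW (HexObs.xc : ℂ)) t.1 u.1 (gm ν (t :: u :: L)) := by
  obtain ⟨g1, g2, g3⟩ := Gd_cons.1 hG
  obtain ⟨g4, g5, g6, g7⟩ := g2 u (by simp)
  obtain ⟨g8, -, -⟩ := Gd_cons.1 g3
  have hp := Real.pi_pos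
  -- the identity near the honeycomb point
  have key : ∀ s : ℝ, 0 < s → s < Real.pi / 16 →
      lR ν (EXL.rwt ((Real.pi / 8 + s : ℝ) : ℂ)) t.2 u.2 (gm ν (t :: u :: L)) =
        lR ν (EXL.rwt ((Real.pi / 8 + s : ℝ) : ℂ)) t.1 u.1 (gm ν (t :: u :: L)) := by
    intro s h1 h2
    have a1 : EXL.okR ((Real.pi / 8 + s : ℝ) : ℂ) := EXL.okR_main (by linarith) (by linarith)
    have a2 : EXL.okR (-((Real.pi / 8 + s : ℝ) : ℂ)) := by
      rw [← Complex.ofReal_neg]
      exact EXL.okR_main (by linarith) (by linarith)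
    have ehh : (cops (ι := ι) ν).h + (cops (ι := ι) ν).h = ((3 * Real.pi / 8 : ℝ) : ℂ) := by
      show (3 * Real.pi / 16 + 3 * Real.pi / 16 : ℂ) = _
      push_cast
      ring
    have a3 : EXL.okR ((cops (ι := ι) ν).h + (cops (ι := ι) ν).h - ((Real.pi / 8 + s : ℝ) : ℂ)) := by
      rw [ehh, ← Complex.ofReal_sub]
      exact EXL.okR_main (by linarith) (by linarith)
    have a4 : EXL.okR (((Real.pi / 8 + s : ℝ) : ℂ) - ((cops (ι := ι) ν).h + (cops (ι := ι) ν).h)) := by
      rw [ehh, ← Complex.ofReal_sub]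
      exact EXL.okR_main (by linarith) (by linarith)
    have h := RG hν h0 (w := ((Real.pi / 8 + s : ℝ) : ℂ)) g4 g1 g5 (Ne.symm g6) g8 g7 a1 a2 a3 a4
    have e1 : ∀ {i j : ι}, i ≠ j → (cops ν).R i j ((Real.pi / 8 + s : ℝ) : ℂ) =
        repL ν id (wR (EXL.rwt ((Real.pi / 8 + s : ℝ) : ℂ)) i j) := by
      intro i j hij
      show repL ν id (if i = j then 0 else wR (EXL.rwt _) i j) = _
      rw [if_neg hij]
    rw [e1 g4, e1 g7] at h
    rw [← repL_wR _ g7, ← repL_wR _ g4, gm_cons, gm_cons]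
    exact (congrArg (fun x : Module.End ℂ (LPat Γ ι → ℂ) => x (gm ν L)) h).symm
  have hw : EXL.HS.WtCont (fun s : ℝ => EXL.rwt ((Real.pi / 8 + s : ℝ) : ℂ)) 0 := by
    refine EXL.wtCont_rwt (u := fun s : ℝ => ((Real.pi / 8 + s : ℝ) : ℂ)) ?_ ?_
    · exact (Complex.continuous_ofReal.comp (continuous_const.add continuous_id)).continuousAt
    · exact EXL.okR_main (by linarith) (by linarith)
  have e0 : EXL.rwt ((Real.pi / 8 + (0 : ℝ) : ℝ) : ℂ) = EXL.hexW (HexObs.xc : ℂ) := by
    rw [add_zero]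
    push_cast
    exact EXL.rwt_hex
  funext P
  have c1 := (cont_lR (ν := ν) (i := t.2) (j := u.2) (gm ν (t :: u :: L)) P hw).tendsto
  have c2 := (cont_lR (ν := ν) (i := t.1) (j := u.1) (gm ν (t :: u :: L)) P hw).tendsto
  rw [e0] at c1 c2
  have d1 := c1.mono_left (nhdsWithin_le_nhds (s := Set.Ioi (0 : ℝ)))
  have d2 := c2.mono_left (nhdsWithin_le_nhds (s := Set.Ioi (0 : ℝ)))
  refine tendsto_nhds_unique (d1.congr' ?_) d2
  have : Set.Ioo (0 : ℝ) (Real.pi / 16) ∈ nhdsWithin (0 : ℝ) (Set.Ioi 0) :=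
    Ioo_mem_nhdsGT (by linarith)
  filter_upwards [this] with s hs
  exact congrFun (key s hs.1 hs.2) P

/-- The same for two lines of a list. -/
theorem R_gm' {e e' : ι} {t : ι × ι} (hG : Gd ((e, e') :: L)) (ht : t ∈ L) :
    lR ν (EXL.hexW (HexObs.xc : ℂ)) e' t.2 (gm ν ((e, e') :: L)) =
      lR ν (EXL.hexW (HexObs.xc : ℂ)) e t.1 (gm ν ((e, e') :: L)) := by
  have hp : ((e, e') :: L).Perm ((e, e') :: t :: L.erase t) := (List.perm_cons_erase ht).cons _
  rw [gm_perm hν hG hp]
  exact R_gm hν h0 (hG.perm hp)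

/-- A row of rhombi on the left halves, in the opposite order. -/
theorem M_gm {e e' : ι} (hG : Gd ((e, e') :: L)) {L1 : List (ι × ι)} (h1 : ∀ t ∈ L1, t ∈ L) :
    repL ν id (wM (EXL.hexW (HexObs.xc : ℂ)) e' (L1.map Prod.snd).reverse) (gm ν ((e, e') :: L)) =
      repL ν id (wM (EXL.hexW (HexObs.xc : ℂ)) e (L1.map Prod.fst)) (gm ν ((e, e') :: L)) := by
  have hd := hG.disj
  have me : e ∈ Sr ((e, e') :: L) := by simp [Sr]
  have me' : e' ∈ Sl ((e, e') :: L) := by simp [Sl]
  have ms : ∀ t ∈ L, t.1 ∈ Sr ((e, e') :: L) ∧ t.2 ∈ Sl ((e, e') :: L) := by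
    intro t ht
    constructor
    · show t.1 ∈ ((e, e') :: L).map Prod.fst
      exact List.mem_map_of_mem (List.mem_cons_of_mem _ ht)
    · show t.2 ∈ ((e, e') :: L).map Prod.snd
      exact List.mem_map_of_mem (List.mem_cons_of_mem _ ht)
  have hne : ∀ t ∈ L, e ≠ t.1 ∧ e' ≠ t.2 := fun t ht => by
    have := (Gd_cons.1 hG).2.1 t ht
    exact ⟨this.1, this.2.2.2⟩
  induction L1 with
  | nil => simp [wM]
  | cons t L1 ih =>
    have ht := h1 t (by simp)
    have ih := ih fun s hs => h1 s (by simp [hs])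
    rw [List.map_cons, List.map_cons, List.reverse_cons, wM_append, map_mul, Module.End.mul_apply,
      wM, wM, mul_one, repL_wR _ (hne t ht).2, R_gm' hν h0 hG ht, ← repL_wR _ (hne t ht).1,
      wM, map_mul, Module.End.mul_apply, ← ih, ← Module.End.mul_apply, ← Module.End.mul_apply]
    congr 1
    have c : Commute (repL ν id (wM (EXL.hexW (HexObs.xc : ℂ)) e' (L1.map Prod.snd).reverse))
        (repL ν id (wR (EXL.hexW (HexObs.xc : ℂ)) e t.1)) := by
      refine repL_comm hν (T := Sl ((e, e') :: L)) (T' := Sr ((e, e') :: L)) hd.symm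
        ((on_wM _ _ _).mono ?_) (On.R _ me (ms t ht).1)
      intro x hx
      rw [Set.mem_insert_iff] at hx
      rcases hx with rfl | hx
      · exact me'
      · have hx' : x ∈ (L1.map Prod.snd).reverse := hx
        rw [List.mem_reverse, List.mem_map] at hx'
        obtain ⟨s, hs, rfl⟩ := hx'
        exact (ms s (h1 s (by simp [hs]))).2
    exact c.eq

/-- **The column on the left halves is the column on the right halves.** -/
theorem col_gm {e e' : ι} (hG : Gd ((e, e') :: L)) :
    lCol ν (EXL.hexW (HexObs.xc : ℂ)) e' (L.map Prod.snd).reverse (gm ν L) =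
      lCol ν (EXL.hexW (HexObs.xc : ℂ)) e (L.map Prod.fst) (gm ν L) := by
  obtain ⟨g1, g2, g3⟩ := Gd_cons.1 hG
  have g1' : e ≠ e' := g1
  have f1 : e ∉ L.map Prod.fst := fun h => by
    obtain ⟨s, hs, e1⟩ := List.mem_map.1 h
    exact (g2 s hs).1 e1.symm
  have f2 : e ∉ L.map Prod.snd := fun h => by
    obtain ⟨s, hs, e1⟩ := List.mem_map.1 h
    exact (g2 s hs).2.1 e1.symm
  have f3 : e' ∉ L.map Prod.fst := fun h => by
    obtain ⟨s, hs, e1⟩ := List.mem_map.1 h
    exact (g2 s hs).2.2.1 e1.symm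
  have f4 : e' ∉ L.map Prod.snd := fun h => by
    obtain ⟨s, hs, e1⟩ := List.mem_map.1 h
    exact (g2 s hs).2.2.2 e1.symm
  have f4' : e' ∉ (L.map Prod.snd).reverse := fun h => f4 (List.mem_reverse.1 h)
  set F0 := gm ν L with hF0
  set G0 := gm ν ((e, e') :: L) with hG0
  set E := repL ν id (we e : Wd ℂ ι) with hE
  set E' := repL ν id (we e' : Wd ℂ ι) with hE'
  set Mx := repL ν id (wM (EXL.hexW (HexObs.xc : ℂ)) e (L.map Prod.fst)) with hMx
  set Mx' := repL ν id (wM (EXL.hexW (HexObs.xc : ℂ)) e' (L.map Prod.snd).reverse) with hMx'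
  have s1 : E F0 = F0 := by
    rw [hE, repL_we]
    exact lEmp_gm g3 f1 f2
  have s2 : E' F0 = F0 := by
    rw [hE', repL_we]
    exact lEmp_gm g3 f3 f4
  have eG : ∀ P : LPat Γ ι, P e = e ∨ P e' = e' → G0 P = if P e = e then (if P e' = e' then F0 P else 0)
      else 0 := by
    intro P hP
    have hn : ¬ OcOK (e, e').1 (e, e').2 P := by
      intro h
      rcases hP with h1 | h1
      · exact h.2.1 h1
      · exact h.2.2 h1
    rw [hG0, gm_cons, glue_apply g1, if_neg hn, add_zero]
  have o1 : ∀ P : LPat Γ ι, P e ≠ e → F0 P = 0 := fun P hP => gm_occ g3 f1 f2 hP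
  have o2 : ∀ P : LPat Γ ι, P e' ≠ e' → F0 P = 0 := fun P hP => gm_occ g3 f3 f4 hP
  have s3 : E G0 = F0 := by
    rw [hE, repL_we]
    funext P
    unfold lEmp
    by_cases h1 : P e = e
    · rw [if_pos h1, eG P (Or.inl h1), if_pos h1]
      by_cases h2 : P e' = e'
      · rw [if_pos h2]
      · rw [if_neg h2, o2 P h2]
    · rw [if_neg h1, o1 P h1]
  have s4 : E' G0 = F0 := by
    rw [hE', repL_we]
    funext P
    unfold lEmp
    by_cases h2 : P e' = e'
    · rw [if_pos h2, eG P (Or.inr h2)]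
      by_cases h1 : P e = e
      · rw [if_pos h1, if_pos h2]
      · rw [if_neg h1, o1 P h1]
    · rw [if_neg h2, o2 P h2]
  have hd := hG.disj
  have me : e ∈ Sr ((e, e') :: L) := by simp [Sr]
  have me' : e' ∈ Sl ((e, e') :: L) := by simp [Sl]
  have onM : On (Sr ((e, e') :: L)) (wM (EXL.hexW (HexObs.xc : ℂ)) e (L.map Prod.fst)) := by
    refine (on_wM _ _ _).mono fun x hx => ?_
    rw [Set.mem_insert_iff] at hx
    show x ∈ ((e, e') :: L).map Prod.fst
    rw [List.map_cons, List.mem_cons]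
    exact hx
  have onM' : On (Sl ((e, e') :: L)) (wM (EXL.hexW (HexObs.xc : ℂ)) e' (L.map Prod.snd).reverse) := by
    refine (on_wM _ _ _).mono fun x hx => ?_
    rw [Set.mem_insert_iff] at hx
    show x ∈ ((e, e') :: L).map Prod.snd
    rw [List.map_cons, List.mem_cons]
    rcases hx with hx | hx
    · exact Or.inl hx
    · exact Or.inr (List.mem_reverse.1 hx)
  have c1 : E * Mx' = Mx' * E := (repL_comm hν hd (On.e me) onM').eq
  have c2 : E' * Mx = Mx * E' := (repL_comm hν hd.symm (On.e me') onM).eq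
  have c3 : E * E' = E' * E := (repL_comm hν hd (On.e me) (On.e me')).eq
  have hM : Mx' G0 = Mx G0 := M_gm hν h0 hG fun t ht => ht
  rw [← repL_wcol _ f4', ← repL_wcol _ f1, wcol, wcol, map_mul, map_mul, map_mul, map_mul,
    Module.End.mul_apply, Module.End.mul_apply, Module.End.mul_apply, Module.End.mul_apply]
  show E' (Mx' (E' F0)) = E (Mx (E F0))
  calc E' (Mx' (E' F0)) = E' (Mx' (E G0)) := by rw [s2, s3]
    _ = E' ((Mx' * E) G0) := rfl
    _ = E' ((E * Mx') G0) := by rw [c1]
    _ = E' (E (Mx' G0)) := rfl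
    _ = (E' * E) (Mx G0) := by rw [hM]; rfl
    _ = (E * E') (Mx G0) := by rw [c3]
    _ = E ((E' * Mx) G0) := rfl
    _ = E ((Mx * E') G0) := by rw [c2]
    _ = E (Mx (E' G0)) := rfl
    _ = E (Mx (E F0)) := by rw [s4, s1]

/-- **The iterated columns.** -/
theorem col_gm_iter {e e' : ι} (hG : Gd ((e, e') :: L)) (m : ℕ) :
    (lCol ν (EXL.hexW (HexObs.xc : ℂ)) e' (L.map Prod.snd).reverse)^[m] (gm ν L) =
      (lCol ν (EXL.hexW (HexObs.xc : ℂ)) e (L.map Prod.fst))^[m] (gm ν L) := by
  obtain ⟨g1, g2, g3⟩ := Gd_cons.1 hG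
  have f1 : e ∉ L.map Prod.fst := fun h => by
    obtain ⟨s, hs, e1⟩ := List.mem_map.1 h
    exact (g2 s hs).1 e1.symm
  have f4 : e' ∉ L.map Prod.snd := fun h => by
    obtain ⟨s, hs, e1⟩ := List.mem_map.1 h
    exact (g2 s hs).2.2.2 e1.symm
  have f4' : e' ∉ (L.map Prod.snd).reverse := fun h => f4 (List.mem_reverse.1 h)
  have hd := hG.disj
  have c : Function.Commute (lCol ν (EXL.hexW (HexObs.xc : ℂ)) e' (L.map Prod.snd).reverse)
      (lCol ν (EXL.hexW (HexObs.xc : ℂ)) e (L.map Prod.fst)) := by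
    intro F
    rw [← repL_wcol _ f4', ← repL_wcol _ f4', ← repL_wcol _ f1, ← repL_wcol _ f1,
      ← Module.End.mul_apply, ← Module.End.mul_apply]
    have : Commute (repL ν id (wcol (EXL.hexW (HexObs.xc : ℂ)) e' (L.map Prod.snd).reverse))
        (repL ν id (wcol (EXL.hexW (HexObs.xc : ℂ)) e (L.map Prod.fst))) := by
      refine repL_comm hν (T := Sl ((e, e') :: L)) (T' := Sr ((e, e') :: L)) hd.symm
        ((on_wcol _ _ _).mono fun x hx => ?_) ((on_wcol _ _ _).mono fun x hx => ?_)
      · rw [Set.mem_insert_iff] at hx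
        show x ∈ ((e, e') :: L).map Prod.snd
        rw [List.map_cons, List.mem_cons]
        rcases hx with hx | hx
        · exact Or.inl hx
        · exact Or.inr (List.mem_reverse.1 hx)
      · rw [Set.mem_insert_iff] at hx
        show x ∈ ((e, e') :: L).map Prod.fst
        rw [List.map_cons, List.mem_cons]
        exact hx
    rw [this.eq]
  induction m with
  | zero => rfl
  | succ m ih =>
    rw [Function.iterate_succ_apply', ih, (c.iterate_right m).eq, col_gm hν h0 hG,
      ← Function.iterate_succ_apply]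

end gm

end Pool.Agent.NUG
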